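import Mathlib

/-!
Definitions for the question whether the unitary equivalence class of the C*-correspondence of a
multivariable C*-dynamical system is an invariant of its associated operator algebras.
-/

namespace Pool.Agent.V1190.CI

/-- The monomial `s_{i₁} ⋯ s_{iₖ} a`, for the word `w = [i₁, …, iₖ]` (which may be empty). -/
def mono {n : ℕ} {A : Type} [CStarAlgebra A] {C : Type} [CStarAlgebra C] {S : Subalgebra ℂ C}
    (ι : A →ₐ[ℂ] S) (s : Fin n → S) (w : List (Fin n)) (a : A) : S :=
  (w.map s).prod * ι a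

/-- `S`, a norm closed subalgebra of a C*-algebra `C`, is an operator algebra associated with the
multivariable system `(A, α)`. -/
def Associated {n : ℕ} {A : Type} [CStarAlgebra A] (α : Fin n → (A →⋆ₐ[ℂ] A))
    {C : Type} [CStarAlgebra C] (S : Subalgebra ℂ C) : Prop :=
  IsClosed (S : Set C) ∧
  ∃ (ι : A →ₐ[ℂ] S) (s : Fin n → S) (E : S →L[ℂ] S) (F : Fin n → (S →L[ℂ] S)),
    -- `ι` is a *-isomorphism of `A` onto the diagonal `S ∩ S*`
    (Function.Injective ι ∧ (∀ a, (ι (star a) : C) = star (ι a : C)) ∧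
      ∀ x : S, star (x : C) ∈ S ↔ x ∈ Set.range ι) ∧
    -- (1) `E` is an idempotent map whose range is the diagonal; moreover it is linear,
    -- contractive, multiplicative, and annihilates all monomials of positive degree
    ((∀ x, E (E x) = E x) ∧ Set.range E = Set.range ι ∧ (∀ x, ‖E x‖ ≤ ‖x‖) ∧
      (∀ x y, E (x * y) = E x * E y) ∧ ∀ w a, w ≠ [] → E (mono ι s w a) = 0) ∧
    -- (2) covariance, and no `s i` is a divisor of zero, on either side
    ((∀ i a, ι a * s i = s i * ι (α i a)) ∧ (∀ i x, s i * x = 0 → x = 0) ∧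
      ∀ i x, x * s i = 0 → x = 0) ∧
    -- (3) the algebra is the closed linear span of the monomials
    (Submodule.span ℂ {x : S | ∃ w a, x = mono ι s w a}).topologicalClosure = ⊤ ∧
    -- (4) the bounded idempotents `F i`
    (∀ i, (∀ x, F i (F i x) = F i x) ∧ (∀ a, F i (s i * ι a) = s i * ι a) ∧
      ∀ w a, w ≠ [i] → F i (mono ι s w a) = 0)

/-- Unitary equivalence of the C*-correspondences `X_(A,α)` and `X_(B,β)`. The module of `(A, α)`
is `Fin n → A` with inner product `∑ star (x i) * y i`, right action `x i * b` and left action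
`α i a * x i`. -/
def UnitarilyEquivalent {n m : ℕ} {A B : Type} [CStarAlgebra A] [CStarAlgebra B]
    (α : Fin n → (A →⋆ₐ[ℂ] A)) (β : Fin m → (B →⋆ₐ[ℂ] B)) : Prop :=
  ∃ (γ : A ≃⋆ₐ[ℂ] B) (U : (Fin n → A) →ₗ[ℂ] (Fin m → B)), Function.Surjective U ∧
    (∀ x y, ∑ j, star (U x j) * U y j = γ (∑ i, star (x i) * y i)) ∧
    ∀ a b x, U (fun i => α i a * x i * b) = fun j => β j (γ a) * U x j * γ b

end Pool.Agent.V1190.CI
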