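import Mathlib

/-!
Full Fock space over a Hilbert space, indexed by words in two letters.
-/

namespace Pool.Agent.V1190.CI

open scoped InnerProductSpace

/-- words in two letters -/
abbrev Wd := List (Fin 2)

/-- Fock space -/
abbrev FK (H : Type) [NormedAddCommGroup H] := lp (fun _ : Wd => H) 2

section

variable {H : Type} [NormedAddCommGroup H] [InnerProductSpace ℂ H] [CompleteSpace H]

theorem two_pos' : 0 < (2 : ENNReal).toReal := by norm_num

theorem summ (ξ : FK H) : Summable fun w => ‖ξ w‖ ^ (2 : ENNReal).toReal :=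
  (lp.memℓp ξ).summable two_pos'

/-- backward shift -/
noncomputable def Cop (i : Fin 2) : FK H →L[ℂ] FK H :=
  LinearMap.mkContinuous
    { toFun := fun ξ => ⟨fun w => ξ (i :: w), by
        refine (memℓp_gen_iff two_pos').2 ?_
        exact (summ ξ).comp_injective (i := fun w : Wd => i :: w) (List.cons_injective)⟩
      map_add' := fun ξ η => rfl
      map_smul' := fun c ξ => rfl } 1 (by
    intro ξ
    rw [one_mul]
    refine lp.norm_le_of_tsum_le two_pos' (norm_nonneg _) ?_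
    rw [lp.norm_rpow_eq_tsum two_pos' ξ]
    exact tsum_comp_le_tsum_of_inj (i := fun w : Wd => i :: w) (summ ξ)
      (fun w => by positivity) List.cons_injective)

theorem Cop_apply (i : Fin 2) (ξ : FK H) (w : Wd) : Cop i ξ w = ξ (i :: w) := rfl

/-- creation operator -/
noncomputable def Uop (i : Fin 2) : FK H →L[ℂ] FK H := ContinuousLinearMap.adjoint (Cop i)

theorem Cop_single (i : Fin 2) (w : Wd) (h : H) :
    Cop i (lp.single 2 (i :: w) h : FK H) = lp.single 2 w h := by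
  ext v
  rw [Cop_apply]
  by_cases hv : v = w
  · subst hv; simp
  · rw [lp.single_apply_ne _ _ _ (by simpa using hv), lp.single_apply_ne _ _ _ hv]

theorem Cop_single_ne (i j : Fin 2) (hij : i ≠ j) (w : Wd) (h : H) :
    Cop i (lp.single 2 (j :: w) h : FK H) = 0 := by
  ext v
  rw [Cop_apply, lp.single_apply_ne _ _ _ (by simp [hij])]
  rfl

theorem Cop_single_nil (i : Fin 2) (h : H) :
    Cop i (lp.single 2 ([] : Wd) h : FK H) = 0 := by
  ext v
  rw [Cop_apply, lp.single_apply_ne _ _ _ (by simp)]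
  rfl

theorem ext_single {x y : FK H} {w : Wd}
    (h : ∀ v : H, ⟪(lp.single 2 w v : FK H), x⟫_ℂ = ⟪v, y w⟫_ℂ) : x w = y w := by
  refine ext_inner_left ℂ fun v => ?_
  rw [← h v, lp.inner_single_left]

theorem Uop_cons (i : Fin 2) (ξ : FK H) (w : Wd) : Uop i ξ (i :: w) = ξ w := by
  refine ext_inner_left ℂ fun v => ?_
  rw [← lp.inner_single_left (𝕜 := ℂ) (i :: w) v (Uop i ξ), Uop,
    ContinuousLinearMap.adjoint_inner_right, Cop_single, lp.inner_single_left]

theorem Uop_cons_ne (i j : Fin 2) (hij : i ≠ j) (ξ : FK H) (w : Wd) : Uop i ξ (j :: w) = 0 := by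
  refine ext_inner_left ℂ fun v => ?_
  rw [← lp.inner_single_left (𝕜 := ℂ) (j :: w) v (Uop i ξ), Uop,
    ContinuousLinearMap.adjoint_inner_right, Cop_single_ne i j hij, inner_zero_left,
    inner_zero_right]

theorem Uop_nil (i : Fin 2) (ξ : FK H) : Uop i ξ [] = 0 := by
  refine ext_inner_left ℂ fun v => ?_
  rw [← lp.inner_single_left (𝕜 := ℂ) ([] : Wd) v (Uop i ξ), Uop,
    ContinuousLinearMap.adjoint_inner_right, Cop_single_nil, inner_zero_left,
    inner_zero_right]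

theorem star_Uop (i : Fin 2) : star (Uop i : FK H →L[ℂ] FK H) = Cop i := by
  rw [ContinuousLinearMap.star_eq_adjoint, Uop, ContinuousLinearMap.adjoint_adjoint]

theorem Cop_mul_Uop (i : Fin 2) : (Cop i * Uop i : FK H →L[ℂ] FK H) = 1 := by
  ext ξ w
  exact Uop_cons i ξ w

theorem Cop_mul_Uop_ne (i j : Fin 2) (hij : i ≠ j) : (Cop i * Uop j : FK H →L[ℂ] FK H) = 0 := by
  ext ξ w
  exact Uop_cons_ne j i hij.symm ξ w

/-- vacuum coordinate -/
noncomputable def Pv : FK H →L[ℂ] H := lp.evalCLM ℂ (fun _ : Wd => H) 2 []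

theorem Pv_apply (ξ : FK H) : Pv ξ = ξ [] := rfl

/-- vacuum embedding -/
noncomputable def Jv : H →L[ℂ] FK H := ContinuousLinearMap.adjoint Pv

theorem Jv_nil (h : H) : (Jv h : FK H) [] = h := by
  refine ext_inner_left ℂ fun v => ?_
  rw [← lp.inner_single_left (𝕜 := ℂ) ([] : Wd) v (Jv h), Jv,
    ContinuousLinearMap.adjoint_inner_right, Pv_apply, lp.single_apply_self]

theorem Pv_comp_Jv : (Pv : FK H →L[ℂ] H).comp Jv = ContinuousLinearMap.id ℂ H := by
  ext h
  exact Jv_nil h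

theorem Pv_comp_Uop (i : Fin 2) : (Pv : FK H →L[ℂ] H).comp (Uop i) = 0 := by
  ext ξ
  exact Uop_nil i ξ

theorem Cop_comp_Jv (i : Fin 2) : (Cop i).comp (Jv : H →L[ℂ] FK H) = 0 := by
  have h := congrArg ContinuousLinearMap.adjoint (Pv_comp_Uop (H := H) i)
  rw [ContinuousLinearMap.adjoint_comp, Uop, ContinuousLinearMap.adjoint_adjoint, map_zero] at h
  exact h

/-- diagonal operator -/
noncomputable def Dop (T : Wd → (H →L[ℂ] H)) (C : ℝ) (hC : ∀ w, ‖T w‖ ≤ C) :
    FK H →L[ℂ] FK H :=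
  LinearMap.mkContinuous
    { toFun := fun ξ => ⟨fun w => T w (ξ w), by
        refine (memℓp_gen_iff two_pos').2 ?_
        refine Summable.of_nonneg_of_le (fun w => by positivity) (fun w => ?_)
          ((summ ξ).mul_left (C ^ (2 : ENNReal).toReal))
        have h0 : 0 ≤ C := (norm_nonneg _).trans (hC w)
        rw [← Real.mul_rpow h0 (norm_nonneg _)]
        exact Real.rpow_le_rpow (norm_nonneg _) ((T w).le_of_opNorm_le (hC w) _) (by norm_num)⟩
      map_add' := fun ξ η => by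
        ext w
        exact map_add (T w) _ _
      map_smul' := fun c ξ => by
        ext w
        exact map_smul (T w) _ _ } C (by
    intro ξ
    have h0 : 0 ≤ C := (norm_nonneg _).trans (hC [])
    refine lp.norm_le_of_tsum_le two_pos' (by positivity) ?_
    rw [Real.mul_rpow h0 (norm_nonneg _), lp.norm_rpow_eq_tsum two_pos' ξ, ← tsum_mul_left]
    refine Summable.tsum_le_tsum (fun w => ?_) ?_ ((summ ξ).mul_left _)
    · rw [← Real.mul_rpow h0 (norm_nonneg _)]
      exact Real.rpow_le_rpow (norm_nonneg _) ((T w).le_of_opNorm_le (hC w) _) (by norm_num)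
    · refine Summable.of_nonneg_of_le (fun w => by positivity) (fun w => ?_)
          ((summ ξ).mul_left (C ^ (2 : ENNReal).toReal))
      rw [← Real.mul_rpow h0 (norm_nonneg _)]
      exact Real.rpow_le_rpow (norm_nonneg _) ((T w).le_of_opNorm_le (hC w) _) (by norm_num))

theorem Dop_apply (T : Wd → (H →L[ℂ] H)) (C : ℝ) (hC : ∀ w, ‖T w‖ ≤ C) (ξ : FK H) (w : Wd) :
    Dop T C hC ξ w = T w (ξ w) := rfl

variable {A : Type} [CStarAlgebra A]

/-- iterated endomorphism along a word: `α_(i::μ) = α_μ ∘ α_i` -/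
noncomputable def aw (α : Fin 2 → (A →⋆ₐ[ℂ] A)) : Wd → (A →⋆ₐ[ℂ] A)
  | [] => StarAlgHom.id ℂ A
  | i :: w => (aw α w).comp (α i)

theorem rep_bound (ρ : A →⋆ₐ[ℂ] (H →L[ℂ] H)) (α : Fin 2 → (A →⋆ₐ[ℂ] A)) (a : A) (w : Wd) :
    ‖ρ (aw α w a)‖ ≤ ‖a‖ :=
  (NonUnitalStarAlgHom.norm_apply_le ρ _).trans (NonUnitalStarAlgHom.norm_apply_le (aw α w) _)

/-- the Fock representation of `A` -/
noncomputable def Pi' (ρ : A →⋆ₐ[ℂ] (H →L[ℂ] H)) (α : Fin 2 → (A →⋆ₐ[ℂ] A)) :
    A →⋆ₐ[ℂ] (FK H →L[ℂ] FK H) where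
  toFun a := Dop (fun w => ρ (aw α w a)) ‖a‖ (rep_bound ρ α a)
  map_one' := by
    ext ξ w
    rw [Dop_apply]; simp
  map_mul' a b := by
    ext ξ w
    rw [Dop_apply]
    simp only [map_mul, ContinuousLinearMap.mul_apply]
    rfl
  map_zero' := by
    ext ξ w
    rw [Dop_apply]; simp
  map_add' a b := by
    ext ξ w
    rw [Dop_apply]
    simp only [map_add, ContinuousLinearMap.add_apply]
    rfl
  commutes' c := by
    ext ξ w
    rw [Dop_apply]
    simp only [AlgHomClass.commutes]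
    rfl
  map_star' a := by
    rw [ContinuousLinearMap.star_eq_adjoint]
    refine (ContinuousLinearMap.eq_adjoint_iff _ _).2 fun ξ η => ?_
    rw [lp.inner_eq_tsum, lp.inner_eq_tsum]
    refine tsum_congr fun w => ?_
    rw [Dop_apply, Dop_apply, map_star, map_star, ContinuousLinearMap.star_eq_adjoint,
      ContinuousLinearMap.adjoint_inner_left]

theorem Pi'_apply (ρ : A →⋆ₐ[ℂ] (H →L[ℂ] H)) (α : Fin 2 → (A →⋆ₐ[ℂ] A)) (a : A) (ξ : FK H)
    (w : Wd) : Pi' ρ α a ξ w = ρ (aw α w a) (ξ w) := rfl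

theorem Pi'_mul_Uop (ρ : A →⋆ₐ[ℂ] (H →L[ℂ] H)) (α : Fin 2 → (A →⋆ₐ[ℂ] A)) (a : A) (i : Fin 2) :
    Pi' ρ α a * Uop i = Uop i * Pi' ρ α (α i a) := by
  ext ξ w
  rw [ContinuousLinearMap.mul_apply, ContinuousLinearMap.mul_apply, Pi'_apply]
  cases w with
  | nil => rw [Uop_nil, Uop_nil, map_zero]
  | cons j w =>
    by_cases hij : i = j
    · subst hij
      rw [Uop_cons, Uop_cons, Pi'_apply]
      rfl
    · rw [Uop_cons_ne i j hij, Uop_cons_ne i j hij, map_zero]

theorem Pv_comp_Pi' (ρ : A →⋆ₐ[ℂ] (H →L[ℂ] H)) (α : Fin 2 → (A →⋆ₐ[ℂ] A)) (a : A) :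
    Pv.comp (Pi' ρ α a) = (ρ a).comp Pv := by
  ext ξ
  rfl

theorem Pi'_comp_Jv (ρ : A →⋆ₐ[ℂ] (H →L[ℂ] H)) (α : Fin 2 → (A →⋆ₐ[ℂ] A)) (a : A) :
    (Pi' ρ α a).comp Jv = Jv.comp (ρ a) := by
  have h := congrArg ContinuousLinearMap.adjoint (Pv_comp_Pi' ρ α (star a))
  rw [ContinuousLinearMap.adjoint_comp, ContinuousLinearMap.adjoint_comp, map_star (Pi' ρ α),
    map_star ρ, ContinuousLinearMap.star_eq_adjoint, ContinuousLinearMap.star_eq_adjoint,
    ContinuousLinearMap.adjoint_adjoint, ContinuousLinearMap.adjoint_adjoint] at h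
  exact h

end

end Pool.Agent.V1190.CI
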