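import Mathlib
import Pool.Agent.V1190.CI.Fock

/-!
The tensor algebra on Fock space: coefficients.
-/

namespace Pool.Agent.V1190.CI

open scoped InnerProductSpace

section MonAlg

variable {A : Type} [CStarAlgebra A] {C : Type} [NormedRing C] [NormedAlgebra ℂ C]

/-- linear span of monomials -/
noncomputable def MonSub (ι : A →ₐ[ℂ] C) (s : Fin 2 → C) : Submodule ℂ C :=
  Submodule.span ℂ {x | ∃ (w : Wd) (a : A), x = (w.map s).prod * ι a}

theorem comm_prod (ι : A →ₐ[ℂ] C) (s : Fin 2 → C) (α : Fin 2 → (A →⋆ₐ[ℂ] A))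
    (h : ∀ i a, ι a * s i = s i * ι (α i a)) (w : Wd) (a : A) :
    ι a * (w.map s).prod = (w.map s).prod * ι (aw α w a) := by
  induction w generalizing a with
  | nil => simp [aw]
  | cons i w ih =>
    rw [List.map_cons, List.prod_cons, ← mul_assoc, h, mul_assoc, ih, mul_assoc]
    rfl

theorem mon_mem (ι : A →ₐ[ℂ] C) (s : Fin 2 → C) (w : Wd) (a : A) :
    (w.map s).prod * ι a ∈ MonSub ι s := Submodule.subset_span ⟨w, a, rfl⟩

theorem one_mem_MonSub (ι : A →ₐ[ℂ] C) (s : Fin 2 → C) : (1 : C) ∈ MonSub ι s := by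
  have := mon_mem ι s [] 1
  simpa using this

theorem MonSub_mul (ι : A →ₐ[ℂ] C) (s : Fin 2 → C) (α : Fin 2 → (A →⋆ₐ[ℂ] A))
    (h : ∀ i a, ι a * s i = s i * ι (α i a)) (x y : C) (hx : x ∈ MonSub ι s)
    (hy : y ∈ MonSub ι s) : x * y ∈ MonSub ι s := by
  have key := Submodule.mul_mem_mul hx hy
  rw [MonSub, Submodule.span_mul_span] at key
  refine Submodule.span_mono ?_ key
  rintro z hz
  obtain ⟨x', ⟨w, a, rfl⟩, y', ⟨v, b, rfl⟩, rfl⟩ := Set.mem_mul.1 hz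
  refine ⟨w ++ v, aw α v a * b, ?_⟩
  rw [List.map_append, List.prod_append, map_mul, mul_assoc, ← mul_assoc (ι a),
    comm_prod ι s α h]
  simp only [mul_assoc]

/-- the algebra of noncommutative polynomials -/
noncomputable def MonAlg (ι : A →ₐ[ℂ] C) (s : Fin 2 → C) (α : Fin 2 → (A →⋆ₐ[ℂ] A))
    (h : ∀ i a, ι a * s i = s i * ι (α i a)) : Subalgebra ℂ C :=
  (MonSub ι s).toSubalgebra (one_mem_MonSub ι s) (MonSub_mul ι s α h)

/-- its closure -/
noncomputable def ClAlg (ι : A →ₐ[ℂ] C) (s : Fin 2 → C) (α : Fin 2 → (A →⋆ₐ[ℂ] A))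
    (h : ∀ i a, ι a * s i = s i * ι (α i a)) : Subalgebra ℂ C :=
  (MonAlg ι s α h).topologicalClosure

theorem mon_mem_Cl (ι : A →ₐ[ℂ] C) (s : Fin 2 → C) (α : Fin 2 → (A →⋆ₐ[ℂ] A))
    (h : ∀ i a, ι a * s i = s i * ι (α i a)) (w : Wd) (a : A) :
    (w.map s).prod * ι a ∈ ClAlg ι s α h :=
  subset_closure (mon_mem ι s w a)

theorem isClosed_Cl (ι : A →ₐ[ℂ] C) (s : Fin 2 → C) (α : Fin 2 → (A →⋆ₐ[ℂ] A))
    (h : ∀ i a, ι a * s i = s i * ι (α i a)) : IsClosed (ClAlg ι s α h : Set C) :=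
  isClosed_closure

theorem Cl_mem (ι : A →ₐ[ℂ] C) (s : Fin 2 → C) (α : Fin 2 → (A →⋆ₐ[ℂ] A))
    (h : ∀ i a, ι a * s i = s i * ι (α i a)) {E : Type} [NormedAddCommGroup E] [NormedSpace ℂ E]
    (f : C →L[ℂ] E) (N : Submodule ℂ E) (hN : IsClosed (N : Set E))
    (hf : ∀ (w : Wd) (a : A), f ((w.map s).prod * ι a) ∈ N) (x : C) (hx : x ∈ ClAlg ι s α h) : f x ∈ N := by
  have h1 : MonSub ι s ≤ N.comap (f : C →ₗ[ℂ] E) := by
    rw [MonSub, Submodule.span_le]
    rintro y ⟨w, a, rfl⟩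
    exact hf w a
  have h2 : closure (MonSub ι s : Set C) ⊆ f ⁻¹' (N : Set E) :=
    closure_minimal h1 (hN.preimage f.continuous)
  exact h2 hx

theorem Cl_eq (ι : A →ₐ[ℂ] C) (s : Fin 2 → C) (α : Fin 2 → (A →⋆ₐ[ℂ] A))
    (h : ∀ i a, ι a * s i = s i * ι (α i a)) {E : Type} [NormedAddCommGroup E] [NormedSpace ℂ E]
    (f g : C →L[ℂ] E)
    (hf : ∀ (w : Wd) (a : A), f ((w.map s).prod * ι a) = g ((w.map s).prod * ι a)) (x : C)
    (hx : x ∈ ClAlg ι s α h) : f x = g x := by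
  have := Cl_mem ι s α h (f - g) ⊥ (by simp) (by
    intro w a
    simp [hf]) x hx
  rw [Submodule.mem_bot] at this
  exact sub_eq_zero.1 this

end MonAlg

section

variable {H : Type} [NormedAddCommGroup H] [InnerProductSpace ℂ H] [CompleteSpace H]

/-- product of creation operators along a word -/
noncomputable def UW (w : Wd) : FK H →L[ℂ] FK H := (w.map Uop).prod

theorem UW_nil : (UW [] : FK H →L[ℂ] FK H) = 1 := rfl

theorem UW_cons (i : Fin 2) (w : Wd) : (UW (i :: w) : FK H →L[ℂ] FK H) = Uop i * UW w := by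
  simp [UW]

theorem UW_append (v w : Wd) : (UW (v ++ w) : FK H →L[ℂ] FK H) = UW v * UW w := by
  simp [UW]

/-- the functional `P S_w^*` -/
noncomputable def Q (w : Wd) : FK H →L[ℂ] H := Pv.comp (star (UW w))

theorem Q_cons (i : Fin 2) (w : Wd) : (Q (i :: w) : FK H →L[ℂ] H) = (Q w).comp (Cop i) := by
  rw [Q, UW_cons, star_mul, star_Uop, Q]
  rfl

theorem Q_apply (w : Wd) (k : FK H) : Q w k = k w := by
  induction w generalizing k with
  | nil => rw [Q, UW_nil, star_one]; rfl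
  | cons i w ih => rw [Q_cons, ContinuousLinearMap.comp_apply, ih, Cop_apply]

theorem Q_UW_Jv (w v : Wd) (h : H) : Q w (UW v (Jv h)) = if w = v then h else 0 := by
  induction v generalizing w with
  | nil =>
    cases w with
    | nil => rw [Q_apply, UW_nil]; simpa using Jv_nil h
    | cons i w =>
      rw [Q_cons, ContinuousLinearMap.comp_apply, UW_nil, ContinuousLinearMap.one_apply]
      have := congrArg (fun f => f h) (Cop_comp_Jv (H := H) i)
      simp only [ContinuousLinearMap.comp_apply] at this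
      rw [this]
      simp
  | cons j v ih =>
    cases w with
    | nil =>
      rw [Q_apply, UW_cons, ContinuousLinearMap.mul_apply, Uop_nil]
      simp
    | cons i w =>
      rw [Q_apply, UW_cons, ContinuousLinearMap.mul_apply]
      by_cases hij : j = i
      · subst hij
        rw [Uop_cons, ← Q_apply, ih]
        simp
      · rw [Uop_cons_ne j i hij]
        simp [Ne.symm hij]

/-- coefficients -/
noncomputable def cf (w : Wd) : (FK H →L[ℂ] FK H) →L[ℂ] (H →L[ℂ] H) :=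
  ((ContinuousLinearMap.compL ℂ H (FK H) H) (Q w)).comp
    ((ContinuousLinearMap.compL ℂ H (FK H) (FK H)).flip Jv)

theorem cf_apply (w : Wd) (x : FK H →L[ℂ] FK H) (h : H) : cf w x h = Q w (x (Jv h)) := rfl

variable {A : Type} [CStarAlgebra A] (ρ : A →⋆ₐ[ℂ] (H →L[ℂ] H)) (α : Fin 2 → (A →⋆ₐ[ℂ] A))

theorem Pi'_Jv (a : A) (h : H) : Pi' ρ α a (Jv h) = Jv (ρ a h) := by
  have := congrArg (fun f => f h) (Pi'_comp_Jv ρ α a)
  exact this

theorem cf_mon (w v : Wd) (a : A) : cf w (UW v * Pi' ρ α a) = if w = v then ρ a else 0 := by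
  ext h
  rw [cf_apply, ContinuousLinearMap.mul_apply, Pi'_Jv, Q_UW_Jv]
  split_ifs <;> rfl

theorem hcov (i : Fin 2) (a : A) :
    (Pi' ρ α).toAlgHom a * Uop i = Uop i * (Pi' ρ α).toAlgHom (α i a) :=
  Pi'_mul_Uop ρ α a i

/-- the tensor algebra -/
noncomputable def TA : Subalgebra ℂ (FK H →L[ℂ] FK H) :=
  ClAlg (Pi' ρ α).toAlgHom Uop α (hcov ρ α)

theorem TA_closed : IsClosed (TA ρ α : Set (FK H →L[ℂ] FK H)) := isClosed_Cl _ _ _ _

theorem UWPi_mem (w : Wd) (a : A) : UW w * Pi' ρ α a ∈ TA ρ α :=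
  mon_mem_Cl (Pi' ρ α).toAlgHom Uop α (hcov ρ α) w a

theorem Pi_mem (a : A) : Pi' ρ α a ∈ TA ρ α := by
  have := UWPi_mem ρ α [] a
  rwa [UW_nil, one_mul] at this

theorem UW_mem (w : Wd) : UW w ∈ TA ρ α := by
  have := UWPi_mem ρ α w 1
  rwa [map_one, mul_one] at this

theorem U_mem (i : Fin 2) : Uop i ∈ TA ρ α := by
  have := UW_mem ρ α [i]
  rwa [UW_cons, UW_nil, mul_one] at this

theorem TA_mem {E : Type} [NormedAddCommGroup E] [NormedSpace ℂ E]
    (f : (FK H →L[ℂ] FK H) →L[ℂ] E) (N : Submodule ℂ E) (hN : IsClosed (N : Set E))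
    (hf : ∀ w a, f (UW w * Pi' ρ α a) ∈ N) (x) (hx : x ∈ TA ρ α) : f x ∈ N :=
  Cl_mem _ _ _ _ f N hN hf x hx

theorem TA_eq {E : Type} [NormedAddCommGroup E] [NormedSpace ℂ E]
    (f g : (FK H →L[ℂ] FK H) →L[ℂ] E)
    (hf : ∀ w a, f (UW w * Pi' ρ α a) = g (UW w * Pi' ρ α a)) (x) (hx : x ∈ TA ρ α) : f x = g x :=
  Cl_eq _ _ _ _ f g hf x hx

end

end Pool.Agent.V1190.CI
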