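import Mathlib
import Pool.Agent.V1190.CI.Tens

/-!
Coefficients of elements of the tensor algebra.
-/

namespace Pool.Agent.V1190.CI

open scoped InnerProductSpace

variable {H : Type} [NormedAddCommGroup H] [InnerProductSpace ℂ H] [CompleteSpace H]
variable {A : Type} [CStarAlgebra A] (ρ : A →⋆ₐ[ℂ] (H →L[ℂ] H)) (α : Fin 2 → (A →⋆ₐ[ℂ] A))

theorem Jv_inner (v : H) (y : FK H) : ⟪(Jv v : FK H), y⟫_ℂ = ⟪v, Pv y⟫_ℂ := by
  rw [Jv, ContinuousLinearMap.adjoint_inner_left]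

theorem Jv_inner_right (v : H) (y : FK H) : ⟪y, (Jv v : FK H)⟫_ℂ = ⟪Pv y, v⟫_ℂ := by
  rw [Jv, ContinuousLinearMap.adjoint_inner_right]

theorem Q_inner (v : H) (w : Wd) (y : FK H) : ⟪v, Q w y⟫_ℂ = ⟪UW w (Jv v), y⟫_ℂ := by
  rw [Q, ContinuousLinearMap.comp_apply, ← Jv_inner, ContinuousLinearMap.star_eq_adjoint,
    ContinuousLinearMap.adjoint_inner_right]

theorem cf_nil_apply (x : FK H →L[ℂ] FK H) (k : H) : cf [] x k = x (Jv k) [] := by
  rw [cf_apply, Q_apply]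

/-- the range of `ρ` -/
noncomputable def RR : Submodule ℂ (H →L[ℂ] H) := LinearMap.range (ρ.toAlgHom.toLinearMap)

theorem mem_RR {x : H →L[ℂ] H} : x ∈ RR ρ ↔ ∃ a, ρ a = x := Iff.rfl

theorem RR_closed (hρ : Function.Injective ρ) : IsClosed (RR ρ : Set (H →L[ℂ] H)) :=
  (NonUnitalStarAlgHom.isometry ρ hρ).isClosedEmbedding.isClosed_range

theorem cf_mem (hρ : Function.Injective ρ) (w : Wd) (x : FK H →L[ℂ] FK H) (hx : x ∈ TA ρ α) :
    cf w x ∈ RR ρ := by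
  refine TA_mem ρ α (cf w) (RR ρ) (RR_closed ρ hρ) (fun v a => ?_) x hx
  rw [cf_mon]
  split_ifs
  · exact ⟨a, rfl⟩
  · exact (RR ρ).zero_mem

theorem row (x : FK H →L[ℂ] FK H) (hx : x ∈ TA ρ α) : Pv.comp x = (cf [] x).comp Pv := by
  have := TA_eq ρ α (ContinuousLinearMap.compL ℂ (FK H) (FK H) H Pv)
    (((ContinuousLinearMap.compL ℂ (FK H) H H).flip Pv).comp (cf [])) (fun w a => ?_) x hx
  · exact this
  · show Pv.comp (UW w * Pi' ρ α a) = (cf [] (UW w * Pi' ρ α a)).comp Pv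
    rw [cf_mon]
    cases w with
    | nil =>
      rw [UW_nil, one_mul, if_pos rfl]
      exact Pv_comp_Pi' ρ α a
    | cons i w =>
      rw [if_neg (by simp), UW_cons]
      have : Pv.comp (Uop i * UW w * Pi' ρ α a) = (Pv.comp (Uop i)).comp (UW w * Pi' ρ α a) := by
        rw [mul_assoc]; rfl
      rw [this, Pv_comp_Uop]
      rfl

theorem UWPi_U (v : Wd) (a : A) (i : Fin 2) :
    UW v * Pi' ρ α a * Uop i = UW (v ++ [i]) * Pi' ρ α (α i a) := by
  rw [mul_assoc, Pi'_mul_Uop, UW_append, UW_cons, UW_nil, mul_one]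
  simp only [mul_assoc]

/-- right multiplication as a continuous linear map -/
noncomputable def rmul (y : FK H →L[ℂ] FK H) : (FK H →L[ℂ] FK H) →L[ℂ] (FK H →L[ℂ] FK H) :=
  (ContinuousLinearMap.mul ℂ (FK H →L[ℂ] FK H)).flip y

theorem rmul_apply (y x : FK H →L[ℂ] FK H) : rmul y x = x * y := rfl

theorem cf_mulU (w : Wd) (i : Fin 2) (x : FK H →L[ℂ] FK H)
    (hx : x ∈ MonSub (Pi' ρ α).toAlgHom Uop) :
    ∃ a, ρ a = cf w x ∧ ρ (α i a) = cf (w ++ [i]) (x * Uop i) := by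
  rw [MonSub] at hx
  induction hx using Submodule.span_induction with
  | mem y hy =>
    obtain ⟨v, a, rfl⟩ := hy
    show ∃ a', ρ a' = cf w (UW v * Pi' ρ α a) ∧
      ρ (α i a') = cf (w ++ [i]) (UW v * Pi' ρ α a * Uop i)
    rw [UWPi_U, cf_mon, cf_mon]
    by_cases h : w = v
    · subst h
      rw [if_pos rfl, if_pos rfl]
      exact ⟨a, rfl, rfl⟩
    · rw [if_neg h, if_neg (by simpa using h)]
      exact ⟨0, map_zero ρ, by rw [map_zero, map_zero]⟩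
  | zero => exact ⟨0, by rw [map_zero, map_zero], by rw [zero_mul, map_zero, map_zero, map_zero]⟩
  | add y z _ _ hy hz =>
    obtain ⟨a, ha1, ha2⟩ := hy
    obtain ⟨b, hb1, hb2⟩ := hz
    exact ⟨a + b, by rw [map_add, ha1, hb1, map_add], by
      rw [map_add, map_add, ha2, hb2, add_mul, map_add]⟩
  | smul c y _ hy =>
    obtain ⟨a, ha1, ha2⟩ := hy
    exact ⟨c • a, by rw [map_smul, ha1, map_smul], by
      rw [map_smul, map_smul, ha2, smul_mul_assoc, map_smul]⟩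

theorem cont_aux (w : Wd) (y : FK H →L[ℂ] FK H) :
    Continuous fun x : FK H →L[ℂ] FK H => ‖cf w (x * y)‖ :=
  ((cf w).continuous.comp (continuous_id.mul continuous_const)).norm

theorem norm_cf_mulU (hρ : Function.Injective ρ) (w : Wd) (i : Fin 2) (x : FK H →L[ℂ] FK H)
    (hx : x ∈ TA ρ α) : ‖cf (w ++ [i]) (x * Uop i)‖ ≤ ‖cf w x‖ := by
  have hcl : IsClosed {x : FK H →L[ℂ] FK H | ‖cf (w ++ [i]) (x * Uop i)‖ ≤ ‖cf w x‖} := by
    exact isClosed_le (cont_aux (w ++ [i]) (Uop i)) (cf w).continuous.norm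
  refine closure_minimal (fun y hy => ?_) hcl hx
  obtain ⟨a, ha1, ha2⟩ := cf_mulU ρ α w i y hy
  show ‖cf (w ++ [i]) (y * Uop i)‖ ≤ ‖cf w y‖
  rw [← ha1, ← ha2, NonUnitalStarAlgHom.norm_map ρ hρ, NonUnitalStarAlgHom.norm_map ρ hρ]
  exact NonUnitalStarAlgHom.norm_apply_le (α i) a

theorem norm_cf_mulU' (hρ : Function.Injective ρ) (w : Wd) (i : Fin 2)
    (hi : Function.Injective (α i)) (x : FK H →L[ℂ] FK H)
    (hx : x ∈ TA ρ α) : ‖cf w x‖ ≤ ‖cf (w ++ [i]) (x * Uop i)‖ := by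
  have hcl : IsClosed {x : FK H →L[ℂ] FK H | ‖cf w x‖ ≤ ‖cf (w ++ [i]) (x * Uop i)‖} := by
    exact isClosed_le (cf w).continuous.norm (cont_aux (w ++ [i]) (Uop i))
  refine closure_minimal (fun y hy => ?_) hcl hx
  obtain ⟨a, ha1, ha2⟩ := cf_mulU ρ α w i y hy
  show ‖cf w y‖ ≤ ‖cf (w ++ [i]) (y * Uop i)‖
  rw [← ha1, ← ha2, NonUnitalStarAlgHom.norm_map ρ hρ, NonUnitalStarAlgHom.norm_map ρ hρ,
    NonUnitalStarAlgHom.norm_map (α i) hi]

theorem cf_mulU_ne (w : Wd) (i : Fin 2) (hw : ∀ v, w ≠ v ++ [i]) (x : FK H →L[ℂ] FK H)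
    (hx : x ∈ TA ρ α) : cf w (x * Uop i) = 0 := by
  have := TA_eq ρ α ((cf w).comp (rmul (Uop i))) 0 (fun v a => ?_) x hx
  · rw [ContinuousLinearMap.comp_apply, rmul_apply] at this
    rw [this]; rfl
  · rw [ContinuousLinearMap.comp_apply, rmul_apply, UWPi_U, cf_mon, if_neg (hw v)]
    rfl

theorem cf_mulU_zero (hρ : Function.Injective ρ) (i : Fin 2) (x : FK H →L[ℂ] FK H)
    (hx : x ∈ TA ρ α) (h : ∀ w, cf w x = 0) (w : Wd) : cf w (x * Uop i) = 0 := by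
  by_cases hw : ∃ v, w = v ++ [i]
  · obtain ⟨v, rfl⟩ := hw
    have := norm_cf_mulU ρ α hρ v i x hx
    rw [h v, norm_zero] at this
    exact norm_le_zero_iff.1 this
  · exact cf_mulU_ne ρ α w i (fun v hv => hw ⟨v, hv⟩) x hx

theorem cf_mulUW_zero (hρ : Function.Injective ρ) (v : Wd) (x : FK H →L[ℂ] FK H)
    (hx : x ∈ TA ρ α) (h : ∀ w, cf w x = 0) : ∀ w, cf w (x * UW v) = 0 := by
  induction v generalizing x with
  | nil => intro w; rw [UW_nil, mul_one]; exact h w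
  | cons i v ih =>
    intro w
    rw [UW_cons, ← mul_assoc]
    exact ih (x * Uop i) ((TA ρ α).mul_mem hx (U_mem ρ α i))
      (cf_mulU_zero ρ α hρ i x hx h) w

theorem eq_zero_of_cf (hρ : Function.Injective ρ) (x : FK H →L[ℂ] FK H)
    (hx : x ∈ TA ρ α) (h : ∀ w, cf w x = 0) : x = 0 := by
  have h1 : ∀ (v : Wd) (k : H), x (UW v (Jv k)) = 0 := by
    intro v k
    ext w
    have := congrArg (fun f => f k) (cf_mulUW_zero ρ α hρ v x hx h w)
    rw [← Q_apply]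
    exact this
  have h2 : star x = 0 := by
    ext k w
    rw [← Q_apply]
    show Q w (star x k) = 0
    refine ext_inner_left ℂ fun v => ?_
    rw [inner_zero_right]
    have h3 : ⟪v, Q w (star x k)⟫_ℂ = ⟪x (UW w (Jv v)), k⟫_ℂ := by
      rw [Q_inner, ContinuousLinearMap.star_eq_adjoint, ContinuousLinearMap.adjoint_inner_right]
    rw [h3, h1, inner_zero_left]
  simpa using congrArg star h2

/-- the diagonal of the tensor algebra is the image of `A` -/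
theorem diagT (hρ : Function.Injective ρ) (x : FK H →L[ℂ] FK H) (hx : x ∈ TA ρ α)
    (hx' : star x ∈ TA ρ α) : ∃ a, x = Pi' ρ α a := by
  obtain ⟨a, ha⟩ := cf_mem ρ α hρ [] x hx
  refine ⟨a, ?_⟩
  rw [← sub_eq_zero]
  refine eq_zero_of_cf ρ α hρ _ ((TA ρ α).sub_mem hx (Pi_mem ρ α a)) fun w => ?_
  rw [map_sub]
  have h0 := cf_mon ρ α w [] a
  rw [UW_nil, one_mul] at h0
  rw [h0]
  cases w with
  | nil =>
    rw [if_pos rfl]
    exact sub_eq_zero.2 ha.symm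
  | cons i w =>
    rw [if_neg (by simp), sub_zero]
    ext k
    rw [cf_apply]
    refine ext_inner_left ℂ fun v => ?_
    have hr := congrArg (fun f => f (UW (i :: w) (Jv v))) (row ρ α (star x) hx')
    simp only [ContinuousLinearMap.comp_apply] at hr
    have h4 : (Pv : FK H →L[ℂ] H) (UW (i :: w) (Jv v)) = 0 := by
      rw [Pv_apply, UW_cons, ContinuousLinearMap.mul_apply, Uop_nil]
    rw [h4, map_zero] at hr
    have h3 : ⟪v, Q (i :: w) (x (Jv k))⟫_ℂ = ⟪(Pv : FK H →L[ℂ] H) (star x (UW (i :: w) (Jv v))), k⟫_ℂ := by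
      rw [Q_inner, ← Jv_inner_right, ContinuousLinearMap.star_eq_adjoint,
        ContinuousLinearMap.adjoint_inner_left]
    rw [h3, hr, inner_zero_left]
    simp

/-- no creation operator is a right divisor of zero when the endomorphisms are injective -/
theorem mulU_eq_zero (hρ : Function.Injective ρ) (i : Fin 2) (hi : Function.Injective (α i))
    (x : FK H →L[ℂ] FK H) (hx : x ∈ TA ρ α) (h : x * Uop i = 0) : x = 0 := by
  refine eq_zero_of_cf ρ α hρ x hx fun w => ?_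
  have := norm_cf_mulU' ρ α hρ w i hi x hx
  rw [h, map_zero, norm_zero] at this
  exact norm_le_zero_iff.1 this

theorem cf_nil_mul (x y : FK H →L[ℂ] FK H) (hx : x ∈ TA ρ α) :
    cf [] (x * y) = cf [] x * cf [] y := by
  have hr := row ρ α x hx
  ext k
  have := congrArg (fun f => f (y (Jv k))) hr
  rw [ContinuousLinearMap.mul_apply, cf_nil_apply, cf_nil_apply y]
  exact this

theorem cf_nil_one : cf [] (1 : FK H →L[ℂ] FK H) = 1 := by
  ext k
  rw [cf_nil_apply]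
  exact Jv_nil k

theorem cf_nil_Pi (a : A) : cf [] (Pi' ρ α a) = ρ a := by
  have h0 := cf_mon ρ α [] [] a
  rwa [UW_nil, one_mul, if_pos rfl] at h0

theorem norm_cf_nil (x : FK H →L[ℂ] FK H) : ‖cf [] x‖ ≤ ‖x‖ := by
  refine ContinuousLinearMap.opNorm_le_bound _ (norm_nonneg _) fun k => ?_
  have h1 : ‖(Pv : FK H →L[ℂ] H) (x (Jv k))‖ ≤ ‖x (Jv k)‖ :=
    lp.norm_apply_le_norm (by norm_num) _ _
  have h2 : ‖(Jv k : FK H)‖ ≤ ‖k‖ := by
    have h3 : ‖(Jv k : FK H)‖ ^ 2 = ‖k‖ ^ 2 := by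
      have e1 : ⟪(Jv k : FK H), Jv k⟫_ℂ = ⟪k, k⟫_ℂ := by
        conv_lhs => rw [Jv]
        rw [ContinuousLinearMap.adjoint_inner_left]
        show ⟪k, Pv (Jv k)⟫_ℂ = _
        rw [Pv_apply, Jv_nil]
      rw [inner_self_eq_norm_sq_to_K, inner_self_eq_norm_sq_to_K] at e1
      exact_mod_cast e1
    exact le_of_eq ((sq_eq_sq₀ (norm_nonneg _) (norm_nonneg _)).1 h3)
  calc ‖cf [] x k‖ = ‖(Pv : FK H →L[ℂ] H) (x (Jv k))‖ := by
        rw [cf_apply, Q, UW_nil, star_one]; rfl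
    _ ≤ ‖x (Jv k)‖ := h1
    _ ≤ ‖x‖ * ‖(Jv k : FK H)‖ := x.le_opNorm _
    _ ≤ ‖x‖ * ‖k‖ := by gcongr

end Pool.Agent.V1190.CI
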