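import Mathlib
import Pool.Agent.V1190.CI.Coef

/-!
Gluing two tensor algebras.
-/

namespace Pool.Agent.V1190.CI

open scoped InnerProductSpace

section Rf

variable {B : Type} [CStarAlgebra B]

/-- similarity image of `diag(x, y)` -/
def Rf (V1 V2 x y : B) : B := V1 * x * star V1 + V1 * (x - y) * star V2 + V2 * y * star V2

/-- a pair of isometries with complementary ranges -/
def Cuntz (V1 V2 : B) : Prop :=
  star V1 * V1 = 1 ∧ star V2 * V2 = 1 ∧ star V1 * V2 = 0 ∧ star V2 * V1 = 0 ∧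
    V1 * star V1 + V2 * star V2 = 1

theorem Rf_mul {V1 V2 : B} (h : Cuntz V1 V2) (x y x' y' : B) :
    Rf V1 V2 x y * Rf V1 V2 x' y' = Rf V1 V2 (x * x') (y * y') := by
  obtain ⟨h11, h22, h12, h21, -⟩ := h
  have e11 : ∀ z, star V1 * (V1 * z) = z := fun z => by rw [← mul_assoc, h11, one_mul]
  have e22 : ∀ z, star V2 * (V2 * z) = z := fun z => by rw [← mul_assoc, h22, one_mul]
  have e12 : ∀ z, star V1 * (V2 * z) = 0 := fun z => by rw [← mul_assoc, h12, zero_mul]
  have e21 : ∀ z, star V2 * (V1 * z) = 0 := fun z => by rw [← mul_assoc, h21, zero_mul]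
  simp only [Rf, mul_add, add_mul, mul_assoc, e11, e22, e12, e21, mul_zero, add_zero, zero_add,
    mul_sub, sub_mul]
  abel

theorem Rf_one {V1 V2 : B} (h : Cuntz V1 V2) : Rf V1 V2 1 1 = 1 := by
  rw [Rf, sub_self, mul_zero, zero_mul, add_zero, mul_one, mul_one]
  exact h.2.2.2.2

theorem Rf_add (V1 V2 x y x' y' : B) :
    Rf V1 V2 (x + x') (y + y') = Rf V1 V2 x y + Rf V1 V2 x' y' := by
  simp only [Rf, mul_add, add_mul, mul_sub, sub_mul]
  abel

theorem Rf_smul (V1 V2 x y : B) (c : ℂ) :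
    Rf V1 V2 (c • x) (c • y) = c • Rf V1 V2 x y := by
  simp only [Rf, ← smul_sub, mul_smul_comm, smul_mul_assoc, smul_add]

theorem Rf_star (V1 V2 x : B) : star (Rf V1 V2 x x) = Rf V1 V2 (star x) (star x) := by
  simp only [Rf, sub_self, mul_zero, zero_mul, add_zero, star_add, star_mul, star_star, mul_assoc]

theorem Rf_diag {V1 V2 : B} (h : Cuntz V1 V2) (x y x' y' : B)
    (hs : star (Rf V1 V2 x y) = Rf V1 V2 x' y') : x' = y' := by
  obtain ⟨h11, h22, h12, h21, -⟩ := h
  have e11 : ∀ z, star V1 * (V1 * z) = z := fun z => by rw [← mul_assoc, h11, one_mul]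
  have e22 : ∀ z, star V2 * (V2 * z) = z := fun z => by rw [← mul_assoc, h22, one_mul]
  have e12 : ∀ z, star V1 * (V2 * z) = 0 := fun z => by rw [← mul_assoc, h12, zero_mul]
  have e21 : ∀ z, star V2 * (V1 * z) = 0 := fun z => by rw [← mul_assoc, h21, zero_mul]
  have k1 : star V1 * Rf V1 V2 x' y' * V2 = x' - y' := by
    simp only [Rf, mul_add, add_mul, mul_assoc, e11, e22, e12, e21, h11, h22, h12, h21, mul_zero,
      zero_mul, add_zero, zero_add, mul_one]
  have k2 : star V1 * star (Rf V1 V2 x y) * V2 = 0 := by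
    simp only [Rf, mul_add, add_mul, mul_assoc, star_add, star_mul, star_star, e11, e22, e12, e21,
      h11, h22, h12, h21, mul_zero, zero_mul, add_zero, zero_add, mul_one]
  rw [hs, k1] at k2
  exact sub_eq_zero.1 k2

theorem Rf_cont (V1 V2 : B) {X : Type} [TopologicalSpace X] {f g : X → B} (hf : Continuous f)
    (hg : Continuous g) : Continuous fun x => Rf V1 V2 (f x) (g x) := by
  unfold Rf
  fun_prop

end Rf

section Newton

variable {R : Type} [NormedRing R] [NormedAlgebra ℂ R]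

/-- Newton iteration for idempotents -/
noncomputable def gg (x : R) : R := (3 : ℂ) • (x * x) - (2 : ℂ) • (x * x * x)

theorem gg_le (u : R) (hu : ‖u‖ ≤ 1 / 8) : ‖gg u‖ ≤ 1 / 2 * ‖u‖ := by
  have h1 : ‖(3 : ℂ) • (u * u)‖ ≤ 3 * (‖u‖ * ‖u‖) := by
    rw [norm_smul]
    have : ‖(3 : ℂ)‖ = 3 := by simp
    rw [this]
    gcongr
    exact norm_mul_le _ _
  have h2 : ‖(2 : ℂ) • (u * u * u)‖ ≤ 2 * (‖u‖ * ‖u‖ * ‖u‖) := by
    rw [norm_smul]
    have : ‖(2 : ℂ)‖ = 2 := by simp
    rw [this]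
    gcongr
    exact (norm_mul_le _ _).trans (by gcongr; exact norm_mul_le _ _)
  have h3 := norm_sub_le ((3 : ℂ) • (u * u)) ((2 : ℂ) • (u * u * u))
  have h0 := norm_nonneg u
  rw [gg]
  nlinarith [mul_nonneg h0 h0, mul_nonneg (mul_nonneg h0 h0) h0]

theorem gg_iter_le (u : R) (hu : ‖u‖ ≤ 1 / 8) (n : ℕ) : ‖gg^[n] u‖ ≤ (1 / 2) ^ n * (1 / 8) := by
  induction n with
  | zero => simpa using hu
  | succ n ih =>
    rw [Function.iterate_succ', Function.comp_apply]
    have h1 : ‖gg^[n] u‖ ≤ 1 / 8 := ih.trans (by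
      have : (1 / 2 : ℝ) ^ n ≤ 1 := pow_le_one₀ (by norm_num) (by norm_num)
      linarith)
    have h2 := gg_le _ h1
    rw [pow_succ]
    linarith

theorem gg_tendsto (u : R) (hu : ‖u‖ ≤ 1 / 8) :
    Filter.Tendsto (fun n => gg^[n] u) Filter.atTop (nhds 0) := by
  refine squeeze_zero_norm (gg_iter_le u hu) ?_
  have := (tendsto_pow_atTop_nhds_zero_of_lt_one (r := (1 / 2 : ℝ)) (by norm_num)
    (by norm_num)).mul_const (1 / 8 : ℝ)
  simpa using this

theorem gg_one_sub (u : R) : gg (1 - u) = 1 - gg u := by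
  have e3 : ∀ x : R, (3 : ℂ) • x = x + x + x := fun x => by
    rw [show (3 : ℂ) = 1 + 1 + 1 by norm_num, add_smul, add_smul, one_smul]
  have e2 : ∀ x : R, (2 : ℂ) • x = x + x := fun x => by
    rw [show (2 : ℂ) = 1 + 1 by norm_num, add_smul, one_smul]
  rw [gg, gg, e3, e3, e2, e2]
  noncomm_ring

theorem gg_iter_one_sub (u : R) (n : ℕ) : gg^[n] (1 - u) = 1 - gg^[n] u := by
  induction n with
  | zero => rfl
  | succ n ih => rw [Function.iterate_succ', Function.comp_apply, ih, gg_one_sub,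
      Function.comp_apply]

theorem gg_tendsto_one (v : R) (hv : ‖1 - v‖ ≤ 1 / 8) :
    Filter.Tendsto (fun n => gg^[n] v) Filter.atTop (nhds 1) := by
  have h1 : (fun n => gg^[n] v) = fun n => 1 - gg^[n] (1 - v) := by
    funext n
    rw [← gg_iter_one_sub]
    simp
  rw [h1]
  simpa using (gg_tendsto (1 - v) hv).const_sub 1

theorem gg_mem (N : Subalgebra ℂ R) (x : R) (hx : x ∈ N) (n : ℕ) : gg^[n] x ∈ N := by
  induction n with
  | zero => exact hx
  | succ n ih =>
    rw [Function.iterate_succ', Function.comp_apply, gg]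
    exact N.sub_mem (N.smul_mem (N.mul_mem ih ih) _)
      (N.smul_mem (N.mul_mem (N.mul_mem ih ih) ih) _)

theorem gg_map {R' : Type} [NormedRing R'] [NormedAlgebra ℂ R'] (f : R →ₐ[ℂ] R') (x : R) (n : ℕ) :
    f (gg^[n] x) = gg^[n] (f x) := by
  induction n with
  | zero => rfl
  | succ n ih =>
    rw [Function.iterate_succ', Function.comp_apply, Function.iterate_succ',
      Function.comp_apply, ← ih, gg, gg]
    simp

end Newton

end Pool.Agent.V1190.CI
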