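import Mathlib
import Pool.Agent.V1190.CI.Glue
import Pool.Agent.V1190.CI.Defs

/-!
The glued algebra.
-/

namespace Pool.Agent.V1190.CI

open scoped InnerProductSpace

/-- operators on `H` -/
abbrev BH (H : Type) [NormedAddCommGroup H] [InnerProductSpace ℂ H] := H →L[ℂ] H

/-- operators on Fock space -/
abbrev BK (H : Type) [NormedAddCommGroup H] [InnerProductSpace ℂ H] := FK H →L[ℂ] FK H

/-- the ambient C*-algebra -/
abbrev CC (H : Type) [NormedAddCommGroup H] [InnerProductSpace ℂ H] :=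
  (BK H × BK H) × (BH H × BH H)

variable {H : Type} [NormedAddCommGroup H] [InnerProductSpace ℂ H] [CompleteSpace H]


/-- vacuum compression -/
noncomputable def c0 (x : BK H) : BH H := cf [] x

theorem c0_add (x y : BK H) : c0 (x + y) = c0 x + c0 y := map_add _ _ _

theorem c0_smul (c : ℂ) (x : BK H) : c0 (c • x) = c • c0 x := map_smul _ _ _

theorem c0_cont : Continuous (c0 : BK H → BH H) := (cf []).continuous

theorem c0_zero : c0 (0 : BK H) = 0 := map_zero _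

theorem c0_one : c0 (1 : BK H) = 1 := cf_nil_one

/-- embedding of pairs in the ambient algebra -/
noncomputable def Psi (V1 V2 : BH H) (x y : BK H) : CC H :=
  ((x, y), (Rf V1 V2 (c0 x) (c0 y), Rf V1 V2 (c0 y) (c0 x)))

theorem Psi_add (V1 V2 : BH H) (x y x' y' : BK H) :
    Psi V1 V2 (x + x') (y + y') = Psi V1 V2 x y + Psi V1 V2 x' y' := by
  simp only [Psi, c0_add, Rf_add, Prod.mk_add_mk]

theorem Psi_smul (V1 V2 : BH H) (x y : BK H) (c : ℂ) :
    Psi V1 V2 (c • x) (c • y) = c • Psi V1 V2 x y := by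
  simp only [Psi, c0_smul, Rf_smul, Prod.smul_mk]

theorem Psi_zero (V1 V2 : BH H) : Psi V1 V2 0 0 = 0 := by
  have := Psi_smul V1 V2 0 0 0
  simpa using this

theorem Psi_one {V1 V2 : BH H} (h : Cuntz V1 V2) : Psi V1 V2 1 1 = 1 := by
  rw [Psi, c0_one, Rf_one h]
  rfl

theorem Psi_cont (V1 V2 : BH H) {X : Type} [TopologicalSpace X] {f g : X → BK H}
    (hf : Continuous f) (hg : Continuous g) : Continuous fun x => Psi V1 V2 (f x) (g x) := by
  unfold Psi
  have h1 := c0_cont.comp hf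
  have h2 := c0_cont.comp hg
  exact (hf.prodMk hg).prodMk ((Rf_cont V1 V2 h1 h2).prodMk (Rf_cont V1 V2 h2 h1))

variable {A : Type} [CStarAlgebra A] (ρ : A →⋆ₐ[ℂ] (H →L[ℂ] H))
  (α β : Fin 2 → (A →⋆ₐ[ℂ] A))

theorem Psi_mul {V1 V2 : BH H} (h : Cuntz V1 V2) (x y x' y' : BK H) (hx : x ∈ TA ρ α)
    (hy : y ∈ TA ρ β) : Psi V1 V2 x y * Psi V1 V2 x' y' = Psi V1 V2 (x * x') (y * y') := by
  have e1 : c0 (x * x') = c0 x * c0 x' := cf_nil_mul ρ α x x' hx
  have e2 : c0 (y * y') = c0 y * c0 y' := cf_nil_mul ρ β y y' hy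
  simp only [Psi, Prod.mk_mul_mk, Rf_mul h, e1, e2]

/-- the glued algebra -/
noncomputable def GA {V1 V2 : BH H} (h : Cuntz V1 V2) : Subalgebra ℂ (CC H) where
  carrier := {z | z.1.1 ∈ TA ρ α ∧ z.1.2 ∈ TA ρ β ∧ z = Psi V1 V2 z.1.1 z.1.2}
  mul_mem' := by
    rintro z z' ⟨h1, h2, h3⟩ ⟨h1', h2', h3'⟩
    refine ⟨(TA ρ α).mul_mem h1 h1', (TA ρ β).mul_mem h2 h2', ?_⟩
    conv_lhs => rw [h3, h3', Psi_mul ρ α β h _ _ _ _ h1 h2]
    rfl
  one_mem' := ⟨(TA ρ α).one_mem, (TA ρ β).one_mem, (Psi_one h).symm⟩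
  add_mem' := by
    rintro z z' ⟨h1, h2, h3⟩ ⟨h1', h2', h3'⟩
    refine ⟨(TA ρ α).add_mem h1 h1', (TA ρ β).add_mem h2 h2', ?_⟩
    conv_lhs => rw [h3, h3', ← Psi_add]
    rfl
  zero_mem' := ⟨(TA ρ α).zero_mem, (TA ρ β).zero_mem, (Psi_zero V1 V2).symm⟩
  algebraMap_mem' := by
    intro c
    refine ⟨(TA ρ α).algebraMap_mem c, (TA ρ β).algebraMap_mem c, ?_⟩
    rw [Algebra.algebraMap_eq_smul_one, ← Psi_one h, ← Psi_smul]
    rfl

variable {V1 V2 : BH H} (h : Cuntz V1 V2)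

theorem mem_GA {z : CC H} : z ∈ GA ρ α β h ↔
    z.1.1 ∈ TA ρ α ∧ z.1.2 ∈ TA ρ β ∧ z = Psi V1 V2 z.1.1 z.1.2 := Iff.rfl

theorem Psi_mem {x y : BK H} (hx : x ∈ TA ρ α) (hy : y ∈ TA ρ β) :
    Psi V1 V2 x y ∈ GA ρ α β h := ⟨hx, hy, rfl⟩

theorem GA_closed : IsClosed (GA ρ α β h : Set (CC H)) := by
  have h1 : IsClosed {z : CC H | z.1.1 ∈ TA ρ α} :=
    (TA_closed ρ α).preimage (continuous_fst.comp continuous_fst)
  have h2 : IsClosed {z : CC H | z.1.2 ∈ TA ρ β} :=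
    (TA_closed ρ β).preimage (continuous_snd.comp continuous_fst)
  have h3 : IsClosed {z : CC H | z = Psi V1 V2 z.1.1 z.1.2} :=
    isClosed_eq continuous_id (Psi_cont V1 V2 (continuous_fst.comp continuous_fst)
      (continuous_snd.comp continuous_fst))
  exact h1.inter (h2.inter h3)

/-- the flip of the ambient algebra -/
noncomputable def swp : CC H ≃⋆ₐ[ℂ] CC H where
  toFun z := ((z.1.2, z.1.1), (z.2.2, z.2.1))
  invFun z := ((z.1.2, z.1.1), (z.2.2, z.2.1))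
  left_inv _ := rfl
  right_inv _ := rfl
  map_mul' _ _ := rfl
  map_add' _ _ := rfl
  map_star' _ := rfl
  map_smul' _ _ := rfl

theorem swp_mem (z : CC H) : z ∈ GA ρ α β h ↔ swp z ∈ GA ρ β α h := by
  constructor
  · rintro ⟨h1, h2, h3⟩
    refine ⟨h2, h1, ?_⟩
    conv_lhs => rw [h3]
    rfl
  · rintro ⟨h1, h2, h3⟩
    refine ⟨h2, h1, ?_⟩
    have := congrArg swp h3
    exact this

theorem swp_norm (z : CC H) : ‖swp z‖ = ‖z‖ :=
  NonUnitalStarAlgHom.norm_map (swp : CC H ≃⋆ₐ[ℂ] CC H) (EquivLike.injective _) z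

/-- the isometric isomorphism between the two glued algebras -/
theorem exists_iso : ∃ φ : GA ρ α β h ≃ₐ[ℂ] GA ρ β α h, ∀ x, ‖φ x‖ = ‖x‖ := by
  refine ⟨{ toFun := fun z => ⟨swp z.1, (swp_mem ρ α β h _).1 z.2⟩
            invFun := fun z => ⟨swp z.1, (swp_mem ρ β α h _).1 z.2⟩
            left_inv := fun z => Subtype.ext rfl
            right_inv := fun z => Subtype.ext rfl
            map_mul' := fun z w => Subtype.ext rfl
            map_add' := fun z w => Subtype.ext rfl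
            commutes' := fun c => Subtype.ext rfl }, fun z => ?_⟩
  exact swp_norm z.1

/-- the embedding of `A` in the ambient algebra -/
noncomputable def iC : A →⋆ₐ[ℂ] CC H where
  toFun a := Psi V1 V2 (Pi' ρ α a) (Pi' ρ β a)
  map_one' := by rw [map_one, map_one, Psi_one h]
  map_mul' a b := by rw [map_mul, map_mul, Psi_mul ρ α β h _ _ _ _ (Pi_mem ρ α a) (Pi_mem ρ β a)]
  map_zero' := by rw [map_zero, map_zero, Psi_zero]
  map_add' a b := by rw [map_add, map_add, Psi_add]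
  commutes' c := by
    rw [Algebra.algebraMap_eq_smul_one, map_smul, map_smul, map_one, map_one, Psi_smul, Psi_one h]
    rfl
  map_star' a := by
    have e1 : ∀ (γ : Fin 2 → (A →⋆ₐ[ℂ] A)) (b : A), c0 (Pi' ρ γ b) = ρ b :=
      fun γ b => cf_nil_Pi ρ γ b
    simp only [Psi, e1, map_star ρ]
    rw [← Rf_star]
    have e2 := map_star (Pi' ρ α) a
    have e3 := map_star (Pi' ρ β) a
    rw [e2, e3]
    rfl

theorem iC_mem (a : A) : iC ρ α β h a ∈ GA ρ α β h :=
  Psi_mem ρ α β h (Pi_mem ρ α a) (Pi_mem ρ β a)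

/-- the embedding of `A` in the glued algebra -/
noncomputable def iG : A →ₐ[ℂ] GA ρ α β h :=
  (iC ρ α β h).toAlgHom.codRestrict (GA ρ α β h) (iC_mem ρ α β h)

theorem iG_coe (a : A) : (iG ρ α β h a : CC H) = Psi V1 V2 (Pi' ρ α a) (Pi' ρ β a) := rfl

theorem iG_norm_le (a : A) : ‖iG ρ α β h a‖ ≤ ‖a‖ :=
  NonUnitalStarAlgHom.norm_apply_le (iC ρ α β h) a

theorem iG_inj (hρ : Function.Injective ρ) : Function.Injective (iG ρ α β h) := by
  intro a b hab
  have h1 : Pi' ρ α a = Pi' ρ α b := congrArg (fun z : GA ρ α β h => (z : CC H).1.1) hab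
  have h2 := congrArg c0 h1
  exact hρ (by rw [← cf_nil_Pi ρ α a, ← cf_nil_Pi ρ α b]; exact h2)

/-- the embedding as a continuous linear map -/
noncomputable def iL : A →L[ℂ] GA ρ α β h :=
  LinearMap.mkContinuous (iG ρ α β h).toLinearMap 1 (fun a => by
    rw [one_mul]; exact iG_norm_le ρ α β h a)

theorem iL_apply (a : A) : iL ρ α β h a = iG ρ α β h a := rfl

/-- `ρ` as a linear isometry -/
noncomputable def rhoI (hρ : Function.Injective ρ) : A →ₗᵢ[ℂ] (H →L[ℂ] H) :=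
  ⟨ρ.toAlgHom.toLinearMap, fun a => NonUnitalStarAlgHom.norm_map ρ hρ a⟩

/-- first component of an element of the glued algebra -/
noncomputable def fstL : GA ρ α β h →L[ℂ] BK H :=
  ((ContinuousLinearMap.fst ℂ (BK H) (BK H)).comp
    (ContinuousLinearMap.fst ℂ (BK H × BK H) (BH H × BH H))).comp
    ⟨(GA ρ α β h).val.toLinearMap, continuous_subtype_val⟩

theorem fstL_apply (z : GA ρ α β h) : fstL ρ α β h z = (z : CC H).1.1 := rfl

/-- coefficients with values in `A` -/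
noncomputable def kap (hρ : Function.Injective ρ) (w : Wd) : GA ρ α β h →L[ℂ] A :=
  ((rhoI ρ hρ).equivRange.symm.toContinuousLinearEquiv.toContinuousLinearMap).comp
    (((cf w).comp (fstL ρ α β h)).codRestrict (LinearMap.range (rhoI ρ hρ).toLinearMap)
      (fun z => cf_mem ρ α hρ w _ z.2.1))

theorem rho_kap (hρ : Function.Injective ρ) (w : Wd) (z : GA ρ α β h) :
    ρ (kap ρ α β h hρ w z) = cf w (z : CC H).1.1 := by
  have h1 := congrArg Subtype.val ((rhoI ρ hρ).equivRange.apply_symm_apply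
    ((((cf w).comp (fstL ρ α β h)).codRestrict (LinearMap.range (rhoI ρ hρ).toLinearMap)
      (fun z => cf_mem ρ α hρ w _ z.2.1)) z))
  exact h1

end Pool.Agent.V1190.CI
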