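import Mathlib
import Pool.Agent.V1190.CI.Alg

/-!
The glued algebra is associated with the first system.
-/

namespace Pool.Agent.V1190.CI

open scoped InnerProductSpace

variable {H : Type} [NormedAddCommGroup H] [InnerProductSpace ℂ H] [CompleteSpace H]
variable {A : Type} [CStarAlgebra A]

/-- the system `(id, σ)` -/
noncomputable def sys (σ : A →⋆ₐ[ℂ] A) : Fin 2 → (A →⋆ₐ[ℂ] A) := ![StarAlgHom.id ℂ A, σ]

theorem sys_zero (σ : A →⋆ₐ[ℂ] A) (a : A) : sys σ 0 a = a := rfl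

theorem sys_one (σ : A →⋆ₐ[ℂ] A) (a : A) : sys σ 1 a = σ a := rfl

theorem sys_inj (σ : A →⋆ₐ[ℂ] A) (hσ : Function.Injective σ) (i : Fin 2) :
    Function.Injective (sys σ i) := by
  fin_cases i
  · exact fun a b hab => hab
  · exact hσ

/-- `σ` dominates `τ` -/
structure Dom (σ τ : A →⋆ₐ[ℂ] A) (r0 r1 q l : A) : Prop where
  i0 : ∀ a, τ a * r0 = r0 * σ a
  i1 : ∀ a, τ a * r1 = r1 * σ a
  e0 : r0 * q = 1
  e1 : r1 * q = 0
  e2 : q * r0 + l * r1 = 1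

variable (ρ : A →⋆ₐ[ℂ] (H →L[ℂ] H)) (σ τ : A →⋆ₐ[ℂ] A) (r0 r1 q l : A)

/-- the second component of the second generator -/
noncomputable def YY : BK H :=
  Uop 1 * Pi' ρ (sys τ) r0 + Uop 0 * (Uop 1 * Pi' ρ (sys τ) r1)

theorem YY_mem : YY ρ τ r0 r1 ∈ TA ρ (sys τ) :=
  (TA ρ (sys τ)).add_mem ((TA ρ (sys τ)).mul_mem (U_mem _ _ _) (Pi_mem _ _ _))
    ((TA ρ (sys τ)).mul_mem (U_mem _ _ _)
      ((TA ρ (sys τ)).mul_mem (U_mem _ _ _) (Pi_mem _ _ _)))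

theorem norm_Uop (i : Fin 2) : ‖(Uop i : BK H)‖ ≤ 1 := by
  rw [Uop, LinearIsometryEquiv.norm_map]
  exact LinearMap.mkContinuous_norm_le _ (by norm_num) _

variable {V1 V2 : BH H} (h : Cuntz V1 V2)

theorem m1 (γ : Fin 2 → (A →⋆ₐ[ℂ] A)) : (1 / 8 : ℂ) • (Uop 0 : BK H) ∈ TA ρ γ :=
  (TA ρ γ).smul_mem (U_mem _ _ _) _

theorem m2 (γ : Fin 2 → (A →⋆ₐ[ℂ] A)) : 1 + (1 / 8 : ℂ) • (Uop 0 : BK H) ∈ TA ρ γ :=
  (TA ρ γ).add_mem (TA ρ γ).one_mem (m1 ρ γ)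

/-- first generator -/
noncomputable def s0 : GA ρ (sys σ) (sys τ) h :=
  ⟨Psi V1 V2 ((1 / 8 : ℂ) • Uop 0) (1 + (1 / 8 : ℂ) • Uop 0),
    Psi_mem ρ _ _ h ((TA ρ (sys σ)).smul_mem (U_mem _ _ _) _)
      ((TA ρ (sys τ)).add_mem (TA ρ (sys τ)).one_mem ((TA ρ (sys τ)).smul_mem (U_mem _ _ _) _))⟩

/-- second generator -/
noncomputable def s1 : GA ρ (sys σ) (sys τ) h :=
  ⟨Psi V1 V2 (Uop 1) (YY ρ τ r0 r1), Psi_mem ρ _ _ h (U_mem _ _ _) (YY_mem ρ τ r0 r1)⟩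

/-- the generators -/
noncomputable def sG : Fin 2 → GA ρ (sys σ) (sys τ) h := ![s0 ρ σ τ h, s1 ρ σ τ r0 r1 h]

theorem Pi_U0 (σ : A →⋆ₐ[ℂ] A) (a : A) :
    Pi' ρ (sys σ) a * Uop 0 = Uop 0 * Pi' ρ (sys σ) a := Pi'_mul_Uop ρ (sys σ) a 0

theorem Pi_U1 (σ : A →⋆ₐ[ℂ] A) (a : A) :
    Pi' ρ (sys σ) a * Uop 1 = Uop 1 * Pi' ρ (sys σ) (σ a) := Pi'_mul_Uop ρ (sys σ) a 1

theorem Pi_YY (hD : Dom σ τ r0 r1 q l) (a : A) :
    Pi' ρ (sys τ) a * YY ρ τ r0 r1 = YY ρ τ r0 r1 * Pi' ρ (sys τ) (σ a) := by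
  rw [YY, mul_add, add_mul]
  congr 1
  · rw [← mul_assoc, Pi_U1, mul_assoc, mul_assoc, ← map_mul, ← map_mul, hD.i0]
  · rw [← mul_assoc, Pi_U0, mul_assoc, ← mul_assoc (Pi' ρ (sys τ) a), Pi_U1, mul_assoc,
      mul_assoc, mul_assoc, ← map_mul, ← map_mul, hD.i1]

theorem YY_q (hD : Dom σ τ r0 r1 q l) : YY ρ τ r0 r1 * Pi' ρ (sys τ) q = Uop 1 := by
  rw [YY, add_mul, mul_assoc, mul_assoc, mul_assoc, ← map_mul, ← map_mul, hD.e0, hD.e1, map_one,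
    map_zero, mul_one, mul_zero, mul_zero, add_zero]

theorem cov (hD : Dom σ τ r0 r1 q l) (i : Fin 2) (a : A) :
    iG ρ (sys σ) (sys τ) h a * sG ρ σ τ r0 r1 h i =
      sG ρ σ τ r0 r1 h i * iG ρ (sys σ) (sys τ) h (sys σ i a) := by
  apply Subtype.ext
  fin_cases i
  · show Psi V1 V2 (Pi' ρ (sys σ) a) (Pi' ρ (sys τ) a) *
      Psi V1 V2 ((1 / 8 : ℂ) • Uop 0) (1 + (1 / 8 : ℂ) • Uop 0) =
      Psi V1 V2 ((1 / 8 : ℂ) • Uop 0) (1 + (1 / 8 : ℂ) • Uop 0) *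
      Psi V1 V2 (Pi' ρ (sys σ) a) (Pi' ρ (sys τ) a)
    rw [Psi_mul ρ (sys σ) (sys τ) h _ _ _ _ (Pi_mem _ _ _) (Pi_mem _ _ _),
      Psi_mul ρ (sys σ) (sys τ) h _ _ _ _ (m1 ρ _) (m2 ρ _)]
    rw [mul_smul_comm, smul_mul_assoc, Pi_U0, mul_add, add_mul, mul_one, one_mul, mul_smul_comm,
      smul_mul_assoc, Pi_U0]
  · show Psi V1 V2 (Pi' ρ (sys σ) a) (Pi' ρ (sys τ) a) *
      Psi V1 V2 (Uop 1) (YY ρ τ r0 r1) =
      Psi V1 V2 (Uop 1) (YY ρ τ r0 r1) *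
      Psi V1 V2 (Pi' ρ (sys σ) (σ a)) (Pi' ρ (sys τ) (σ a))
    rw [Psi_mul ρ (sys σ) (sys τ) h _ _ _ _ (Pi_mem _ _ _) (Pi_mem _ _ _),
      Psi_mul ρ (sys σ) (sys τ) h _ _ _ _ (U_mem _ _ _) (YY_mem _ _ _ _), Pi_U1,
      Pi_YY ρ σ τ r0 r1 q l hD]

theorem eq_zero_of_comp {z : GA ρ (sys σ) (sys τ) h} (h1 : (z : CC H).1.1 = 0)
    (h2 : (z : CC H).1.2 = 0) : z = 0 := by
  apply Subtype.ext
  rw [z.2.2.2, h1, h2, Psi_zero]
  rfl

theorem small_left (x : BK H) (hx : (1 + (1 / 8 : ℂ) • Uop 0) * x = 0) : x = 0 := by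
  rw [add_mul, one_mul, smul_mul_assoc] at hx
  have h1 : x = -((1 / 8 : ℂ) • (Uop 0 * x)) := eq_neg_of_add_eq_zero_left hx
  have h2 : ‖x‖ ≤ 1 / 8 * ‖x‖ := by
    conv_lhs => rw [h1]
    rw [norm_neg, norm_smul]
    have h3 : ‖(1 / 8 : ℂ)‖ = 1 / 8 := by simp
    rw [h3]
    have h4 : ‖Uop 0 * x‖ ≤ 1 * ‖x‖ :=
      (norm_mul_le _ _).trans (mul_le_mul_of_nonneg_right (norm_Uop 0) (norm_nonneg _))
    linarith
  have := norm_nonneg x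
  exact norm_le_zero_iff.1 (by linarith)

theorem small_right (x : BK H) (hx : x * (1 + (1 / 8 : ℂ) • Uop 0) = 0) : x = 0 := by
  rw [mul_add, mul_one, mul_smul_comm] at hx
  have h1 : x = -((1 / 8 : ℂ) • (x * Uop 0)) := eq_neg_of_add_eq_zero_left hx
  have h2 : ‖x‖ ≤ 1 / 8 * ‖x‖ := by
    conv_lhs => rw [h1]
    rw [norm_neg, norm_smul]
    have h3 : ‖(1 / 8 : ℂ)‖ = 1 / 8 := by simp
    rw [h3]
    have h4 : ‖x * Uop 0‖ ≤ ‖x‖ * 1 :=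
      (norm_mul_le _ _).trans (mul_le_mul_of_nonneg_left (norm_Uop 0) (norm_nonneg _))
    linarith
  have := norm_nonneg x
  exact norm_le_zero_iff.1 (by linarith)

theorem U_left (i : Fin 2) (x : BK H) (hx : Uop i * x = 0) : x = 0 := by
  have := congrArg (fun y => Cop i * y) hx
  simp only [mul_zero, ← mul_assoc, Cop_mul_Uop, one_mul] at this
  exact this

theorem smul_eighth {x : BK H} (hx : (1 / 8 : ℂ) • x = 0) : x = 0 := by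
  rcases smul_eq_zero.1 hx with h | h
  · norm_num at h
  · exact h

theorem nzd_left (hD : Dom σ τ r0 r1 q l) (i : Fin 2) (z : GA ρ (sys σ) (sys τ) h)
    (hz : sG ρ σ τ r0 r1 h i * z = 0) : z = 0 := by
  have hz' := congrArg (Subtype.val : GA ρ (sys σ) (sys τ) h → CC H) hz
  fin_cases i
  · have a1 : ((1 / 8 : ℂ) • Uop 0) * (z : CC H).1.1 = 0 := congrArg (fun w : CC H => w.1.1) hz'
    have a2 : (1 + (1 / 8 : ℂ) • Uop 0) * (z : CC H).1.2 = 0 :=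
      congrArg (fun w : CC H => w.1.2) hz'
    rw [smul_mul_assoc] at a1
    exact eq_zero_of_comp ρ σ τ h (U_left 0 _ (smul_eighth a1)) (small_left _ a2)
  · have a1 : Uop 1 * (z : CC H).1.1 = 0 := congrArg (fun w : CC H => w.1.1) hz'
    have a2 : YY ρ τ r0 r1 * (z : CC H).1.2 = 0 := congrArg (fun w : CC H => w.1.2) hz'
    refine eq_zero_of_comp ρ σ τ h (U_left 1 _ a1) ?_
    set x := (z : CC H).1.2 with hxdef
    have b1 : Pi' ρ (sys τ) r0 * x = 0 := by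
      have := congrArg (fun y => Cop 1 * y) a2
      simp only [mul_zero, YY, add_mul, mul_add, ← mul_assoc, Cop_mul_Uop,
        Cop_mul_Uop_ne 1 0 (by decide), zero_mul, one_mul, add_zero] at this
      exact this
    have b2 : Pi' ρ (sys τ) r1 * x = 0 := by
      have := congrArg (fun y => Cop 0 * y) a2
      simp only [mul_zero, YY, add_mul, mul_add, ← mul_assoc, Cop_mul_Uop,
        Cop_mul_Uop_ne 0 1 (by decide), zero_mul, one_mul, zero_add] at this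
      rw [mul_assoc] at this
      exact U_left 1 _ this
    have b3 : Pi' ρ (sys τ) (q * r0 + l * r1) * x = 0 := by
      rw [map_add, map_mul, map_mul, add_mul, mul_assoc, mul_assoc, b1, b2, mul_zero, mul_zero,
        add_zero]
    rwa [hD.e2, map_one, one_mul] at b3

theorem nzd_right (hρ : Function.Injective ρ) (hσ : Function.Injective σ)
    (hτ : Function.Injective τ) (hD : Dom σ τ r0 r1 q l) (i : Fin 2)
    (z : GA ρ (sys σ) (sys τ) h) (hz : z * sG ρ σ τ r0 r1 h i = 0) : z = 0 := by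
  have hz' := congrArg (Subtype.val : GA ρ (sys σ) (sys τ) h → CC H) hz
  fin_cases i
  · have a1 : (z : CC H).1.1 * ((1 / 8 : ℂ) • Uop 0) = 0 := congrArg (fun w : CC H => w.1.1) hz'
    have a2 : (z : CC H).1.2 * (1 + (1 / 8 : ℂ) • Uop 0) = 0 :=
      congrArg (fun w : CC H => w.1.2) hz'
    rw [mul_smul_comm] at a1
    exact eq_zero_of_comp ρ σ τ h
      (mulU_eq_zero ρ (sys σ) hρ 0 (sys_inj σ hσ 0) _ z.2.1 (smul_eighth a1)) (small_right _ a2)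
  · have a1 : (z : CC H).1.1 * Uop 1 = 0 := congrArg (fun w : CC H => w.1.1) hz'
    have a2 : (z : CC H).1.2 * YY ρ τ r0 r1 = 0 := congrArg (fun w : CC H => w.1.2) hz'
    refine eq_zero_of_comp ρ σ τ h
      (mulU_eq_zero ρ (sys σ) hρ 1 (sys_inj σ hσ 1) _ z.2.1 a1)
      (mulU_eq_zero ρ (sys τ) hρ 1 (sys_inj τ hτ 1) _ z.2.2.1 ?_)
    rw [← YY_q ρ σ τ r0 r1 q l hD, ← mul_assoc, a2, zero_mul]

end Pool.Agent.V1190.CI
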