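import Mathlib
import Pool.Agent.V1190.CI.Assoc

/-!
Density of the monomials, and the association theorem.
-/

namespace Pool.Agent.V1190.CI

open scoped InnerProductSpace

variable {H : Type} [NormedAddCommGroup H] [InnerProductSpace ℂ H] [CompleteSpace H]
variable {A : Type} [CStarAlgebra A]
variable (ρ : A →⋆ₐ[ℂ] (H →L[ℂ] H)) (σ τ : A →⋆ₐ[ℂ] A) (r0 r1 q l : A)
variable {V1 V2 : BH H} (h : Cuntz V1 V2)

theorem TA_le (γ : Fin 2 → (A →⋆ₐ[ℂ] A)) (N : Submodule ℂ (BK H)) (hN : IsClosed (N : Set (BK H)))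
    (hm : ∀ w a, UW w * Pi' ρ γ a ∈ N) (x : BK H) (hx : x ∈ TA ρ γ) : x ∈ N :=
  TA_mem ρ γ (ContinuousLinearMap.id ℂ (BK H)) N hN hm x hx

/-- `x ↦ Psi x 0` -/
noncomputable def PsiL1 (V1 V2 : BH H) : BK H →ₗ[ℂ] CC H where
  toFun x := Psi V1 V2 x 0
  map_add' x y := by rw [← Psi_add, add_zero]
  map_smul' c x := by rw [RingHom.id_apply, ← Psi_smul, smul_zero]

/-- `y ↦ Psi 0 y` -/
noncomputable def PsiL2 (V1 V2 : BH H) : BK H →ₗ[ℂ] CC H where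
  toFun x := Psi V1 V2 0 x
  map_add' x y := by rw [← Psi_add, add_zero]
  map_smul' c x := by rw [RingHom.id_apply, ← Psi_smul, smul_zero]

/-- the generators in the ambient algebra -/
noncomputable def sC (V1 V2 : BH H) : Fin 2 → CC H :=
  ![Psi V1 V2 ((1 / 8 : ℂ) • Uop 0) (1 + (1 / 8 : ℂ) • Uop 0), Psi V1 V2 (Uop 1) (YY ρ τ r0 r1)]

theorem sG_coe (i : Fin 2) : (sG ρ σ τ r0 r1 h i : CC H) = sC ρ τ r0 r1 V1 V2 i := by
  fin_cases i <;> rfl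

theorem covC (hD : Dom σ τ r0 r1 q l) (i : Fin 2) (a : A) :
    (iC ρ (sys σ) (sys τ) h).toAlgHom a * sC ρ τ r0 r1 V1 V2 i =
      sC ρ τ r0 r1 V1 V2 i * (iC ρ (sys σ) (sys τ) h).toAlgHom (sys σ i a) := by
  rw [← sG_coe ρ σ τ r0 r1 h]
  exact congrArg Subtype.val (cov ρ σ τ r0 r1 q l h hD i a)

/-- closed subalgebra generated by the monomials -/
noncomputable def NC (hD : Dom σ τ r0 r1 q l) : Subalgebra ℂ (CC H) :=
  ClAlg (iC ρ (sys σ) (sys τ) h).toAlgHom (sC ρ τ r0 r1 V1 V2) (sys σ)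
    (covC ρ σ τ r0 r1 q l h hD)

theorem NC_closed (hD : Dom σ τ r0 r1 q l) : IsClosed (NC ρ σ τ r0 r1 q l h hD : Set (CC H)) :=
  isClosed_Cl _ _ _ _

theorem iG_NC (hD : Dom σ τ r0 r1 q l) (a : A) :
    Psi V1 V2 (Pi' ρ (sys σ) a) (Pi' ρ (sys τ) a) ∈ NC ρ σ τ r0 r1 q l h hD := by
  have := mon_mem_Cl (iC ρ (sys σ) (sys τ) h).toAlgHom (sC ρ τ r0 r1 V1 V2) (sys σ)
    (covC ρ σ τ r0 r1 q l h hD) [] a
  rw [List.map_nil, List.prod_nil, one_mul] at this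
  exact this

theorem sC_NC (hD : Dom σ τ r0 r1 q l) (i : Fin 2) :
    sC ρ τ r0 r1 V1 V2 i ∈ NC ρ σ τ r0 r1 q l h hD := by
  have := mon_mem_Cl (iC ρ (sys σ) (sys τ) h).toAlgHom (sC ρ τ r0 r1 V1 V2) (sys σ)
    (covC ρ σ τ r0 r1 q l h hD) [i] 1
  rw [List.map_cons, List.map_nil, List.prod_cons, List.prod_nil, mul_one, map_one, mul_one]
    at this
  exact this

theorem s0_NC (hD : Dom σ τ r0 r1 q l) :
    Psi V1 V2 ((1 / 8 : ℂ) • Uop 0) (1 + (1 / 8 : ℂ) • Uop 0) ∈ NC ρ σ τ r0 r1 q l h hD :=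
  sC_NC ρ σ τ r0 r1 q l h hD 0

theorem s1_NC (hD : Dom σ τ r0 r1 q l) :
    Psi V1 V2 (Uop 1) (YY ρ τ r0 r1) ∈ NC ρ σ τ r0 r1 q l h hD :=
  sC_NC ρ σ τ r0 r1 q l h hD 1

theorem norm_eighth : ‖(1 / 8 : ℂ) • (Uop 0 : BK H)‖ ≤ 1 / 8 := by
  rw [norm_smul]
  have h3 : ‖(1 / 8 : ℂ)‖ = 1 / 8 := by simp
  rw [h3]
  have := norm_Uop (H := H) 0
  linarith

theorem gg_mem_CC (N : Subalgebra ℂ (CC H)) (x : CC H) (hx : x ∈ N) (n : ℕ) : gg^[n] x ∈ N := by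
  induction n with
  | zero => exact hx
  | succ n ih =>
    rw [Function.iterate_succ', Function.comp_apply, gg]
    exact N.sub_mem (N.smul_mem (N.mul_mem ih ih) _)
      (N.smul_mem (N.mul_mem (N.mul_mem ih ih) ih) _)

theorem gg_11 (z : CC H) : (gg z).1.1 = gg z.1.1 := rfl

theorem gg_12 (z : CC H) : (gg z).1.2 = gg z.1.2 := rfl

theorem gg_iter_11 (z : CC H) (n : ℕ) : (gg^[n] z).1.1 = gg^[n] z.1.1 := by
  induction n with
  | zero => rfl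
  | succ n ih =>
    rw [Function.iterate_succ', Function.comp_apply, Function.iterate_succ',
      Function.comp_apply, gg_11, ih]

theorem gg_iter_12 (z : CC H) (n : ℕ) : (gg^[n] z).1.2 = gg^[n] z.1.2 := by
  induction n with
  | zero => rfl
  | succ n ih =>
    rw [Function.iterate_succ', Function.comp_apply, Function.iterate_succ',
      Function.comp_apply, gg_12, ih]

/-- the idempotent `(0, 1)` lies in the closed algebra -/
theorem f_NC (hD : Dom σ τ r0 r1 q l) : Psi V1 V2 0 1 ∈ NC ρ σ τ r0 r1 q l h hD := by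
  set u : BK H := (1 / 8 : ℂ) • Uop 0 with hu
  set v : BK H := 1 + (1 / 8 : ℂ) • Uop 0 with hv
  have hm0 : Psi V1 V2 u v ∈ GA ρ (sys σ) (sys τ) h :=
    Psi_mem ρ (sys σ) (sys τ) h (m1 ρ (sys σ)) (m2 ρ (sys τ))
  have hcoe : ∀ n : ℕ, gg^[n] (Psi V1 V2 u v) = Psi V1 V2 (gg^[n] u) (gg^[n] v) := by
    intro n
    have hm : gg^[n] (Psi V1 V2 u v) ∈ GA ρ (sys σ) (sys τ) h := gg_mem_CC _ _ hm0 n
    have h1 : (gg^[n] (Psi V1 V2 u v)).1.1 = gg^[n] u := gg_iter_11 _ n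
    have h2 : (gg^[n] (Psi V1 V2 u v)).1.2 = gg^[n] v := gg_iter_12 _ n
    rw [hm.2.2, h1, h2]
  have hmem : ∀ n : ℕ, Psi V1 V2 (gg^[n] u) (gg^[n] v) ∈ NC ρ σ τ r0 r1 q l h hD := by
    intro n
    rw [← hcoe]
    exact gg_mem_CC _ _ (s0_NC ρ σ τ r0 r1 q l h hD) n
  have hu' : Filter.Tendsto (fun n => gg^[n] u) Filter.atTop (nhds 0) :=
    gg_tendsto u norm_eighth
  have hv' : Filter.Tendsto (fun n => gg^[n] v) Filter.atTop (nhds 1) := by
    refine gg_tendsto_one v ?_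
    rw [hv, sub_add_cancel_left, norm_neg]
    exact norm_eighth
  have hc : Continuous fun p : BK H × BK H => Psi V1 V2 p.1 p.2 :=
    Psi_cont V1 V2 continuous_fst continuous_snd
  have ht : Filter.Tendsto (fun n => Psi V1 V2 (gg^[n] u) (gg^[n] v)) Filter.atTop
      (nhds (Psi V1 V2 0 1)) := (hc.tendsto (0, 1)).comp (hu'.prodMk_nhds hv')
  exact (NC_closed ρ σ τ r0 r1 q l h hD).mem_of_tendsto ht (Filter.Eventually.of_forall hmem)

theorem e_NC (hD : Dom σ τ r0 r1 q l) : Psi V1 V2 1 0 ∈ NC ρ σ τ r0 r1 q l h hD := by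
  have h1 := (NC ρ σ τ r0 r1 q l h hD).sub_mem (NC ρ σ τ r0 r1 q l h hD).one_mem
    (f_NC ρ σ τ r0 r1 q l h hD)
  have h2 : (1 : CC H) = Psi V1 V2 1 0 + Psi V1 V2 0 1 := by
    rw [← Psi_add, add_zero, zero_add, Psi_one h]
  rwa [h2, add_sub_cancel_right] at h1

theorem left_NC (hD : Dom σ τ r0 r1 q l) (x : BK H) (hx : x ∈ TA ρ (sys σ)) :
    Psi V1 V2 x 0 ∈ NC ρ σ τ r0 r1 q l h hD := by
  set N := NC ρ σ τ r0 r1 q l h hD with hN
  have he : Psi V1 V2 1 0 ∈ N := e_NC ρ σ τ r0 r1 q l h hD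
  have hmul : ∀ x y : BK H, x ∈ TA ρ (sys σ) → Psi V1 V2 x 0 * Psi V1 V2 y 0 = Psi V1 V2 (x * y) 0 := by
    intro x y hx
    rw [Psi_mul ρ (sys σ) (sys τ) h _ _ _ _ hx (TA ρ (sys τ)).zero_mem, mul_zero]
  have hcut : ∀ x y : BK H, Psi V1 V2 x y ∈ N → Psi V1 V2 x 0 ∈ N := by
    intro x y hxy
    have := N.mul_mem he hxy
    rwa [Psi_mul ρ (sys σ) (sys τ) h _ _ _ _ (TA ρ (sys σ)).one_mem (TA ρ (sys τ)).zero_mem,
      one_mul, zero_mul] at this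
  have hP : ∀ a, Psi V1 V2 (Pi' ρ (sys σ) a) 0 ∈ N := fun a =>
    hcut _ _ (iG_NC ρ σ τ r0 r1 q l h hD a)
  have hU1 : Psi V1 V2 (Uop 1) 0 ∈ N := hcut _ _ (s1_NC ρ σ τ r0 r1 q l h hD)
  have hU0 : Psi V1 V2 (Uop 0) 0 ∈ N := by
    have h1 := N.smul_mem (hcut _ _ (s0_NC ρ σ τ r0 r1 q l h hD)) (8 : ℂ)
    rw [← Psi_smul, smul_smul, smul_zero] at h1
    norm_num at h1
    exact h1
  have hU : ∀ i, Psi V1 V2 (Uop i) 0 ∈ N := by
    intro i
    fin_cases i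
    · exact hU0
    · exact hU1
  have hW : ∀ w, Psi V1 V2 (UW w) 0 ∈ N := by
    intro w
    induction w with
    | nil => exact he
    | cons i w ih =>
      rw [UW_cons, ← hmul _ _ (U_mem _ _ _)]
      exact N.mul_mem (hU i) ih
  refine TA_le ρ (sys σ) (N.toSubmodule.comap (PsiL1 V1 V2)) ?_ (fun w a => ?_) x hx
  · exact (NC_closed ρ σ τ r0 r1 q l h hD).preimage
      (Psi_cont V1 V2 continuous_id continuous_const)
  · show Psi V1 V2 (UW w * Pi' ρ (sys σ) a) 0 ∈ N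
    rw [← hmul _ _ (UW_mem _ _ _)]
    exact N.mul_mem (hW w) (hP a)

theorem right_NC (hD : Dom σ τ r0 r1 q l) (x : BK H) (hx : x ∈ TA ρ (sys τ)) :
    Psi V1 V2 0 x ∈ NC ρ σ τ r0 r1 q l h hD := by
  set N := NC ρ σ τ r0 r1 q l h hD with hN
  have he : Psi V1 V2 0 1 ∈ N := f_NC ρ σ τ r0 r1 q l h hD
  have hmul : ∀ x y : BK H, x ∈ TA ρ (sys τ) → Psi V1 V2 0 x * Psi V1 V2 0 y = Psi V1 V2 0 (x * y) := by
    intro x y hx
    rw [Psi_mul ρ (sys σ) (sys τ) h _ _ _ _ (TA ρ (sys σ)).zero_mem hx, mul_zero]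
  have hcut : ∀ x y : BK H, Psi V1 V2 x y ∈ N → Psi V1 V2 0 y ∈ N := by
    intro x y hxy
    have := N.mul_mem he hxy
    rwa [Psi_mul ρ (sys σ) (sys τ) h _ _ _ _ (TA ρ (sys σ)).zero_mem (TA ρ (sys τ)).one_mem,
      one_mul, zero_mul] at this
  have hP : ∀ a, Psi V1 V2 0 (Pi' ρ (sys τ) a) ∈ N := fun a =>
    hcut _ _ (iG_NC ρ σ τ r0 r1 q l h hD a)
  have hU1 : Psi V1 V2 0 (Uop 1) ∈ N := by
    have h1 := N.mul_mem (hcut _ _ (s1_NC ρ σ τ r0 r1 q l h hD)) (hP q)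
    rwa [hmul _ _ (YY_mem _ _ _ _), YY_q ρ σ τ r0 r1 q l hD] at h1
  have hU0 : Psi V1 V2 0 (Uop 0) ∈ N := by
    have h0 := N.sub_mem (hcut _ _ (s0_NC ρ σ τ r0 r1 q l h hD)) he
    have h00 : Psi V1 V2 0 (1 + (1 / 8 : ℂ) • Uop 0) - Psi V1 V2 0 1 =
        Psi V1 V2 0 ((1 / 8 : ℂ) • Uop 0) := by
      rw [sub_eq_iff_eq_add, ← Psi_add, add_zero, add_comm]
    rw [h00] at h0
    have h1 := N.smul_mem h0 (8 : ℂ)
    rw [← Psi_smul, smul_smul, smul_zero] at h1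
    norm_num at h1
    exact h1
  have hU : ∀ i, Psi V1 V2 0 (Uop i) ∈ N := by
    intro i
    fin_cases i
    · exact hU0
    · exact hU1
  have hW : ∀ w, Psi V1 V2 0 (UW w) ∈ N := by
    intro w
    induction w with
    | nil => exact he
    | cons i w ih =>
      rw [UW_cons, ← hmul _ _ (U_mem _ _ _)]
      exact N.mul_mem (hU i) ih
  refine TA_le ρ (sys τ) (N.toSubmodule.comap (PsiL2 V1 V2)) ?_ (fun w a => ?_) x hx
  · exact (NC_closed ρ σ τ r0 r1 q l h hD).preimage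
      (Psi_cont V1 V2 continuous_const continuous_id)
  · show Psi V1 V2 0 (UW w * Pi' ρ (sys τ) a) ∈ N
    rw [← hmul _ _ (UW_mem _ _ _)]
    exact N.mul_mem (hW w) (hP a)

theorem NC_top (hD : Dom σ τ r0 r1 q l) (z : GA ρ (sys σ) (sys τ) h) :
    (z : CC H) ∈ NC ρ σ τ r0 r1 q l h hD := by
  have h2 : (z : CC H) = Psi V1 V2 (z : CC H).1.1 0 + Psi V1 V2 0 (z : CC H).1.2 := by
    rw [← Psi_add, add_zero, zero_add]
    exact z.2.2.2
  rw [h2]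
  exact (NC ρ σ τ r0 r1 q l h hD).add_mem (left_NC ρ σ τ r0 r1 q l h hD _ z.2.1)
    (right_NC ρ σ τ r0 r1 q l h hD _ z.2.2.1)

theorem mono_coe (w : Wd) (a : A) :
    ((mono (iG ρ (sys σ) (sys τ) h) (sG ρ σ τ r0 r1 h) w a : GA ρ (sys σ) (sys τ) h) : CC H) =
      (w.map (sC ρ τ r0 r1 V1 V2)).prod * (iC ρ (sys σ) (sys τ) h).toAlgHom a := by
  rw [mono]
  have h1 : ∀ w : Wd, (((w.map (sG ρ σ τ r0 r1 h)).prod : GA ρ (sys σ) (sys τ) h) : CC H) =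
      (w.map (sC ρ τ r0 r1 V1 V2)).prod := by
    intro w
    induction w with
    | nil => rfl
    | cons i w ih =>
      rw [List.map_cons, List.prod_cons, List.map_cons, List.prod_cons, ← ih,
        ← sG_coe ρ σ τ r0 r1 h]
      rfl
  rw [← h1]
  rfl

theorem dense (hD : Dom σ τ r0 r1 q l) :
    (Submodule.span ℂ {x : GA ρ (sys σ) (sys τ) h | ∃ w a,
      x = mono (iG ρ (sys σ) (sys τ) h) (sG ρ σ τ r0 r1 h) w a}).topologicalClosure = ⊤ := by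
  rw [eq_top_iff]
  intro z _
  have h1 : (z : CC H) ∈ closure (MonSub (iC ρ (sys σ) (sys τ) h).toAlgHom
      (sC ρ τ r0 r1 V1 V2) : Set (CC H)) := NC_top ρ σ τ r0 r1 q l h hD z
  have h2 : MonSub (iC ρ (sys σ) (sys τ) h).toAlgHom (sC ρ τ r0 r1 V1 V2) ≤
      (Submodule.span ℂ {x : GA ρ (sys σ) (sys τ) h | ∃ w a,
      x = mono (iG ρ (sys σ) (sys τ) h) (sG ρ σ τ r0 r1 h) w a}).map
        (GA ρ (sys σ) (sys τ) h).val.toLinearMap := by
    rw [MonSub, Submodule.span_le]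
    rintro y ⟨w, a, rfl⟩
    exact ⟨mono (iG ρ (sys σ) (sys τ) h) (sG ρ σ τ r0 r1 h) w a,
      Submodule.subset_span ⟨w, a, rfl⟩, mono_coe ρ σ τ r0 r1 h w a⟩
  have h3 : (z : CC H) ∈ closure (Subtype.val ''
      (Submodule.span ℂ {x : GA ρ (sys σ) (sys τ) h | ∃ w a,
      x = mono (iG ρ (sys σ) (sys τ) h) (sG ρ σ τ r0 r1 h) w a} :
        Set (GA ρ (sys σ) (sys τ) h))) := closure_mono h2 h1
  exact closure_subtype.2 h3

/-- scalars of the generators -/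
noncomputable def dd : Fin 2 → ℂ := ![1 / 8, 1]

theorem dd_ne (i : Fin 2) : dd i ≠ 0 := by
  fin_cases i
  · show (1 / 8 : ℂ) ≠ 0
    norm_num
  · exact one_ne_zero

theorem sC_fst (i : Fin 2) : (sC ρ τ r0 r1 V1 V2 i).1.1 = dd i • (Uop i : BK H) := by
  fin_cases i
  · rfl
  · show Uop 1 = (1 : ℂ) • Uop 1
    rw [one_smul]

theorem mono_fst (w : Wd) (a : A) :
    ((mono (iG ρ (sys σ) (sys τ) h) (sG ρ σ τ r0 r1 h) w a : GA ρ (sys σ) (sys τ) h)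
      : CC H).1.1 = (w.map dd).prod • (UW w * Pi' ρ (sys σ) a) := by
  rw [mono_coe]
  have h1 : ((w.map (sC ρ τ r0 r1 V1 V2)).prod).1.1 = (w.map dd).prod • (UW w : BK H) := by
    induction w with
    | nil => simp [UW_nil]
    | cons i w ih =>
      rw [List.map_cons, List.prod_cons, List.map_cons, List.prod_cons, UW_cons,
        ← smul_mul_smul_comm, ← ih, ← sC_fst ρ τ r0 r1 (V1 := V1) (V2 := V2)]
      rfl
  rw [← smul_mul_assoc, ← h1]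
  rfl

theorem rho_kap_mono (hρ : Function.Injective ρ) (v w : Wd) (a : A) :
    ρ (kap ρ (sys σ) (sys τ) h hρ v
      (mono (iG ρ (sys σ) (sys τ) h) (sG ρ σ τ r0 r1 h) w a)) =
      if v = w then ρ ((w.map dd).prod • a) else 0 := by
  rw [rho_kap, mono_fst, map_smul, cf_mon]
  split_ifs
  · rw [map_smul]
  · rw [smul_zero]

theorem kap_mono_ne (hρ : Function.Injective ρ) (v w : Wd) (hvw : v ≠ w) (a : A) :
    kap ρ (sys σ) (sys τ) h hρ v
      (mono (iG ρ (sys σ) (sys τ) h) (sG ρ σ τ r0 r1 h) w a) = 0 := by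
  apply hρ
  rw [rho_kap_mono, if_neg hvw, map_zero]

theorem kap_mono_eq (hρ : Function.Injective ρ) (v : Wd) (a : A) :
    kap ρ (sys σ) (sys τ) h hρ v
      (mono (iG ρ (sys σ) (sys τ) h) (sG ρ σ τ r0 r1 h) v a) = (v.map dd).prod • a := by
  apply hρ
  rw [rho_kap_mono, if_pos rfl]

theorem kap_iG (hρ : Function.Injective ρ) (a : A) :
    kap ρ (sys σ) (sys τ) h hρ [] (iG ρ (sys σ) (sys τ) h a) = a := by
  apply hρ
  rw [rho_kap]
  exact cf_nil_Pi ρ (sys σ) a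

theorem kap_s (hρ : Function.Injective ρ) (i : Fin 2) (a : A) :
    kap ρ (sys σ) (sys τ) h hρ [i]
      (sG ρ σ τ r0 r1 h i * iG ρ (sys σ) (sys τ) h a) = dd i • a := by
  have h1 := kap_mono_eq ρ σ τ r0 r1 h hρ [i] a
  have h2 : mono (iG ρ (sys σ) (sys τ) h) (sG ρ σ τ r0 r1 h) [i] a =
      sG ρ σ τ r0 r1 h i * iG ρ (sys σ) (sys τ) h a := by
    rw [mono, List.map_cons, List.map_nil, List.prod_cons, List.prod_nil, mul_one]
  rw [h2] at h1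
  rw [h1]
  simp

theorem kap_nil_mul (hρ : Function.Injective ρ) (x y : GA ρ (sys σ) (sys τ) h) :
    kap ρ (sys σ) (sys τ) h hρ [] (x * y) =
      kap ρ (sys σ) (sys τ) h hρ [] x * kap ρ (sys σ) (sys τ) h hρ [] y := by
  apply hρ
  rw [rho_kap, map_mul ρ, rho_kap, rho_kap]
  exact cf_nil_mul ρ (sys σ) _ _ x.2.1

theorem norm_kap_nil (hρ : Function.Injective ρ) (x : GA ρ (sys σ) (sys τ) h) :
    ‖kap ρ (sys σ) (sys τ) h hρ [] x‖ ≤ ‖x‖ := by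
  rw [← NonUnitalStarAlgHom.norm_map ρ hρ, rho_kap]
  refine (norm_cf_nil _).trans ?_
  exact (norm_fst_le (x : CC H).1).trans (norm_fst_le (x : CC H))

theorem diag_iff (hρ : Function.Injective ρ) (z : GA ρ (sys σ) (sys τ) h) :
    star (z : CC H) ∈ GA ρ (sys σ) (sys τ) h ↔ z ∈ Set.range (iG ρ (sys σ) (sys τ) h) := by
  constructor
  · intro hz
    obtain ⟨a, ha⟩ := diagT ρ (sys σ) hρ _ z.2.1 hz.1
    obtain ⟨b, hb⟩ := diagT ρ (sys τ) hρ _ z.2.2.1 hz.2.1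
    have h1 : star (Rf V1 V2 (c0 (z : CC H).1.1) (c0 (z : CC H).1.2)) =
        Rf V1 V2 (c0 (star (z : CC H).1.1)) (c0 (star (z : CC H).1.2)) := by
      have e1 : (z : CC H).2.1 = Rf V1 V2 (c0 (z : CC H).1.1) (c0 (z : CC H).1.2) :=
        congrArg (fun w : CC H => w.2.1) z.2.2.2
      have e2 : (star (z : CC H)).2.1 =
          Rf V1 V2 (c0 (star (z : CC H)).1.1) (c0 (star (z : CC H)).1.2) :=
        congrArg (fun w : CC H => w.2.1) hz.2.2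
      rw [← e1]
      exact e2
    have h2 := Rf_diag h _ _ _ _ h1
    rw [ha, hb, ← map_star, ← map_star] at h2
    have h3 : ρ (star a) = ρ (star b) := by
      rw [← cf_nil_Pi ρ (sys σ) (star a), ← cf_nil_Pi ρ (sys τ) (star b)]
      exact h2
    have h4 : a = b := star_injective (hρ h3)
    refine ⟨a, Subtype.ext ?_⟩
    rw [iG_coe, z.2.2.2, ha, hb, ← h4]
  · rintro ⟨a, rfl⟩
    have : star (iG ρ (sys σ) (sys τ) h a : CC H) = iC ρ (sys σ) (sys τ) h (star a) :=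
      (map_star (iC ρ (sys σ) (sys τ) h) a).symm
    rw [this]
    exact iC_mem ρ (sys σ) (sys τ) h (star a)

/-- left multiplication -/
noncomputable def mulL {R : Type} [NormedRing R] [NormedAlgebra ℂ R] (s : R) : R →L[ℂ] R :=
  ⟨LinearMap.mulLeft ℂ s, continuous_const.mul continuous_id⟩

theorem mulL_apply {R : Type} [NormedRing R] [NormedAlgebra ℂ R] (s x : R) :
    mulL s x = s * x := rfl

/-- the idempotents `F i` -/
noncomputable def Fop (hρ : Function.Injective ρ) (i : Fin 2) :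
    GA ρ (sys σ) (sys τ) h →L[ℂ] GA ρ (sys σ) (sys τ) h :=
  (mulL (sG ρ σ τ r0 r1 h i)).comp
      ((iL ρ (sys σ) (sys τ) h).comp ((dd i)⁻¹ • kap ρ (sys σ) (sys τ) h hρ [i]))

theorem Fop_apply (hρ : Function.Injective ρ) (i : Fin 2) (x : GA ρ (sys σ) (sys τ) h) :
    Fop ρ σ τ r0 r1 h hρ i x = sG ρ σ τ r0 r1 h i * iG ρ (sys σ) (sys τ) h
          ((dd i)⁻¹ • kap ρ (sys σ) (sys τ) h hρ [i] x) := by
  rw [Fop, ContinuousLinearMap.comp_apply, ContinuousLinearMap.comp_apply, mulL_apply, iL_apply,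
    ContinuousLinearMap.smul_apply]

theorem Fop_fix (hρ : Function.Injective ρ) (i : Fin 2) (a : A) :
    Fop ρ σ τ r0 r1 h hρ i (sG ρ σ τ r0 r1 h i * iG ρ (sys σ) (sys τ) h a) =
      sG ρ σ τ r0 r1 h i * iG ρ (sys σ) (sys τ) h a := by
  rw [Fop_apply, kap_s, smul_smul, inv_mul_cancel₀ (dd_ne i), one_smul]

/-- the glued algebra is associated with the system `(id, σ)` -/
theorem assoc_main (hρ : Function.Injective ρ) (hσ : Function.Injective σ)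
    (hτ : Function.Injective τ) (hD : Dom σ τ r0 r1 q l) :
    Associated (sys σ) (GA ρ (sys σ) (sys τ) h) := by
  refine ⟨GA_closed ρ _ _ h, iG ρ (sys σ) (sys τ) h, sG ρ σ τ r0 r1 h,
    (iL ρ (sys σ) (sys τ) h).comp (kap ρ (sys σ) (sys τ) h hρ []),
    Fop ρ σ τ r0 r1 h hρ,
    ⟨iG_inj ρ _ _ h hρ, ?_, diag_iff ρ σ τ h hρ⟩, ⟨?_, ?_, ?_, ?_, ?_⟩,
    ⟨cov ρ σ τ r0 r1 q l h hD, nzd_left ρ σ τ r0 r1 q l h hD,
      nzd_right ρ σ τ r0 r1 q l h hρ hσ hτ hD⟩, dense ρ σ τ r0 r1 q l h hD, ?_⟩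
  · intro a
    exact map_star (iC ρ (sys σ) (sys τ) h) a
  · intro x
    rw [ContinuousLinearMap.comp_apply, ContinuousLinearMap.comp_apply, iL_apply, iL_apply,
      kap_iG]
  · ext z
    constructor
    · rintro ⟨x, rfl⟩
      exact ⟨_, rfl⟩
    · rintro ⟨a, rfl⟩
      refine ⟨iG ρ (sys σ) (sys τ) h a, ?_⟩
      rw [ContinuousLinearMap.comp_apply, kap_iG, iL_apply]
  · intro x
    rw [ContinuousLinearMap.comp_apply, iL_apply]
    exact (iG_norm_le ρ _ _ h _).trans (norm_kap_nil ρ σ τ h hρ x)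
  · intro x y
    rw [ContinuousLinearMap.comp_apply, ContinuousLinearMap.comp_apply,
      ContinuousLinearMap.comp_apply, iL_apply, iL_apply, iL_apply, kap_nil_mul, map_mul]
  · intro w a hw
    rw [ContinuousLinearMap.comp_apply, kap_mono_ne ρ σ τ r0 r1 h hρ [] w (Ne.symm hw), map_zero]
  · intro i
    refine ⟨fun x => ?_, fun a => Fop_fix ρ σ τ r0 r1 h hρ i a, fun w a hw => ?_⟩
    · rw [Fop_apply ρ σ τ r0 r1 h hρ i x, Fop_fix]
    · rw [Fop_apply, kap_mono_ne ρ σ τ r0 r1 h hρ [i] w (Ne.symm hw), smul_zero, map_zero,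
        mul_zero]

end Pool.Agent.V1190.CI
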