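import Mathlib

/-!
Parity of the index.
-/

namespace Pool.Agent.V1190.CI

open LinearMap

variable {V : Type} [AddCommGroup V] [Module ℂ V]

theorem parity_aux (g f w : V →ₗ[ℂ] V) (s : V ≃ₗ[ℂ] V)
    (hf : f = s.toLinearMap ∘ₗ g ∘ₗ s.symm.toLinearMap) (hcomm : g ∘ₗ f = f ∘ₗ g)
    (hfin : FiniteDimensional ℂ (LinearMap.range (w - g ∘ₗ f)))
    (hinj : Function.Injective w) (hco : FiniteDimensional ℂ (V ⧸ LinearMap.range w))
    (h1 : Module.finrank ℂ (V ⧸ LinearMap.range w) = 1) : False := by
  set B : V →ₗ[ℂ] V := g ∘ₗ f with hB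
  set N : Submodule ℂ V := LinearMap.ker (w - B) with hN
  have hVN : FiniteDimensional ℂ (V ⧸ N) :=
    LinearEquiv.finiteDimensional (w - B).quotKerEquivRange.symm
  have hwN : w ∘ₗ N.subtype = B ∘ₗ N.subtype := by
    ext x
    have h0 : (w - B) (x : V) = 0 := x.2
    rw [LinearMap.sub_apply, sub_eq_zero] at h0
    exact h0
  have hkN : FiniteDimensional ℂ (LinearMap.ker N.subtype) := by
    rw [Submodule.ker_subtype]; infer_instance
  have hrN : FiniteDimensional ℂ (V ⧸ LinearMap.range N.subtype) := by
    rw [Submodule.range_subtype]; exact hVN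
  have hkw : FiniteDimensional ℂ (LinearMap.ker w) := by
    rw [LinearMap.ker_eq_bot.2 hinj]; infer_instance
  -- kernel of B
  have hkB : FiniteDimensional ℂ (LinearMap.ker B) := by
    refine FiniteDimensional.of_injective (N.mkQ ∘ₗ (LinearMap.ker B).subtype) ?_
    rw [← LinearMap.ker_eq_bot, LinearMap.ker_eq_bot']
    intro x hx
    have hxN : (x : V) ∈ N := by
      rw [LinearMap.comp_apply, Submodule.mkQ_apply, Submodule.Quotient.mk_eq_zero] at hx
      exact hx
    have h2 : w x = 0 := by
      rw [hN, LinearMap.mem_ker, LinearMap.sub_apply, sub_eq_zero] at hxN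
      rw [hxN]
      exact x.2
    exact Subtype.ext (hinj (by rw [h2]; exact (map_zero w).symm))
  have hcw : FiniteDimensional ℂ (V ⧸ LinearMap.range (w ∘ₗ N.subtype)) := by
    rw [LinearMap.range_comp]; infer_instance
  have hquot : ∀ S T : Submodule ℂ V, S ≤ T → FiniteDimensional ℂ (V ⧸ S) →
      FiniteDimensional ℂ (V ⧸ T) := fun S T hST hS =>
    Module.Finite.of_surjective (Submodule.factor hST) (Submodule.factor_surjective hST)
  have hcB : FiniteDimensional ℂ (V ⧸ LinearMap.range B) := by
    refine hquot _ _ ?_ hcw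
    rw [hwN]
    exact LinearMap.range_comp_le_range _ _
  -- index of w equals index of B
  have i1 := LinearMap.index_comp (f := N.subtype) w
  have i2 := LinearMap.index_comp (f := N.subtype) B
  rw [hwN] at i1
  have i3 : w.index = B.index := by linarith
  have i4 : w.index = -1 := by
    rw [LinearMap.index_of_injective hinj, h1]
    rfl
  -- B has even index
  have hkf : FiniteDimensional ℂ (LinearMap.ker f) :=
    Submodule.finiteDimensional_of_le (LinearMap.ker_le_ker_comp f g)
  have hkg : FiniteDimensional ℂ (LinearMap.ker g) := by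
    refine Submodule.finiteDimensional_of_le (S₂ := LinearMap.ker B) ?_
    rw [hcomm]
    exact LinearMap.ker_le_ker_comp g f
  have hcg : FiniteDimensional ℂ (V ⧸ LinearMap.range g) :=
    hquot _ _ (LinearMap.range_comp_le_range f g) hcB
  have hcf : FiniteDimensional ℂ (V ⧸ LinearMap.range f) := by
    refine hquot _ _ ?_ hcB
    rw [hcomm]
    exact LinearMap.range_comp_le_range g f
  have i5 := LinearMap.index_comp (f := f) g
  have i6 : f.index = g.index := by
    have k1 : FiniteDimensional ℂ (LinearMap.ker s.symm.toLinearMap) := by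
      rw [LinearEquiv.ker]; infer_instance
    have k2 : FiniteDimensional ℂ (LinearMap.ker s.toLinearMap) := by
      rw [LinearEquiv.ker]; infer_instance
    have c1 : FiniteDimensional ℂ (V ⧸ LinearMap.range s.symm.toLinearMap) := by
      rw [LinearEquiv.range]; infer_instance
    have c2 : FiniteDimensional ℂ (V ⧸ LinearMap.range s.toLinearMap) := by
      rw [LinearEquiv.range]; infer_instance
    have k3 : FiniteDimensional ℂ (LinearMap.ker (g ∘ₗ s.symm.toLinearMap)) := by
      rw [LinearMap.ker_comp]; infer_instance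
    have c3 : FiniteDimensional ℂ (V ⧸ LinearMap.range (g ∘ₗ s.symm.toLinearMap)) := by
      rw [LinearMap.range_comp]; infer_instance
    have j1 := LinearMap.index_comp (f := s.symm.toLinearMap) g
    have j2 := LinearMap.index_comp (f := g ∘ₗ s.symm.toLinearMap) s.toLinearMap
    rw [← hf] at j2
    rw [j2, j1, LinearEquiv.index_eq_zero, LinearEquiv.index_eq_zero]
    ring
  have i7 : B.index = g.index + f.index := i5
  have e : (-1 : ℤ) = g.index + g.index := by
    rw [← i4, i3, i7, i6]
  generalize g.index = m at e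
  omega

end Pool.Agent.V1190.CI
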