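import Mathlib
import Pool.Agent.V1190.CI.Glue
import Pool.Agent.V1190.CI.Assoc

/-!
Identities in a C*-algebra containing a Cuntz pair, an isometry of corank two and matrix units.
-/

namespace Pool.Agent.V1190.CI

/-- the data -/
structure Dat {B : Type} [CStarAlgebra B] (v1 v2 S e11 e12 e21 e22 : B) : Prop where
  cz : Cuntz v1 v2
  s1 : star S * S = 1
  s2 : S * star S = 1 - e11 - e22
  a11 : e11 * e11 = e11
  a12 : e11 * e12 = e12
  a13 : e12 * e21 = e11
  a14 : e12 * e22 = e12
  a21 : e21 * e11 = e21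
  a22 : e21 * e12 = e22
  a23 : e22 * e21 = e21
  a24 : e22 * e22 = e22
  z1 : e11 * e21 = 0
  z2 : e11 * e22 = 0
  z3 : e12 * e11 = 0
  z4 : e12 * e12 = 0
  z5 : e21 * e21 = 0
  z6 : e21 * e22 = 0
  z7 : e22 * e11 = 0
  z8 : e22 * e12 = 0
  t11 : star e11 = e11
  t12 : star e12 = e21
  t21 : star e21 = e12
  t22 : star e22 = e22

/-- orthogonal decomposition `p + q + u u* = 1` -/
structure PQU {B : Type} [CStarAlgebra B] (p q u : B) : Prop where
  pp : p * p = p
  ps : star p = p
  qq : q * q = q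
  qs : star q = q
  uu : star u * u = 1
  pq : p * q = 0
  qp : q * p = 0
  pu : p * u = 0
  qu : q * u = 0
  sum : p + q + u * star u = 1

section

variable {B : Type} [CStarAlgebra B] {v1 v2 S e11 e12 e21 e22 : B}

theorem Dat.se11 (h : Dat v1 v2 S e11 e12 e21 e22) : star S * e11 = 0 := by
  have h1 : star S * (S * star S) * e11 = star S * e11 := by
    rw [← mul_assoc, h.s1, one_mul]
  rw [h.s2, mul_assoc, sub_mul, sub_mul, one_mul, h.a11, h.z7, sub_self, sub_zero, mul_zero] at h1
  exact h1.symm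

theorem Dat.se12 (h : Dat v1 v2 S e11 e12 e21 e22) : star S * e12 = 0 := by
  rw [← h.a12, ← mul_assoc, h.se11, zero_mul]

theorem Dat.se22 (h : Dat v1 v2 S e11 e12 e21 e22) : star S * e22 = 0 := by
  have h1 : star S * (S * star S) * e22 = star S * e22 := by
    rw [← mul_assoc, h.s1, one_mul]
  rw [h.s2, mul_assoc, sub_mul, sub_mul, one_mul, h.z2, h.a24, sub_zero, sub_self, mul_zero] at h1
  exact h1.symm

theorem Dat.se21 (h : Dat v1 v2 S e11 e12 e21 e22) : star S * e21 = 0 := by
  rw [← h.a23, ← mul_assoc, h.se22, zero_mul]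

theorem Dat.e11S (h : Dat v1 v2 S e11 e12 e21 e22) : e11 * S = 0 := by
  have := congrArg star h.se11
  rwa [star_mul, star_star, h.t11, star_zero] at this

theorem Dat.e12S (h : Dat v1 v2 S e11 e12 e21 e22) : e12 * S = 0 := by
  have := congrArg star h.se21
  rwa [star_mul, star_star, h.t21, star_zero] at this

theorem Dat.e21S (h : Dat v1 v2 S e11 e12 e21 e22) : e21 * S = 0 := by
  have := congrArg star h.se12
  rwa [star_mul, star_star, h.t12, star_zero] at this

theorem Dat.e22S (h : Dat v1 v2 S e11 e12 e21 e22) : e22 * S = 0 := by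
  have := congrArg star h.se22
  rwa [star_mul, star_star, h.t22, star_zero] at this

theorem ext_mul {x y z : B} (h : x * y = z) (w : B) : x * (y * w) = z * w := by
  rw [← mul_assoc, h]

theorem sum3 (h : Cuntz v1 v2) :
    v1 * star v1 + v2 * (v1 * (star v1 * star v2)) + v2 * (v2 * (star v2 * star v2)) = 1 := by
  have h1 : v2 * (v1 * (star v1 * star v2)) + v2 * (v2 * (star v2 * star v2)) =
      v2 * (v1 * star v1 + v2 * star v2) * star v2 := by noncomm_ring
  rw [add_assoc, h1, h.2.2.2.2, mul_one]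
  exact h.2.2.2.2

/-- projections and isometries -/
def Pp (v1 : B) : B := v1 * star v1

/-- projections and isometries -/
def QpA (v1 v2 : B) : B := v2 * (v1 * (star v1 * star v2))

/-- projections and isometries -/
def Uu (v2 : B) : B := v2 * v2

/-- projections and isometries -/
def P' (v1 e11 : B) : B := v1 * star v1 - v1 * (e11 * star v1)

/-- projections and isometries -/
def Q' (v1 v2 e11 : B) : B := v2 * (v1 * (star v1 * star v2)) + v1 * (e11 * star v1)

/-- intertwiner -/
def R0 (v1 v2 S e11 : B) : B :=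
  v1 * star v1 - v1 * (e11 * star v1) + v2 * (v1 * (star S * (star v1 * star v2))) +
    v1 * (e11 * (star v1 * star v2)) + v2 * (v2 * (star v2 * star v2))

/-- intertwiner -/
def R1 (v1 v2 e12 e21 : B) : B :=
  v1 * (e21 * star v1) + v2 * (v1 * (e12 * (star v1 * star v2)))

/-- intertwiner -/
def R0' (v1 v2 S : B) : B :=
  v1 * (star S * star v1) + v2 * (v1 * (star v1 * star v2)) + v2 * (v2 * (star v2 * star v2))

/-- intertwiner -/
def R1' (v1 v2 e11 e12 : B) : B :=
  v1 * (e12 * star v1) + v2 * (v1 * (e11 * star v1))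

/-- the conditions on intertwiners -/
structure Mv (p q p' q' u x0 x1 : B) : Prop where
  a1 : p' * x0 = x0 * p
  a2 : q' * x0 = x0 * q
  a3 : star u * x0 = star u
  a4 : x0 * u = u
  b1 : p' * x1 = x1 * p
  b2 : q' * x1 = x1 * q
  b3 : star u * x1 = 0
  b4 : x1 * u = 0
  c1 : x0 * star x0 = 1
  c2 : star x0 * x0 + star x1 * x1 = 1

theorem pqu_cuntz (h : Cuntz v1 v2) : PQU (Pp v1) (QpA v1 v2) (Uu v2) := by
  have h' := h
  obtain ⟨c11, c22, c12, c21, -⟩ := h'
  have d11 := ext_mul c11
  have d22 := ext_mul c22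
  have d12 := ext_mul c12
  have d21 := ext_mul c21
  constructor
  all_goals simp only [Pp, QpA, Uu, mul_add, add_mul, mul_sub, sub_mul, mul_assoc, star_add,
    star_sub, star_mul, star_star, c11, c22, c12, c21, d11, d22, d12, d21, zero_mul, mul_zero,
    one_mul, mul_one, add_zero, zero_add, sub_zero]
  exact sum3 h

theorem pqu (h : Dat v1 v2 S e11 e12 e21 e22) : PQU (Pp v1) (QpA v1 v2) (Uu v2) :=
  pqu_cuntz h.cz

theorem pqu' (h : Dat v1 v2 S e11 e12 e21 e22) : PQU (P' v1 e11) (Q' v1 v2 e11) (Uu v2) := by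
  obtain ⟨c11, c22, c12, c21, -⟩ := h.cz
  have d11 := ext_mul c11
  have d22 := ext_mul c22
  have d12 := ext_mul c12
  have d21 := ext_mul c21
  have f11 := ext_mul h.a11
  constructor
  all_goals simp only [P', Q', Uu, mul_add, add_mul, mul_sub, sub_mul, mul_assoc, star_add,
    star_sub, star_mul, star_star, c11, c22, c12, c21, d11, d22, d12, d21, zero_mul, mul_zero,
    one_mul, mul_one, add_zero, zero_add, sub_zero, h.t11, h.a11, f11, sub_self]
  have := sum3 h.cz
  rw [← this]
  abel

theorem mv (h : Dat v1 v2 S e11 e12 e21 e22) :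
    Mv (Pp v1) (QpA v1 v2) (P' v1 e11) (Q' v1 v2 e11) (Uu v2) (R0 v1 v2 S e11)
      (R1 v1 v2 e12 e21) := by
  obtain ⟨c11, c22, c12, c21, -⟩ := h.cz
  have d11 := ext_mul c11
  have d22 := ext_mul c22
  have d12 := ext_mul c12
  have d21 := ext_mul c21
  have f11 := ext_mul h.a11
  have f12 := ext_mul h.a12
  have f13 := ext_mul h.a13
  have f22 := ext_mul h.a22
  have f23 := ext_mul h.a23
  have f21 := ext_mul h.a21
  have f1 := ext_mul h.z1
  have f3 := ext_mul h.z3
  have f5 := ext_mul h.z5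
  have g1 := ext_mul h.se11
  have g2 := ext_mul h.se12
  have g3 := ext_mul h.se21
  have g4 := ext_mul h.e11S
  have g5 := ext_mul h.e12S
  have g6 := ext_mul h.e21S
  have s1 := ext_mul h.s1
  have s2 := ext_mul h.s2
  have key := sum3 h.cz
  constructor
  all_goals simp only [Pp, QpA, P', Q', Uu, R0, R1, mul_add, add_mul, mul_sub, sub_mul, mul_assoc,
    star_add, star_sub, star_mul, star_star, c11, c22, c12, c21, d11, d22, d12, d21, zero_mul,
    mul_zero, one_mul, mul_one, add_zero, zero_add, sub_zero, zero_sub, h.t11, h.t12, h.t21,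
    h.a11, f11, h.a12, f12, h.a13, f13, h.a22, f22, h.a23, f23, h.a21, f21, h.z1, f1, h.z3, f3,
    h.z5, f5, h.se11, g1, h.se12, g2, h.se21, g3, h.e11S, g4, h.e12S, g5, h.e21S, g6, h.s1, s1,
    h.s2, s2, sub_self]
  all_goals try abel
  all_goals rw [← key]
  all_goals abel

theorem mv' (h : Dat v1 v2 S e11 e12 e21 e22) :
    Mv (P' v1 e11) (Q' v1 v2 e11) (Pp v1) (QpA v1 v2) (Uu v2) (R0' v1 v2 S)
      (R1' v1 v2 e11 e12) := by
  obtain ⟨c11, c22, c12, c21, -⟩ := h.cz
  have d11 := ext_mul c11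
  have d22 := ext_mul c22
  have d12 := ext_mul c12
  have d21 := ext_mul c21
  have f11 := ext_mul h.a11
  have f12 := ext_mul h.a12
  have f13 := ext_mul h.a13
  have f22 := ext_mul h.a22
  have f23 := ext_mul h.a23
  have f21 := ext_mul h.a21
  have f1 := ext_mul h.z1
  have f3 := ext_mul h.z3
  have f5 := ext_mul h.z5
  have g1 := ext_mul h.se11
  have g2 := ext_mul h.se12
  have g3 := ext_mul h.se21
  have g4 := ext_mul h.e11S
  have g5 := ext_mul h.e12S
  have g6 := ext_mul h.e21S
  have s1 := ext_mul h.s1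
  have s2 := ext_mul h.s2
  have key := sum3 h.cz
  constructor
  all_goals simp only [Pp, QpA, P', Q', Uu, R0', R1', mul_add, add_mul, mul_sub, sub_mul, mul_assoc,
    star_add, star_sub, star_mul, star_star, c11, c22, c12, c21, d11, d22, d12, d21, zero_mul,
    mul_zero, one_mul, mul_one, add_zero, zero_add, sub_zero, zero_sub, h.t11, h.t12, h.t21,
    h.a11, f11, h.a12, f12, h.a13, f13, h.a22, f22, h.a23, f23, h.a21, f21, h.z1, f1, h.z3, f3,
    h.z5, f5, h.se11, g1, h.se12, g2, h.se21, g3, h.e11S, g4, h.e12S, g5, h.e21S, g6, h.s1, s1,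
    h.s2, s2, sub_self]
  all_goals try abel
  all_goals rw [← key]
  all_goals abel

end

end Pool.Agent.V1190.CI
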