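import Mathlib
import Pool.Agent.V1190.CI.Ident

/-!
Endomorphisms of `ℂ × ℂ × B`.
-/

namespace Pool.Agent.V1190.CI

variable {B C : Type} [CStarAlgebra B] [CStarAlgebra C]

theorem PQU.up {p q u : C} (h : PQU p q u) : star u * p = 0 := by
  have := congrArg star h.pu
  rwa [star_mul, h.ps, star_zero] at this

theorem PQU.uq {p q u : C} (h : PQU p q u) : star u * q = 0 := by
  have := congrArg star h.qu
  rwa [star_mul, h.qs, star_zero] at this

/-- the homomorphism `(ζ, η, x) ↦ ζ p + η q + u j(x) u*` -/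
noncomputable def mk3 {p q u : C} (h : PQU p q u) (j : B →⋆ₐ[ℂ] C) : (ℂ × ℂ × B) →⋆ₐ[ℂ] C where
  toFun z := z.1 • p + z.2.1 • q + u * j z.2.2 * star u
  map_one' := by
    show (1 : ℂ) • p + (1 : ℂ) • q + u * j 1 * star u = 1
    rw [one_smul, one_smul, map_one, mul_one, h.sum]
  map_mul' z w := by
    show (z.1 * w.1) • p + (z.2.1 * w.2.1) • q + u * j (z.2.2 * w.2.2) * star u =
      (z.1 • p + z.2.1 • q + u * j z.2.2 * star u) * (w.1 • p + w.2.1 • q + u * j w.2.2 * star u)
    have e1 := ext_mul h.pu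
    have e2 := ext_mul h.qu
    have e3 := ext_mul h.uu
    simp only [mul_add, add_mul, smul_mul_assoc, mul_smul_comm, mul_assoc, h.pp, h.qq, h.pq, h.qp,
      e1, e2, e3, h.up, h.uq, map_mul, zero_mul, mul_zero, smul_zero, add_zero, zero_add, one_mul,
      smul_smul]
    rw [mul_comm z.1, mul_comm z.2.1]
  map_zero' := by
    show (0 : ℂ) • p + (0 : ℂ) • q + u * j 0 * star u = 0
    rw [zero_smul, zero_smul, map_zero, mul_zero, zero_mul, add_zero, add_zero]
  map_add' z w := by
    show (z.1 + w.1) • p + (z.2.1 + w.2.1) • q + u * j (z.2.2 + w.2.2) * star u =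
      (z.1 • p + z.2.1 • q + u * j z.2.2 * star u) + (w.1 • p + w.2.1 • q + u * j w.2.2 * star u)
    rw [map_add, mul_add, add_mul, add_smul, add_smul]
    abel
  commutes' c := by
    show c • p + c • q + u * j (algebraMap ℂ B c) * star u = algebraMap ℂ C c
    rw [AlgHomClass.commutes, Algebra.algebraMap_eq_smul_one, mul_smul_comm, smul_mul_assoc,
      mul_one, ← smul_add, ← smul_add, h.sum]
  map_star' z := by
    show star z.1 • p + star z.2.1 • q + u * j (star z.2.2) * star u =
      star (z.1 • p + z.2.1 • q + u * j z.2.2 * star u)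
    rw [star_add, star_add, star_smul, star_smul, h.ps, h.qs, star_mul, star_mul, star_star,
      map_star, mul_assoc]

theorem mk3_apply {p q u : C} (h : PQU p q u) (j : B →⋆ₐ[ℂ] C) (z : ℂ × ℂ × B) :
    mk3 h j z = z.1 • p + z.2.1 • q + u * j z.2.2 * star u := rfl

theorem mk3_inj {p q u : C} (h : PQU p q u) (j : B →⋆ₐ[ℂ] C) (hj : Function.Injective j)
    (hp : p ≠ 0) (hq : q ≠ 0) : Function.Injective (mk3 h j) := by
  rw [injective_iff_map_eq_zero]
  intro z hz
  rw [mk3_apply] at hz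
  have e1 := ext_mul h.pu
  have e2 := ext_mul h.qu
  have e3 := ext_mul h.uu
  have h1 : z.1 • p = 0 := by
    have := congrArg (fun x => p * x) hz
    simpa only [mul_add, mul_smul_comm, mul_assoc, h.pp, h.pq, e1, zero_mul, smul_zero, add_zero,
      mul_zero] using this
  have h2 : z.2.1 • q = 0 := by
    have := congrArg (fun x => q * x) hz
    simpa only [mul_add, mul_smul_comm, mul_assoc, h.qq, h.qp, e2, zero_mul, smul_zero, add_zero,
      zero_add, mul_zero] using this
  have h3 : j z.2.2 = 0 := by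
    have := congrArg (fun x => star u * (x * u)) hz
    simpa only [mul_add, add_mul, smul_mul_assoc, mul_smul_comm, mul_assoc, h.pu, h.qu, h.uu, e3,
      zero_mul, smul_zero, add_zero, zero_add, mul_zero, mul_one, one_mul] using this
  have h4 : z.1 = 0 := (smul_eq_zero.1 h1).resolve_right hp
  have h5 : z.2.1 = 0 := (smul_eq_zero.1 h2).resolve_right hq
  have h6 : z.2.2 = 0 := hj (by rw [h3, map_zero])
  exact Prod.ext h4 (Prod.ext h5 h6)

/-- the endomorphism `(ζ, η, x) ↦ (ζ, η, ζ p + η q + u x u*)` -/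
noncomputable def endo {p q u : B} (h : PQU p q u) : (ℂ × ℂ × B) →⋆ₐ[ℂ] (ℂ × ℂ × B) where
  toFun z := (z.1, z.2.1, mk3 h (StarAlgHom.id ℂ B) z)
  map_one' := by rw [map_one]; rfl
  map_mul' z w := by rw [map_mul]; rfl
  map_zero' := by rw [map_zero]; rfl
  map_add' z w := by rw [map_add]; rfl
  commutes' c := by rw [AlgHomClass.commutes]; rfl
  map_star' z := by rw [map_star]; rfl

theorem endo_apply {p q u : B} (h : PQU p q u) (z : ℂ × ℂ × B) :
    endo h z = (z.1, z.2.1, z.1 • p + z.2.1 • q + u * z.2.2 * star u) := rfl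

theorem endo_inj {p q u : B} (h : PQU p q u) : Function.Injective (endo h) := by
  rw [injective_iff_map_eq_zero]
  intro z hz
  rw [endo_apply] at hz
  have h4 : z.1 = 0 := congrArg Prod.fst hz
  have h5 : z.2.1 = 0 := congrArg (fun w : ℂ × ℂ × B => w.2.1) hz
  have h6 : z.1 • p + z.2.1 • q + u * z.2.2 * star u = 0 :=
    congrArg (fun w : ℂ × ℂ × B => w.2.2) hz
  rw [h4, h5, zero_smul, zero_smul, zero_add, zero_add] at h6
  have e3 := ext_mul h.uu
  have h7 : z.2.2 = 0 := by
    have := congrArg (fun x => star u * (x * u)) h6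
    simpa only [mul_assoc, h.uu, e3, zero_mul, mul_zero, mul_one, one_mul] using this
  exact Prod.ext h4 (Prod.ext h5 h7)

theorem dom_of_mv {p q p' q' u x0 x1 : B} (h : PQU p q u) (h' : PQU p' q' u)
    (m : Mv p q p' q' u x0 x1) :
    Dom (endo h) (endo h') ((1, 1, x0) : ℂ × ℂ × B) (0, 0, x1) (1, 1, star x0)
      (0, 0, star x1) := by
  have k1 : x1 * star x0 = 0 := by
    rw [← CStarRing.star_mul_self_eq_zero_iff, star_mul, star_star]
    have h1 : star x1 * x1 = 1 - star x0 * x0 := by rw [← m.c2]; abel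
    calc x0 * star x1 * (x1 * star x0) = x0 * (star x1 * x1) * star x0 := by
          simp only [mul_assoc]
      _ = x0 * star x0 - (x0 * star x0) * (x0 * star x0) := by
          rw [h1]; simp only [mul_sub, sub_mul, mul_one, mul_assoc]
      _ = 0 := by rw [m.c1, mul_one, sub_self]
  have f3 := ext_mul m.a3
  have f4 := ext_mul m.a4
  have g4 := ext_mul m.b4
  constructor
  · intro a
    rw [endo_apply, endo_apply]
    show (a.1 * 1, a.2.1 * 1, (a.1 • p' + a.2.1 • q' + u * a.2.2 * star u) * x0) =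
      (1 * a.1, 1 * a.2.1, x0 * (a.1 • p + a.2.1 • q + u * a.2.2 * star u))
    rw [mul_one, mul_one, one_mul, one_mul]
    simp only [mul_add, add_mul, smul_mul_assoc, mul_smul_comm, mul_assoc, m.a1, m.a2, m.a3, f4]
  · intro a
    rw [endo_apply, endo_apply]
    show (a.1 * 0, a.2.1 * 0, (a.1 • p' + a.2.1 • q' + u * a.2.2 * star u) * x1) =
      (0 * a.1, 0 * a.2.1, x1 * (a.1 • p + a.2.1 • q + u * a.2.2 * star u))
    rw [mul_zero, mul_zero, zero_mul, zero_mul]
    simp only [mul_add, add_mul, smul_mul_assoc, mul_smul_comm, mul_assoc, m.b1, m.b2, m.b3, g4,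
      mul_zero, zero_mul]
  · show ((1 : ℂ) * 1, (1 : ℂ) * 1, x0 * star x0) = 1
    rw [m.c1, mul_one]
    rfl
  · show ((0 : ℂ) * 1, (0 : ℂ) * 1, x1 * star x0) = 0
    rw [k1, zero_mul]
    rfl
  · show ((1 : ℂ) * 1 + 0 * 0, (1 : ℂ) * 1 + 0 * 0, star x0 * x0 + star x1 * x1) = 1
    rw [m.c2, mul_one, mul_zero, add_zero]
    rfl

end Pool.Agent.V1190.CI
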