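import Mathlib
import Pool.Agent.V1190.CI.Sys
import Pool.Agent.V1190.CI.Parity

/-!
The C*-algebra of operators on `H ≅ H₀ ⊕ H₀` of the form `b ⊕ b + compact`.
-/

namespace Pool.Agent.V1190.CI

open scoped InnerProductSpace

variable {H : Type} [NormedAddCommGroup H] [InnerProductSpace ℂ H] [CompleteSpace H]

/-- rank one operator `z ↦ ⟪y, z⟫ x` -/
noncomputable def th (x y : H) : BH H := (innerSL ℂ y).smulRight x

theorem th_apply (x y z : H) : th x y z = ⟪y, z⟫_ℂ • x := rfl

theorem mul_th (a : BH H) (x y : H) : a * th x y = th (a x) y := by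
  ext z
  show a (⟪y, z⟫_ℂ • x) = ⟪y, z⟫_ℂ • a x
  rw [map_smul]

theorem star_th (x y : H) : star (th x y) = th y x := by
  rw [ContinuousLinearMap.star_eq_adjoint]
  symm
  refine (ContinuousLinearMap.eq_adjoint_iff _ _).2 fun z w => ?_
  rw [th_apply, th_apply, inner_smul_left, inner_smul_right, inner_conj_symm]
  ring

theorem th_mul (a : BH H) (x y : H) : th x y * a = th x (star a y) := by
  have := congrArg star (mul_th (star a) y x)
  rwa [star_mul, star_star, star_th, star_th] at this

/-- finite rank operators with finite rank adjoint -/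
noncomputable def FR (H : Type) [NormedAddCommGroup H] [InnerProductSpace ℂ H] [CompleteSpace H] :
    Submodule ℂ (BH H) where
  carrier := {F | FiniteDimensional ℂ (LinearMap.range (F : H →ₗ[ℂ] H)) ∧
    FiniteDimensional ℂ (LinearMap.range ((star F : BH H) : H →ₗ[ℂ] H))}
  add_mem' := by
    rintro F G ⟨h1, h2⟩ ⟨h3, h4⟩
    constructor
    · refine Submodule.finiteDimensional_of_le (S₂ := LinearMap.range (F : H →ₗ[ℂ] H) ⊔
        LinearMap.range (G : H →ₗ[ℂ] H)) ?_
      rintro _ ⟨x, rfl⟩
      exact Submodule.add_mem_sup ⟨x, rfl⟩ ⟨x, rfl⟩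
    · rw [star_add]
      refine Submodule.finiteDimensional_of_le (S₂ := LinearMap.range ((star F : BH H) : H →ₗ[ℂ] H) ⊔
        LinearMap.range ((star G : BH H) : H →ₗ[ℂ] H)) ?_
      rintro _ ⟨x, rfl⟩
      exact Submodule.add_mem_sup ⟨x, rfl⟩ ⟨x, rfl⟩
  zero_mem' := by
    constructor
    · have : LinearMap.range ((0 : BH H) : H →ₗ[ℂ] H) = ⊥ := LinearMap.range_zero
      rw [this]; infer_instance
    · have : LinearMap.range ((star (0 : BH H) : BH H) : H →ₗ[ℂ] H) = ⊥ := by
        rw [star_zero]; exact LinearMap.range_zero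
      rw [this]; infer_instance
  smul_mem' := by
    rintro c F ⟨h1, h2⟩
    constructor
    · refine Submodule.finiteDimensional_of_le (S₂ := LinearMap.range (F : H →ₗ[ℂ] H)) ?_
      rintro _ ⟨x, rfl⟩
      exact Submodule.smul_mem _ c ⟨x, rfl⟩
    · rw [star_smul]
      refine Submodule.finiteDimensional_of_le
        (S₂ := LinearMap.range ((star F : BH H) : H →ₗ[ℂ] H)) ?_
      rintro _ ⟨x, rfl⟩
      exact Submodule.smul_mem _ _ ⟨x, rfl⟩

theorem range_mul_fd {a F : BH H} (h : FiniteDimensional ℂ (LinearMap.range (F : H →ₗ[ℂ] H))) :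
    FiniteDimensional ℂ (LinearMap.range ((a * F : BH H) : H →ₗ[ℂ] H)) := by
  have : LinearMap.range ((a * F : BH H) : H →ₗ[ℂ] H) =
      (LinearMap.range (F : H →ₗ[ℂ] H)).map (a : H →ₗ[ℂ] H) := by
    rw [← LinearMap.range_comp]
    rfl
  rw [this]
  infer_instance

theorem range_mul_fd' {a F : BH H} (h : FiniteDimensional ℂ (LinearMap.range (F : H →ₗ[ℂ] H))) :
    FiniteDimensional ℂ (LinearMap.range ((F * a : BH H) : H →ₗ[ℂ] H)) := by
  refine Submodule.finiteDimensional_of_le (S₂ := LinearMap.range (F : H →ₗ[ℂ] H)) ?_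
  rintro _ ⟨x, rfl⟩
  exact ⟨a x, rfl⟩

theorem FR_left (a : BH H) {F : BH H} (h : F ∈ FR H) : a * F ∈ FR H :=
  ⟨range_mul_fd h.1, by rw [star_mul]; exact range_mul_fd' h.2⟩

theorem FR_right (a : BH H) {F : BH H} (h : F ∈ FR H) : F * a ∈ FR H :=
  ⟨range_mul_fd' h.1, by rw [star_mul]; exact range_mul_fd h.2⟩

theorem FR_star {F : BH H} (h : F ∈ FR H) : star F ∈ FR H :=
  ⟨h.2, by rw [star_star]; exact h.1⟩

theorem th_range_fd (x y : H) : FiniteDimensional ℂ (LinearMap.range (th x y : H →ₗ[ℂ] H)) := by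
  refine Submodule.finiteDimensional_of_le (S₂ := Submodule.span ℂ {x}) ?_
  rintro _ ⟨z, rfl⟩
  exact Submodule.smul_mem _ _ (Submodule.mem_span_singleton_self x)

theorem th_FR (x y : H) : th x y ∈ FR H :=
  ⟨th_range_fd x y, by rw [star_th]; exact th_range_fd y x⟩

/-- the closed ideal generated by finite rank operators -/
noncomputable def JJ (H : Type) [NormedAddCommGroup H] [InnerProductSpace ℂ H] [CompleteSpace H] :
    Submodule ℂ (BH H) := (FR H).topologicalClosure

theorem JJ_closed : IsClosed (JJ H : Set (BH H)) := (FR H).isClosed_topologicalClosure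

theorem JJ_left (a : BH H) {F : BH H} (h : F ∈ JJ H) : a * F ∈ JJ H :=
  map_mem_closure (f := fun x : BH H => a * x) (by fun_prop) h fun _ hx => FR_left a hx

theorem JJ_right (a : BH H) {F : BH H} (h : F ∈ JJ H) : F * a ∈ JJ H :=
  map_mem_closure (f := fun x : BH H => x * a) (by fun_prop) h fun _ hx => FR_right a hx

theorem JJ_star {F : BH H} (h : F ∈ JJ H) : star F ∈ JJ H :=
  map_mem_closure (f := fun x : BH H => star x) continuous_star h fun _ hx => FR_star hx

theorem th_JJ (x y : H) : th x y ∈ JJ H := subset_closure (th_FR x y)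

variable {V1 V2 : BH H} (h : Cuntz V1 V2)

/-- the algebra `{b ⊕ b + compact}` -/
noncomputable def A1 : StarSubalgebra ℂ (BH H) where
  carrier := {x | star V1 * x * V2 ∈ JJ H ∧ star V2 * x * V1 ∈ JJ H ∧
    star V1 * x * V1 - star V2 * x * V2 ∈ JJ H}
  mul_mem' := by
    rintro x y ⟨h1, h2, h3⟩ ⟨k1, k2, k3⟩
    have hs : ∀ a b : BH H, a * (x * y) * b =
        (a * x * V1) * (star V1 * y * b) + (a * x * V2) * (star V2 * y * b) := by
      intro a b
      have e : a * (x * y) * b = a * x * (V1 * star V1 + V2 * star V2) * (y * b) := by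
        rw [h.2.2.2.2, mul_one]; simp only [mul_assoc]
      rw [e]
      noncomm_ring
    refine ⟨?_, ?_, ?_⟩
    · rw [hs]
      exact (JJ H).add_mem (JJ_left _ k1) (JJ_right _ h1)
    · rw [hs]
      exact (JJ H).add_mem (JJ_right _ h2) (JJ_left _ k2)
    · rw [hs, hs]
      have e : star V1 * x * V1 * (star V1 * y * V1) + star V1 * x * V2 * (star V2 * y * V1) -
          (star V2 * x * V1 * (star V1 * y * V2) + star V2 * x * V2 * (star V2 * y * V2)) =
          (star V1 * x * V1 - star V2 * x * V2) * (star V1 * y * V1) +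
          (star V2 * x * V2) * (star V1 * y * V1 - star V2 * y * V2) +
          (star V1 * x * V2 * (star V2 * y * V1) - star V2 * x * V1 * (star V1 * y * V2)) := by
        noncomm_ring
      rw [e]
      exact (JJ H).add_mem ((JJ H).add_mem (JJ_right _ h3) (JJ_left _ k3))
        ((JJ H).sub_mem (JJ_right _ h1) (JJ_right _ h2))
  add_mem' := by
    rintro x y ⟨h1, h2, h3⟩ ⟨k1, k2, k3⟩
    refine ⟨?_, ?_, ?_⟩
    · rw [mul_add, add_mul]; exact (JJ H).add_mem h1 k1
    · rw [mul_add, add_mul]; exact (JJ H).add_mem h2 k2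
    · have e : star V1 * (x + y) * V1 - star V2 * (x + y) * V2 =
        (star V1 * x * V1 - star V2 * x * V2) + (star V1 * y * V1 - star V2 * y * V2) := by
        noncomm_ring
      rw [e]; exact (JJ H).add_mem h3 k3
  algebraMap_mem' := by
    intro c
    rw [Algebra.algebraMap_eq_smul_one]
    refine ⟨?_, ?_, ?_⟩
    · rw [mul_smul_comm, smul_mul_assoc, mul_one, h.2.2.1, smul_zero]; exact (JJ H).zero_mem
    · rw [mul_smul_comm, smul_mul_assoc, mul_one, h.2.2.2.1, smul_zero]; exact (JJ H).zero_mem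
    · rw [mul_smul_comm, smul_mul_assoc, mul_one, mul_smul_comm, smul_mul_assoc, mul_one, h.1,
        h.2.1, sub_self]
      exact (JJ H).zero_mem
  star_mem' := by
    rintro x ⟨h1, h2, h3⟩
    refine ⟨?_, ?_, ?_⟩
    · have := JJ_star h2
      rwa [star_mul, star_mul, star_star, ← mul_assoc] at this
    · have := JJ_star h1
      rwa [star_mul, star_mul, star_star, ← mul_assoc] at this
    · have := JJ_star h3
      rwa [star_sub, star_mul, star_mul, star_star, ← mul_assoc, star_mul, star_mul, star_star,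
        ← mul_assoc] at this

theorem mem_A1 {x : BH H} : x ∈ A1 h ↔ star V1 * x * V2 ∈ JJ H ∧ star V2 * x * V1 ∈ JJ H ∧
    star V1 * x * V1 - star V2 * x * V2 ∈ JJ H := Iff.rfl

instance A1_closed : IsClosed (A1 h : Set (BH H)) := by
  have h1 : IsClosed {x : BH H | star V1 * x * V2 ∈ JJ H} :=
    JJ_closed.preimage (f := fun x : BH H => star V1 * x * V2) (by fun_prop)
  have h2 : IsClosed {x : BH H | star V2 * x * V1 ∈ JJ H} :=
    JJ_closed.preimage (f := fun x : BH H => star V2 * x * V1) (by fun_prop)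
  have h3 : IsClosed {x : BH H | star V1 * x * V1 - star V2 * x * V2 ∈ JJ H} :=
    JJ_closed.preimage (f := fun x : BH H => star V1 * x * V1 - star V2 * x * V2) (by fun_prop)
  exact h1.inter (h2.inter h3)


theorem JJ_A1 {x : BH H} (hx : x ∈ JJ H) : x ∈ A1 h :=
  ⟨JJ_right _ (JJ_left _ hx), JJ_right _ (JJ_left _ hx),
    (JJ H).sub_mem (JJ_right _ (JJ_left _ hx)) (JJ_right _ (JJ_left _ hx))⟩

/-- `b ⊕ b` -/
noncomputable def dl (V1 V2 b : BH H) : BH H := V1 * b * star V1 + V2 * b * star V2

theorem dl_mem (b : BH H) : dl V1 V2 b ∈ A1 h := by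
  have h' := h
  obtain ⟨c11, c22, c12, c21, -⟩ := h'
  have d11 := ext_mul c11
  have d22 := ext_mul c22
  have d12 := ext_mul c12
  have d21 := ext_mul c21
  rw [mem_A1]
  simp only [dl, mul_add, add_mul, mul_assoc, c11, c22, c12, c21, d11, d22, d12, d21, mul_zero,
    zero_mul, add_zero, zero_add, one_mul, mul_one, sub_self]
  exact ⟨(JJ H).zero_mem, (JJ H).zero_mem, (JJ H).zero_mem⟩

include h in
theorem dl_mul (b c : BH H) : dl V1 V2 b * dl V1 V2 c = dl V1 V2 (b * c) := by
  obtain ⟨c11, c22, c12, c21, -⟩ := h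
  have d11 := ext_mul c11
  have d22 := ext_mul c22
  have d12 := ext_mul c12
  have d21 := ext_mul c21
  simp only [dl, mul_add, add_mul, mul_assoc, c11, c22, c12, c21, d11, d22, d12, d21, mul_zero,
    zero_mul, add_zero, zero_add, one_mul, mul_one]

theorem dl_star (b : BH H) : star (dl V1 V2 b) = dl V1 V2 (star b) := by
  simp only [dl, star_add, star_mul, star_star, mul_assoc]

include h in
theorem dl_one : dl V1 V2 1 = 1 := by
  rw [dl, mul_one, mul_one]; exact h.2.2.2.2

theorem dl_zero : dl V1 V2 0 = 0 := by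
  simp [dl]

theorem dl_add (b c : BH H) : dl V1 V2 (b + c) = dl V1 V2 b + dl V1 V2 c := by
  simp only [dl, mul_add, add_mul]; abel

/-- every element of `A1` is `b ⊕ b` up to the ideal -/
theorem near_dl {x : BH H} (hx : x ∈ A1 h) : x - dl V1 V2 (star V1 * x * V1) ∈ JJ H := by
  have e : x - dl V1 V2 (star V1 * x * V1) = V1 * (star V1 * x * V2) * star V2 +
      V2 * (star V2 * x * V1) * star V1 - V2 * (star V1 * x * V1 - star V2 * x * V2) * star V2 := by
    have e1 : x = (V1 * star V1 + V2 * star V2) * x * (V1 * star V1 + V2 * star V2) := by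
      rw [h.2.2.2.2, one_mul, mul_one]
    have e2 : V1 * (star V1 * x * V2) * star V2 +
        V2 * (star V2 * x * V1) * star V1 - V2 * (star V1 * x * V1 - star V2 * x * V2) * star V2 =
        (V1 * star V1 + V2 * star V2) * x * (V1 * star V1 + V2 * star V2) -
          dl V1 V2 (star V1 * x * V1) := by
      simp only [dl]
      noncomm_ring
    rw [e2, ← e1]
  rw [e]
  exact (JJ H).sub_mem ((JJ H).add_mem (JJ_right _ (JJ_left _ hx.1))
    (JJ_right _ (JJ_left _ hx.2.1))) (JJ_right _ (JJ_left _ hx.2.2))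

end Pool.Agent.V1190.CI
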