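import Mathlib
import Pool.Agent.V1190.CI.Conc

/-!
No isometry of corank one in `A1`.
-/

namespace Pool.Agent.V1190.CI

open scoped InnerProductSpace

variable {H : Type} [NormedAddCommGroup H] [InnerProductSpace ℂ H] [CompleteSpace H]
variable {V1 V2 : BH H} (h : Cuntz V1 V2)

/-- coercion to linear maps -/
noncomputable abbrev lm (x : BH H) : H →ₗ[ℂ] H := (x : H →ₗ[ℂ] H)

theorem lm_mul (x y : BH H) : lm (x * y) = lm x ∘ₗ lm y := rfl

theorem noIso {y : BH H} (hy : y ∈ A1 h) (ζ : H) (hζ : ζ ≠ 0) (h1 : star y * y = 1)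
    (h2 : y * star y = 1 - th ζ ζ) : False := by
  set b : BH H := star V1 * y * V1 with hb
  have hk : y - dl V1 V2 b ∈ closure (FR H : Set (BH H)) := near_dl h hy
  obtain ⟨F, hF, hd⟩ := Metric.mem_closure_iff.1 hk 1 one_pos
  set w : BH H := dl V1 V2 b + F with hw
  have hyw : y - w = (y - dl V1 V2 b) - F := by rw [hw]; abel
  have hn : ‖y - w‖ < 1 := by rw [hyw, ← dist_eq_norm]; exact hd
  have hy1 : ‖star y‖ ≤ 1 := by
    rw [norm_star]
    have e1 : ‖y‖ * ‖y‖ = ‖(1 : BH H)‖ := by rw [← CStarRing.norm_star_mul_self, h1]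
    have e2 : ‖(1 : BH H)‖ ≤ 1 := ContinuousLinearMap.norm_id_le
    have e3 := norm_nonneg y
    nlinarith
  have hg : star y * w = 1 - star y * (y - w) := by rw [mul_sub, h1]; abel
  have hu : IsUnit (star y * w) := by
    rw [hg]
    refine isUnit_one_sub_of_norm_lt_one ?_
    calc ‖star y * (y - w)‖ ≤ ‖star y‖ * ‖y - w‖ := norm_mul_le _ _
      _ ≤ 1 * ‖y - w‖ := by gcongr
      _ < 1 := by rw [one_mul]; exact hn
  obtain ⟨g, hg'⟩ := hu
  have g1 : (↑g⁻¹ : BH H) * (star y * w) = 1 := by rw [← hg']; exact g.inv_mul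
  have g2 : (star y * w) * (↑g⁻¹ : BH H) = 1 := by rw [← hg']; exact g.mul_inv
  set u : BH H := (↑g⁻¹ : BH H) with hu
  have g1' : ∀ x, u (star y (w x)) = x := fun x => congrArg (fun f : BH H => f x) g1
  have g2' : ∀ x, star y (w (u x)) = x := fun x => congrArg (fun f : BH H => f x) g2
  have hinj : Function.Injective w := by
    intro x x' hxx
    rw [← g1' x, ← g1' x', hxx]
  have hz0 : star y ζ = 0 := by
    have e1 : star y * th ζ ζ = 0 := by
      have : th ζ ζ = 1 - y * star y := by rw [h2]; abel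
      rw [this, mul_sub, mul_one, ← mul_assoc, h1, one_mul, sub_self]
    have e2 : ⟪ζ, ζ⟫_ℂ • star y ζ = 0 := by
      have := congrArg (fun f : BH H => f ζ) e1
      rw [mul_th] at this
      exact this
    exact (smul_eq_zero.1 e2).resolve_left (fun h0 => hζ (inner_self_eq_zero.1 h0))
  have hdec : ∀ k : H, ∃ (x : H) (c : ℂ), k = w x + c • ζ := by
    intro k
    set d := k - w (u (star y k)) with hd
    have e1 : star y d = 0 := by rw [hd, map_sub, g2', sub_self]
    have e2 : y (star y d) = d - ⟪ζ, d⟫_ℂ • ζ := congrArg (fun f : BH H => f d) h2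
    rw [e1, map_zero] at e2
    refine ⟨u (star y k), ⟪ζ, d⟫_ℂ, ?_⟩
    rw [← sub_eq_zero.1 e2.symm, hd]
    abel
  have hfr : Module.finrank ℂ (H ⧸ LinearMap.range (lm w)) = 1 := by
    rw [finrank_eq_one_iff']
    refine ⟨(LinearMap.range (lm w)).mkQ ζ, ?_, ?_⟩
    · intro h0
      rw [Submodule.mkQ_apply, Submodule.Quotient.mk_eq_zero] at h0
      obtain ⟨x, hx⟩ := h0
      have hx' : w x = ζ := hx
      have e1 : star y (w x) = 0 := by rw [hx', hz0]
      have e2 := g1' x
      rw [e1, map_zero] at e2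
      exact hζ (by rw [← hx', ← e2, map_zero])
    · intro k'
      obtain ⟨k, rfl⟩ := (LinearMap.range (lm w)).mkQ_surjective k'
      obtain ⟨x, c, hxc⟩ := hdec k
      refine ⟨c, ?_⟩
      rw [hxc, map_add, map_smul]
      have : (LinearMap.range (lm w)).mkQ (w x) = 0 := by
        rw [Submodule.mkQ_apply, Submodule.Quotient.mk_eq_zero]
        exact ⟨x, rfl⟩
      rw [this, zero_add]
  have hfd : FiniteDimensional ℂ (H ⧸ LinearMap.range (lm w)) :=
    Module.finite_of_finrank_eq_succ hfr
  -- the factorisation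
  obtain ⟨c11, c22, c12, c21, c0⟩ := h
  have d11 := ext_mul c11
  have d22 := ext_mul c22
  have d12 := ext_mul c12
  have d21 := ext_mul c21
  set gB : BH H := V1 * b * star V1 + V2 * star V2 with hgB
  set fB : BH H := V1 * star V1 + V2 * b * star V2 with hfB
  set sB : BH H := V1 * star V2 + V2 * star V1 with hsB
  have k1 : gB * fB = dl V1 V2 b := by
    simp only [hgB, hfB, dl, mul_add, add_mul, mul_assoc, c11, c22, c12, c21, d11, d22, d12, d21,
      mul_zero, zero_mul, add_zero, zero_add, one_mul, mul_one]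
  have k2 : fB * gB = dl V1 V2 b := by
    simp only [hgB, hfB, dl, mul_add, add_mul, mul_assoc, c11, c22, c12, c21, d11, d22, d12, d21,
      mul_zero, zero_mul, add_zero, zero_add, one_mul, mul_one]
  have k3 : sB * sB = 1 := by
    have : sB * sB = V1 * star V1 + V2 * star V2 := by
      simp only [hsB, mul_add, add_mul, mul_assoc, c11, c22, c12, c21, d11, d22, d12, d21,
        mul_zero, zero_mul, add_zero, zero_add, one_mul, mul_one]
      exact add_comm _ _
    rw [this, c0]
  have k4 : sB * (gB * sB) = fB := by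
    simp only [hgB, hfB, hsB, mul_add, add_mul, mul_assoc, c11, c22, c12, c21, d11, d22, d12, d21,
      mul_zero, zero_mul, add_zero, zero_add, one_mul, mul_one]
    try abel
  have k3' : ∀ x, sB (sB x) = x := fun x => congrArg (fun f : BH H => f x) k3
  let s : H ≃ₗ[ℂ] H := LinearEquiv.ofLinear (lm sB) (lm sB)
    (LinearMap.ext k3') (LinearMap.ext k3')
  refine parity_aux (lm gB) (lm fB) (lm w) s ?_ ?_ ?_ hinj hfd hfr
  · rw [← k4]; rfl
  · rw [← lm_mul, ← lm_mul, k1, k2]
  · have : lm w - lm gB ∘ₗ lm fB = lm F := by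
      rw [← lm_mul, k1]
      ext x
      show w x - dl V1 V2 b x = F x
      rw [hw]
      show dl V1 V2 b x + F x - dl V1 V2 b x = F x
      abel
    rw [this]
    exact hF.1

end Pool.Agent.V1190.CI
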