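import Mathlib
import Pool.Agent.V1190.CI.Sys
import Pool.Agent.V1190.CI.Assoc

/-!
Consequences of unitary equivalence of the two correspondences.
-/

namespace Pool.Agent.V1190.CI

variable {B : Type} [CStarAlgebra B]

/-- the unit of the third summand -/
def gU : ℂ × ℂ × B := (0, 0, 1)

theorem char_zero_of_cuntz {v1 v2 : B} (hc : Cuntz v1 v2) (χ : ℂ × ℂ × B → ℂ)
    (hm : ∀ x y, χ (x * y) = χ x * χ y) (ha : ∀ x y, χ (x + y) = χ x + χ y) :
    χ gU = 0 := by
  have e : ∀ v : B, star v * v = 1 → χ (0, 0, v * star v) = χ gU := by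
    intro v hv
    have h1 : ((0, 0, v) : ℂ × ℂ × B) * (0, 0, star v) = (0, 0, v * star v) := by
      simp
    have h2 : ((0, 0, star v) : ℂ × ℂ × B) * (0, 0, v) = gU := by
      simp [gU, hv]
    rw [← h1, hm, mul_comm, ← hm, h2]
  have h3 : ((0, 0, v1 * star v1) : ℂ × ℂ × B) + (0, 0, v2 * star v2) = gU := by
    simp [gU, hc.2.2.2.2]
  have h4 := ha (0, 0, v1 * star v1) (0, 0, v2 * star v2)
  rw [h3, e v1 hc.1, e v2 hc.2.1] at h4
  exact left_eq_add.1 h4

theorem map_gU {v1 v2 : B} (hc : Cuntz v1 v2) (γ : (ℂ × ℂ × B) ≃⋆ₐ[ℂ] (ℂ × ℂ × B)) :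
    γ gU = gU := by
  have key : ∀ γ : (ℂ × ℂ × B) ≃⋆ₐ[ℂ] (ℂ × ℂ × B), γ gU = (0, 0, (γ gU).2.2) := by
    intro γ
    have h1 : (γ gU).1 = 0 := char_zero_of_cuntz hc (fun x => (γ x).1)
      (fun x y => by show (γ (x * y)).1 = _; rw [map_mul]; rfl)
      (fun x y => by show (γ (x + y)).1 = _; rw [map_add]; rfl)
    have h2 : (γ gU).2.1 = 0 := char_zero_of_cuntz hc (fun x => (γ x).2.1)
      (fun x y => by show (γ (x * y)).2.1 = _; rw [map_mul]; rfl)
      (fun x y => by show (γ (x + y)).2.1 = _; rw [map_add]; rfl)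
    exact Prod.ext h1 (Prod.ext h2 rfl)
  have h1 := key γ
  have h2 := key γ.symm
  have h3 : γ.symm gU * gU = γ.symm gU := by
    rw [h2]; simp [gU]
  have h4 := congrArg γ h3
  rw [map_mul, StarAlgEquiv.apply_symm_apply] at h4
  rw [h1] at h4 ⊢
  have h5 : (gU : ℂ × ℂ × B) * (0, 0, (γ gU).2.2) = (0, 0, (γ gU).2.2) := by simp [gU]
  rw [h5] at h4
  exact h4

theorem key_noneq {v1 v2 p' q' q u : B} (hc : Cuntz v1 v2) (h : PQU (v1 * star v1) q u)
    (h' : PQU p' q' u)
    (hE : UnitarilyEquivalent (sys (endo h)) (sys (endo h'))) :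
    ∃ x : B, star x * x = 1 ∧ (x * star x = p' ∨ x * star x = q') := by
  obtain ⟨γ, U, hsurj, hin, hmod⟩ := hE
  have hg : γ gU = gU := map_gU hc γ
  set x1 : Fin 2 → ℂ × ℂ × B := ![0, 1] with hx1
  set m0 := U ![1, 0] with hm0
  set m1 := U x1 with hm1
  have hU1 : ∀ c, U ![0, c] = fun j => m1 j * γ c := by
    intro c
    have := hmod 1 c x1
    have e : (fun i => sys (endo h) i 1 * x1 i * c) = ![0, c] := by
      funext i; fin_cases i <;> simp [hx1]
    rw [e] at this
    rw [this]
    funext j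
    rw [map_one, map_one, one_mul]
  have hU0 : ∀ c, U ![c, 0] = fun j => m0 j * γ c := by
    intro c
    have := hmod 1 c ![1, 0]
    have e : (fun i => sys (endo h) i 1 * (![1, 0] : Fin 2 → ℂ × ℂ × B) i * c) = ![c, 0] := by
      funext i; fin_cases i <;> simp
    rw [e] at this
    rw [this]
    funext j
    rw [map_one, map_one, one_mul]
  have hi1 : ∀ a j, sys (endo h') j (γ a) * m1 j = m1 j * γ (endo h a) := by
    intro a j
    have := hmod a 1 x1
    have e : (fun i => sys (endo h) i a * x1 i * 1) = ![0, endo h a] := by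
      funext i
      fin_cases i
      · simp [hx1]
      · show endo h a * 1 * 1 = endo h a
        rw [mul_one, mul_one]
    rw [e, hU1] at this
    have := congrFun this j
    rw [map_one, mul_one] at this
    exact this.symm
  have hi0 : ∀ a j, sys (endo h') j (γ a) * m0 j = m0 j * γ a := by
    intro a j
    have := hmod a 1 ![1, 0]
    have e : (fun i => sys (endo h) i a * (![1, 0] : Fin 2 → ℂ × ℂ × B) i * 1) = ![a, 0] := by
      funext i
      fin_cases i
      · show a * 1 * 1 = a
        rw [mul_one, mul_one]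
      · simp
    rw [e, hU0] at this
    have := congrFun this j
    rw [map_one, mul_one] at this
    exact this.symm
  -- the projection e
  set e : ℂ × ℂ × B := (1, 0, 0) with he
  have hee : e * e = e := by simp [he]
  have hes : star e = e := by
    show (star (1 : ℂ), star (0 : ℂ), star (0 : B)) = _
    simp [he]
  have heg : e * gU = 0 := by
    show ((1 : ℂ) * 0, (0 : ℂ) * 0, (0 : B) * 1) = 0
    simp
  have hge3 : (γ e).2.2 = 0 := by
    have h1 := congrArg γ heg
    rw [map_mul, hg, map_zero] at h1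
    have h2 := congrArg (fun z : ℂ × ℂ × B => z.2.2) h1
    have h3 : (γ e).2.2 * 1 = 0 := h2
    rwa [mul_one] at h3
  set v := (γ (0, 0, v1)).2.2 with hv
  have hvv : star v * v = 1 := by
    have h1 : γ (star (0, 0, v1) * (0, 0, v1)) = γ gU := by
      congr 1
      show (star (0 : ℂ) * 0, star (0 : ℂ) * 0, star v1 * v1) = gU
      rw [hc.1, mul_zero]
      rfl
    rw [map_mul, map_star, hg] at h1
    exact congrArg (fun z : ℂ × ℂ × B => z.2.2) h1
  set P := (γ (endo h e)).2.2 with hP
  have hPv : P = v * star v := by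
    have h1 : endo h e = e + (0, 0, v1) * star (0, 0, v1) := by
      rw [endo_apply]
      show ((1 : ℂ), (0 : ℂ), (1 : ℂ) • (v1 * star v1) + (0 : ℂ) • q + u * 0 * star u) =
        ((1 : ℂ) + 0 * star 0, (0 : ℂ) + 0 * star 0, (0 : B) + v1 * star v1)
      simp
    rw [hP, h1, map_add, map_mul, map_star]
    show (γ e).2.2 + v * star v = v * star v
    rw [hge3, zero_add]
  set R := (endo h' (γ e)).2.2 with hR
  set M := (m1 1).2.2 with hM
  set N := (m1 0).2.2 with hN
  have hNP : N * P = 0 := by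
    have h1 : (γ e).2.2 * N = N * P := congrArg (fun z : ℂ × ℂ × B => z.2.2) (hi1 e 0)
    rw [hge3, zero_mul] at h1
    exact h1.symm
  have hRM : R * M = M * P := congrArg (fun z : ℂ × ℂ × B => z.2.2) (hi1 e 1)
  have hRm0 : R * (m0 1).2.2 = 0 := by
    have h1 : R * (m0 1).2.2 = (m0 1).2.2 * (γ e).2.2 :=
      congrArg (fun z : ℂ × ℂ × B => z.2.2) (hi0 e 1)
    rw [h1, hge3, mul_zero]
  have hRR : R * R = R := by
    have h1 : endo h' (γ e) * endo h' (γ e) = endo h' (γ e) := by
      rw [← map_mul, ← map_mul, hee]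
    exact congrArg (fun z : ℂ × ℂ × B => z.2.2) h1
  have hRs : star R = R := by
    have h1 : star (endo h' (γ e)) = endo h' (γ e) := by
      rw [← map_star, ← map_star, hes]
    exact congrArg (fun z : ℂ × ℂ × B => z.2.2) h1
  have hMN : star N * N + star M * M = 1 := by
    have h1 := hin x1 x1
    have h2 : (∑ i, star (x1 i) * x1 i) = 1 := by
      rw [Fin.sum_univ_two]
      simp [hx1]
    rw [h2, map_one, Fin.sum_univ_two] at h1
    exact congrArg (fun z : ℂ × ℂ × B => z.2.2) h1
  have hNv : N * v = 0 := by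
    calc N * v = N * P * v := by rw [hPv]; simp only [mul_assoc]; rw [hvv, mul_one]
      _ = 0 := by rw [hNP, zero_mul]
  set x := M * v with hx
  have hxx : star x * x = 1 := by
    calc star x * x = star v * (star M * M) * v := by rw [hx, star_mul]; simp only [mul_assoc]
      _ = star v * (1 - star N * N) * v := by rw [← hMN]; congr 2; abel
      _ = star v * v - star v * star N * (N * v) := by
          rw [mul_sub, sub_mul, mul_one]; simp only [mul_assoc]
      _ = 1 := by rw [hNv, mul_zero, sub_zero, hvv]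
  have hRx : R * x = x := by
    calc R * x = M * P * v := by rw [hx, ← mul_assoc, hRM]
      _ = M * v * (star v * v) := by rw [hPv]; simp only [mul_assoc]
      _ = x := by rw [hvv, mul_one]
  have hxR : star x * R = star x := by
    have := congrArg star hRx
    rwa [star_mul, hRs] at this
  -- surjectivity
  have hd : R - x * star x = 0 := by
    set d := R - x * star x with hd
    obtain ⟨z, hz⟩ := hsurj ![0, (0, 0, d)]
    have hz' : z = ![z 0, 0] + ![0, z 1] := by
      funext i; fin_cases i <;> simp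
    have hUz : ∀ j, U z j = m0 j * γ (z 0) + m1 j * γ (z 1) := by
      intro j
      conv_lhs => rw [hz']
      rw [map_add, hU0, hU1]
      rfl
    set c := γ.symm (0, 0, v) with hcdef
    have hgc : γ c = (0, 0, v) := by rw [hcdef, StarAlgEquiv.apply_symm_apply]
    have h1 := hin ![0, c] z
    rw [hU1, hz, Fin.sum_univ_two, Fin.sum_univ_two] at h1
    have h2 : star ((![0, c] : Fin 2 → ℂ × ℂ × B) 0) * z 0 +
        star ((![0, c] : Fin 2 → ℂ × ℂ × B) 1) * z 1 = star c * z 1 := by simp
    rw [h2, map_mul, map_star, hgc] at h1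
    have h3 : star (N * v) * 0 + star (M * v) * d = star v * (γ (z 1)).2.2 := by
      have h4 := congrArg (fun z : ℂ × ℂ × B => z.2.2) h1
      have h5 : (γ c).2.2 = v := by rw [hgc]
      have h6 : star (N * (γ c).2.2) * 0 + star (M * (γ c).2.2) * d =
        star v * (γ (z 1)).2.2 := by
        rw [hgc]
        exact h4
      rwa [h5] at h6
    have h7 : star (M * v) * d = 0 := by
      rw [← hx, hd, mul_sub, hxR, ← mul_assoc, hxx, one_mul, sub_self]
    rw [h7, mul_zero, add_zero] at h3
    have h8 : P * (γ (z 1)).2.2 = 0 := by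
      rw [hPv, mul_assoc, ← h3, mul_zero]
    have h9 : d = (m0 1).2.2 * (γ (z 0)).2.2 + M * (γ (z 1)).2.2 := by
      have h10 := hUz 1
      rw [hz] at h10
      exact congrArg (fun z : ℂ × ℂ × B => z.2.2) h10
    have h11 : R * d = 0 := by
      rw [h9, mul_add, ← mul_assoc, ← mul_assoc, hRm0, hRM, zero_mul, mul_assoc, h8, mul_zero,
        add_zero]
    have h12 : R * d = d := by
      rw [hd, mul_sub, hRR, ← mul_assoc, hRx]
    rw [← h12, h11]
  have hxs : x * star x = R := (sub_eq_zero.1 hd).symm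
  refine ⟨x, hxx, ?_⟩
  -- identify R
  have hRval : R = (γ e).1 • p' + (γ e).2.1 • q' := by
    rw [hR, endo_apply]
    show (γ e).1 • p' + (γ e).2.1 • q' + u * (γ e).2.2 * star u = _
    rw [hge3, mul_zero, zero_mul, add_zero]
  have hidem : γ e * γ e = γ e := by rw [← map_mul, hee]
  have i1 : (γ e).1 * (γ e).1 = (γ e).1 := congrArg Prod.fst hidem
  have i2 : (γ e).2.1 * (γ e).2.1 = (γ e).2.1 :=
    congrArg (fun z : ℂ × ℂ × B => z.2.1) hidem
  set f : ℂ × ℂ × B := (0, 1, 0) with hf
  have hef : e * f = 0 := by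
    show ((1 : ℂ) * 0, (0 : ℂ) * 1, (0 : B) * 0) = 0
    simp
  have hfg : f * gU = 0 := by
    show ((0 : ℂ) * 0, (1 : ℂ) * 0, (0 : B) * 1) = 0
    simp
  have hgf3 : (γ f).2.2 = 0 := by
    have h1 := congrArg γ hfg
    rw [map_mul, hg, map_zero] at h1
    have h2 := congrArg (fun z : ℂ × ℂ × B => z.2.2) h1
    have h3 : (γ f).2.2 * 1 = 0 := h2
    rwa [mul_one] at h3
  have hef' : γ e * γ f = 0 := by rw [← map_mul, hef, map_zero]
  have f1 : (γ e).1 * (γ f).1 = 0 := congrArg Prod.fst hef'
  have f2 : (γ e).2.1 * (γ f).2.1 = 0 := congrArg (fun z : ℂ × ℂ × B => z.2.1) hef'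
  have ene : γ e ≠ 0 := by
    intro h0
    have : e = 0 := EquivLike.injective γ (by rw [h0, map_zero])
    have := congrArg Prod.fst this
    exact one_ne_zero this
  have fne : γ f ≠ 0 := by
    intro h0
    have : f = 0 := EquivLike.injective γ (by rw [h0, map_zero])
    have := congrArg (fun z : ℂ × ℂ × B => z.2.1) this
    exact one_ne_zero this
  have dich : ∀ c : ℂ, c * c = c → c = 0 ∨ c = 1 := by
    intro c hc
    by_cases h0 : c = 0
    · exact Or.inl h0
    · exact Or.inr (mul_left_cancel₀ h0 (by rw [hc, mul_one]))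
  rw [hxs, hRval]
  rcases dich _ i1 with a1 | a1
  · rcases dich _ i2 with a2 | a2
    · exact absurd (Prod.ext a1 (Prod.ext a2 hge3)) ene
    · right
      rw [a1, a2, zero_smul, one_smul, zero_add]
  · rcases dich _ i2 with a2 | a2
    · left
      rw [a1, a2, zero_smul, one_smul, add_zero]
    · exfalso
      rw [a1, one_mul] at f1
      rw [a2, one_mul] at f2
      exact fne (Prod.ext f1 (Prod.ext f2 hgf3))

end Pool.Agent.V1190.CI
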