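import Mathlib
import Pool.Agent.V1190.CI.Conc

/-!
Isometries on `ℓ²(ℕ)`.
-/

namespace Pool.Agent.V1190.CI

open scoped InnerProductSpace

/-- the Hilbert space `ℓ²(ℕ)` -/
noncomputable abbrev HN := lp (fun _ : ℕ => ℂ) 2

theorem summN (ξ : HN) : Summable fun w => ‖ξ w‖ ^ (2 : ENNReal).toReal :=
  (lp.memℓp ξ).summable two_pos'

/-- composition with an injective map -/
noncomputable def CN (f : ℕ → ℕ) (hf : Function.Injective f) : HN →L[ℂ] HN :=
  LinearMap.mkContinuous
    { toFun := fun ξ => ⟨fun w => ξ (f w), by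
        refine (memℓp_gen_iff two_pos').2 ?_
        exact (summN ξ).comp_injective (i := f) hf⟩
      map_add' := fun ξ η => rfl
      map_smul' := fun c ξ => rfl } 1 (by
    intro ξ
    rw [one_mul]
    refine lp.norm_le_of_tsum_le two_pos' (norm_nonneg _) ?_
    rw [lp.norm_rpow_eq_tsum two_pos' ξ]
    exact tsum_comp_le_tsum_of_inj (i := f) (summN ξ)
      (fun w => by positivity) hf)

theorem CN_apply (f : ℕ → ℕ) (hf : Function.Injective f) (ξ : HN) (w : ℕ) :
    CN f hf ξ w = ξ (f w) := rfl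

/-- its adjoint -/
noncomputable def UN (f : ℕ → ℕ) (hf : Function.Injective f) : HN →L[ℂ] HN :=
  ContinuousLinearMap.adjoint (CN f hf)

theorem star_UN (f : ℕ → ℕ) (hf : Function.Injective f) : star (UN f hf) = CN f hf := by
  rw [ContinuousLinearMap.star_eq_adjoint, UN, ContinuousLinearMap.adjoint_adjoint]

theorem CN_single (f : ℕ → ℕ) (hf : Function.Injective f) (n : ℕ) (c : ℂ) :
    CN f hf (lp.single 2 (f n) c : HN) = lp.single 2 n c := by
  ext v
  rw [CN_apply]
  by_cases hv : v = n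
  · subst hv; simp
  · rw [lp.single_apply_ne _ _ _ (fun h => hv (hf h)), lp.single_apply_ne _ _ _ hv]

theorem CN_single_ne (f : ℕ → ℕ) (hf : Function.Injective f) (m : ℕ) (hm : ∀ n, f n ≠ m) (c : ℂ) :
    CN f hf (lp.single 2 m c : HN) = 0 := by
  ext v
  rw [CN_apply, lp.single_apply_ne _ _ _ (hm v)]
  rfl

theorem UN_apply (f : ℕ → ℕ) (hf : Function.Injective f) (ξ : HN) (n : ℕ) :
    UN f hf ξ (f n) = ξ n := by
  refine ext_inner_left ℂ fun v => ?_
  rw [← lp.inner_single_left (𝕜 := ℂ) (f n) v (UN f hf ξ), UN,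
    ContinuousLinearMap.adjoint_inner_right, CN_single, lp.inner_single_left]

theorem UN_apply_ne (f : ℕ → ℕ) (hf : Function.Injective f) (ξ : HN) (m : ℕ)
    (hm : ∀ n, f n ≠ m) : UN f hf ξ m = 0 := by
  refine ext_inner_left ℂ fun v => ?_
  rw [← lp.inner_single_left (𝕜 := ℂ) m v (UN f hf ξ), UN,
    ContinuousLinearMap.adjoint_inner_right, CN_single_ne f hf m hm, inner_zero_left,
    inner_zero_right]

theorem CN_UN (f : ℕ → ℕ) (hf : Function.Injective f) : star (UN f hf) * UN f hf = 1 := by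
  rw [star_UN]
  ext ξ n
  exact UN_apply f hf ξ n

theorem CN_UN_ne (f g : ℕ → ℕ) (hf : Function.Injective f) (hg : Function.Injective g)
    (hfg : ∀ m n, g m ≠ f n) : star (UN f hf) * UN g hg = 0 := by
  rw [star_UN]
  ext ξ n
  exact UN_apply_ne g hg ξ (f n) (fun m => hfg m n)

theorem inj_even : Function.Injective (fun n : ℕ => 2 * n) := fun a b h => by
  simpa using h

theorem inj_odd : Function.Injective (fun n : ℕ => 2 * n + 1) := fun a b h => by
  simpa using h

/-- even isometry -/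
noncomputable def VE : BH HN := UN (fun n => 2 * n) inj_even

/-- odd isometry -/
noncomputable def VO : BH HN := UN (fun n => 2 * n + 1) inj_odd

/-- unilateral shift -/
noncomputable def TS : BH HN := UN Nat.succ Nat.succ_injective

theorem cuntzN : Cuntz VE VO := by
  refine ⟨CN_UN _ _, CN_UN _ _, CN_UN_ne _ _ _ _ (fun m n => by omega),
    CN_UN_ne _ _ _ _ (fun m n => by omega), ?_⟩
  rw [VE, VO, star_UN, star_UN]
  ext ξ m
  show UN (fun n => 2 * n) inj_even (CN _ inj_even ξ) m +
    UN (fun n => 2 * n + 1) inj_odd (CN _ inj_odd ξ) m = ξ m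
  rcases Nat.even_or_odd' m with ⟨k, hk | hk⟩
  · subst hk
    rw [UN_apply (fun n => 2 * n) inj_even, UN_apply_ne (fun n => 2 * n + 1) inj_odd _ _
      (fun n => by omega), add_zero]
    rfl
  · subst hk
    rw [UN_apply (fun n => 2 * n + 1) inj_odd, UN_apply_ne (fun n => 2 * n) inj_even _ _
      (fun n => by omega), zero_add]
    rfl

/-- the first basis vector -/
noncomputable def xi0 : HN := lp.single 2 0 (1 : ℂ)

theorem xi0_inner : ⟪xi0, xi0⟫_ℂ = 1 := by
  rw [xi0, lp.inner_single_left, lp.single_apply_self]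
  simp

theorem TS_one : star TS * TS = 1 := CN_UN _ _

theorem TS_two : TS * star TS = 1 - th xi0 xi0 := by
  rw [TS, star_UN]
  ext ξ m
  have h1 : ((1 - th xi0 xi0 : BH HN) ξ) m = ξ m - ⟪xi0, ξ⟫_ℂ * xi0 m := rfl
  rw [h1]
  show UN Nat.succ Nat.succ_injective (CN _ Nat.succ_injective ξ) m = _
  have h2 : ⟪xi0, ξ⟫_ℂ = ξ 0 := by
    rw [xi0, lp.inner_single_left]; simp
  rw [h2]
  cases m with
  | zero =>
    rw [UN_apply_ne Nat.succ Nat.succ_injective _ 0 (fun n => Nat.succ_ne_zero n), xi0,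
      lp.single_apply_self, mul_one, sub_self]
  | succ n =>
    rw [UN_apply Nat.succ Nat.succ_injective _ n, xi0, lp.single_apply_ne _ _ _ (Nat.succ_ne_zero n),
      mul_zero, sub_zero]
    rfl

end Pool.Agent.V1190.CI
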