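import Mathlib
import Pool.Agent.V1190.CI.Seq
import Pool.Agent.V1190.CI.NoIso
import Pool.Agent.V1190.CI.NonEq
import Pool.Agent.V1190.CI.Assoc2

/-!
The counterexample.
-/

namespace Pool.Agent.V1190.CI

open scoped InnerProductSpace

section

variable {H : Type} [NormedAddCommGroup H] [InnerProductSpace ℂ H] [CompleteSpace H]
variable {V1 V2 : BH H} (h : Cuntz V1 V2)

theorem th_th (x y z w : H) : th x y * th z w = ⟪y, z⟫_ℂ • th x w := by
  ext k
  show ⟪y, ⟪w, k⟫_ℂ • z⟫_ℂ • x = ⟪y, z⟫_ℂ • ⟪w, k⟫_ℂ • x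
  rw [inner_smul_right, smul_smul, mul_comm]

theorem Cuntz.inner11 (h : Cuntz V1 V2) (x y : H) : ⟪V1 x, V1 y⟫_ℂ = ⟪x, y⟫_ℂ := by
  rw [← ContinuousLinearMap.adjoint_inner_right, ← ContinuousLinearMap.star_eq_adjoint]
  have := congrArg (fun f : BH H => f y) h.1
  have h2 : (star V1) (V1 y) = y := this
  rw [h2]

theorem Cuntz.inner22 (h : Cuntz V1 V2) (x y : H) : ⟪V2 x, V2 y⟫_ℂ = ⟪x, y⟫_ℂ := by
  rw [← ContinuousLinearMap.adjoint_inner_right, ← ContinuousLinearMap.star_eq_adjoint]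
  have := congrArg (fun f : BH H => f y) h.2.1
  have h2 : (star V2) (V2 y) = y := this
  rw [h2]

theorem Cuntz.inner12 (h : Cuntz V1 V2) (x y : H) : ⟪V1 x, V2 y⟫_ℂ = 0 := by
  rw [← ContinuousLinearMap.adjoint_inner_right, ← ContinuousLinearMap.star_eq_adjoint]
  have := congrArg (fun f : BH H => f y) h.2.2.1
  have h2 : (star V1) (V2 y) = 0 := this
  rw [h2, inner_zero_right]

theorem Cuntz.inner21 (h : Cuntz V1 V2) (x y : H) : ⟪V2 x, V1 y⟫_ℂ = 0 := by
  rw [← ContinuousLinearMap.adjoint_inner_right, ← ContinuousLinearMap.star_eq_adjoint]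
  have := congrArg (fun f : BH H => f y) h.2.2.2.1
  have h2 : (star V2) (V1 y) = 0 := this
  rw [h2, inner_zero_right]

/-- elements of `A1` -/
noncomputable def dA (b : BH H) : A1 h := ⟨dl V1 V2 b, dl_mem h b⟩

/-- elements of `A1` -/
noncomputable def tA (x y : H) : A1 h := ⟨th x y, JJ_A1 h (th_JJ x y)⟩

theorem tA_mul (x y z w : H) (c : ℂ) (hc : ⟪y, z⟫_ℂ = c) :
    tA h x y * tA h z w = c • tA h x w := by
  apply Subtype.ext
  rw [← hc]
  exact th_th x y z w

theorem tA_star (x y : H) : star (tA h x y) = tA h y x := Subtype.ext (star_th x y)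

theorem dA_star_mul (a b c : BH H) (hc : star a * b = c) : star (dA h a) * dA h b = dA h c := by
  apply Subtype.ext
  rw [← hc]
  show star (dl V1 V2 a) * dl V1 V2 b = dl V1 V2 (star a * b)
  rw [dl_star, dl_mul h]

theorem dA_one : dA h 1 = 1 := Subtype.ext (dl_one h)

theorem dA_zero : dA h 0 = 0 := Subtype.ext dl_zero

theorem dat {T : BH H} {ξ : H} (hξ : ⟪ξ, ξ⟫_ℂ = 1) (hT : star T * T = 1)
    (hT2 : T * star T = 1 - th ξ ξ) :
    Dat (dA h V1) (dA h V2) (dA h T) (tA h (V1 ξ) (V1 ξ)) (tA h (V1 ξ) (V2 ξ))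
      (tA h (V2 ξ) (V1 ξ)) (tA h (V2 ξ) (V2 ξ)) where
  cz := by
    refine ⟨?_, ?_, ?_, ?_, ?_⟩
    · rw [dA_star_mul h _ _ _ h.1, dA_one]
    · rw [dA_star_mul h _ _ _ h.2.1, dA_one]
    · rw [dA_star_mul h _ _ _ h.2.2.1, dA_zero]
    · rw [dA_star_mul h _ _ _ h.2.2.2.1, dA_zero]
    · apply Subtype.ext
      show dl V1 V2 V1 * star (dl V1 V2 V1) + dl V1 V2 V2 * star (dl V1 V2 V2) = 1
      rw [dl_star, dl_star, dl_mul h, dl_mul h, ← dl_add, h.2.2.2.2, dl_one h]
  s1 := by rw [dA_star_mul h _ _ _ hT, dA_one]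
  s2 := by
    apply Subtype.ext
    show dl V1 V2 T * star (dl V1 V2 T) = 1 - th (V1 ξ) (V1 ξ) - th (V2 ξ) (V2 ξ)
    rw [dl_star, dl_mul h, hT2]
    have e1 : dl V1 V2 (1 - th ξ ξ) = (V1 * star V1 + V2 * star V2) - V1 * th ξ ξ * star V1 -
        V2 * th ξ ξ * star V2 := by
      simp only [dl]; noncomm_ring
    rw [e1, h.2.2.2.2, mul_th, mul_th, th_mul, th_mul, star_star, star_star]
  a11 := by rw [tA_mul h _ _ _ _ 1 (by rw [h.inner11, hξ]), one_smul]
  a12 := by rw [tA_mul h _ _ _ _ 1 (by rw [h.inner11, hξ]), one_smul]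
  a13 := by rw [tA_mul h _ _ _ _ 1 (by rw [h.inner22, hξ]), one_smul]
  a14 := by rw [tA_mul h _ _ _ _ 1 (by rw [h.inner22, hξ]), one_smul]
  a21 := by rw [tA_mul h _ _ _ _ 1 (by rw [h.inner11, hξ]), one_smul]
  a22 := by rw [tA_mul h _ _ _ _ 1 (by rw [h.inner11, hξ]), one_smul]
  a23 := by rw [tA_mul h _ _ _ _ 1 (by rw [h.inner22, hξ]), one_smul]
  a24 := by rw [tA_mul h _ _ _ _ 1 (by rw [h.inner22, hξ]), one_smul]
  z1 := by rw [tA_mul h _ _ _ _ 0 (by rw [h.inner12]), zero_smul]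
  z2 := by rw [tA_mul h _ _ _ _ 0 (by rw [h.inner12]), zero_smul]
  z3 := by rw [tA_mul h _ _ _ _ 0 (by rw [h.inner21]), zero_smul]
  z4 := by rw [tA_mul h _ _ _ _ 0 (by rw [h.inner21]), zero_smul]
  z5 := by rw [tA_mul h _ _ _ _ 0 (by rw [h.inner12]), zero_smul]
  z6 := by rw [tA_mul h _ _ _ _ 0 (by rw [h.inner12]), zero_smul]
  z7 := by rw [tA_mul h _ _ _ _ 0 (by rw [h.inner21]), zero_smul]
  z8 := by rw [tA_mul h _ _ _ _ 0 (by rw [h.inner21]), zero_smul]
  t11 := tA_star h _ _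
  t12 := tA_star h _ _
  t21 := tA_star h _ _
  t22 := tA_star h _ _

theorem noIsoA (y : A1 h) (ζ : H) (hζ : ζ ≠ 0) (h1 : star y * y = 1)
    (h2 : ((y * star y : A1 h) : BH H) = 1 - th ζ ζ) : False :=
  noIso h y.2 ζ hζ (congrArg Subtype.val h1) h2

theorem not_equiv {T : BH H} {ξ : H} (hξ : ⟪ξ, ξ⟫_ℂ = 1) (hT : star T * T = 1)
    (hT2 : T * star T = 1 - th ξ ξ) :
    ¬ UnitarilyEquivalent (sys (endo (pqu (dat h hξ hT hT2))))
      (sys (endo (pqu' (dat h hξ hT hT2)))) := by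
  intro hE
  set D := dat h hξ hT hT2 with hD
  obtain ⟨x, hx1, hx2⟩ := key_noneq D.cz (pqu D) (pqu' D) hE
  obtain ⟨c11, c22, c12, c21, -⟩ := D.cz
  have d11 := ext_mul c11
  have d22 := ext_mul c22
  have d12 := ext_mul c12
  have d21 := ext_mul c21
  set v1 := dA h V1 with hv1
  set v2 := dA h V2 with hv2
  set e11 := tA h (V1 ξ) (V1 ξ) with he11
  have hξ0 : ξ ≠ 0 := by
    rintro rfl
    rw [inner_zero_left] at hξ
    exact zero_ne_one hξ
  have hη : V1 ξ ≠ 0 := by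
    intro h0
    have := h.inner11 ξ ξ
    rw [h0, inner_zero_left, hξ] at this
    exact zero_ne_one this
  have hxa := ext_mul hx1
  rcases hx2 with hx2 | hx2
  · -- `1 ∼ p'`
    have k1 : P' v1 e11 * x = x := by rw [← hx2, mul_assoc, hx1, mul_one]
    have k2 : v1 * star v1 * P' v1 e11 = P' v1 e11 := by
      simp only [P', mul_sub, mul_assoc, d11, one_mul]
    have k3 : v1 * star v1 * x = x := by rw [← k1, ← mul_assoc, k2]
    refine noIsoA h (star v1 * x) (V1 ξ) hη ?_ ?_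
    · rw [star_mul, star_star]
      calc star x * v1 * (star v1 * x) = star x * (v1 * star v1 * x) := by
            simp only [mul_assoc]
        _ = 1 := by rw [k3, hx1]
    · have : star v1 * x * star (star v1 * x) = 1 - e11 := by
        rw [star_mul, star_star]
        calc star v1 * x * (star x * v1) = star v1 * (x * star x) * v1 := by
              simp only [mul_assoc]
          _ = 1 - e11 := by
              rw [hx2]
              simp only [P', mul_sub, sub_mul, mul_assoc, d11, c11, one_mul, mul_one]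
      rw [this]
      rfl
  · -- `1 ∼ q'`
    have hQv : Q' v1 v2 e11 * (v1 * e11) = v1 * e11 := by
      have f11 := ext_mul D.a11
      simp only [Q', add_mul, mul_assoc, d21, d11, zero_mul, mul_zero, zero_add, one_mul, D.a11]
    set z := star x * (v2 * v1) with hz
    have hzz : star z * z = 1 := by
      rw [hz, star_mul, star_star, star_mul]
      calc star v1 * star v2 * x * (star x * (v2 * v1)) =
          star v1 * star v2 * (x * star x) * (v2 * v1) := by simp only [mul_assoc]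
        _ = 1 := by
          rw [hx2]
          simp only [Q', mul_add, add_mul, mul_assoc, d22, c22, d11, c11, c21, d21, c12, d12,
            one_mul, mul_one, zero_mul, mul_zero, add_zero]
    have hzz' : z * star z = 1 - star x * v1 * e11 * (star v1 * x) := by
      rw [hz, star_mul, star_star, star_mul]
      have e1 : star x * (v2 * v1) * (star v1 * star v2 * x) =
          star x * Q' v1 v2 e11 * x - star x * v1 * e11 * (star v1 * x) := by
        simp only [Q', mul_add, add_mul, mul_assoc]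
        abel
      rw [e1, ← hx2]
      have e2 : star x * (x * star x) * x = 1 := by
        simp only [mul_assoc, hx1, mul_one]
      rw [e2]
    set ζ : H := (star x : A1 h).1 (dl V1 V2 V1 (V1 ξ)) with hζdef
    have hζ : ζ ≠ 0 := by
      intro h0
      have e1 : (x * star x : A1 h).1 (dl V1 V2 V1 (V1 ξ)) = 0 := by
        show x.1 ((star x : A1 h).1 (dl V1 V2 V1 (V1 ξ))) = 0
        rw [← hζdef, h0, map_zero]
      have e2 := congrArg (fun f : A1 h => f.1 (V1 ξ)) hQv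
      have e3 : (e11 : A1 h).1 (V1 ξ) = V1 ξ := by
        show ⟪V1 ξ, V1 ξ⟫_ℂ • V1 ξ = V1 ξ
        rw [h.inner11, hξ, one_smul]
      have e4 : (Q' v1 v2 e11).1 (dl V1 V2 V1 ((e11 : A1 h).1 (V1 ξ))) =
          dl V1 V2 V1 ((e11 : A1 h).1 (V1 ξ)) := e2
      rw [e3, ← hx2, e1] at e4
      have e5 : star (dl V1 V2 V1) (dl V1 V2 V1 (V1 ξ)) = V1 ξ :=
        congrArg (fun f : A1 h => f.1 (V1 ξ)) c11
      rw [← e4, map_zero] at e5
      exact hη e5.symm
    refine noIsoA h z ζ hζ hzz ?_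
    rw [hzz']
    show 1 - (star x : A1 h).1 * dl V1 V2 V1 * th (V1 ξ) (V1 ξ) * (star (dl V1 V2 V1) * x.1) =
      1 - th ζ ζ
    congr 1
    rw [mul_th, th_mul, star_mul, star_star]
    rfl

end

theorem one_ne_zero_BH : (1 : BH HN) ≠ 0 := by
  intro h0
  have := congrArg (fun f : BH HN => f xi0) h0
  have h1 : xi0 = 0 := this
  have h2 := xi0_inner
  rw [h1, inner_zero_left] at h2
  exact zero_ne_one h2

/-- the faithful representation of `ℂ × ℂ × A1` -/
noncomputable def rhoN : (ℂ × ℂ × A1 cuntzN) →⋆ₐ[ℂ] BH HN :=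
  mk3 (pqu_cuntz cuntzN) (A1 cuntzN).subtype

theorem rhoN_inj : Function.Injective rhoN := by
  refine mk3_inj _ _ Subtype.val_injective ?_ ?_
  · intro h0
    have h1 : star VE * (Pp VE) * VE = 1 := by
      rw [Pp, ← mul_assoc, cuntzN.1, one_mul, cuntzN.1]
    rw [h0, mul_zero, zero_mul] at h1
    exact one_ne_zero_BH h1.symm
  · intro h0
    have d11 := ext_mul cuntzN.1
    have d22 := ext_mul cuntzN.2.1
    have h1 : star VE * (star VO * (QpA VE VO * (VO * VE))) = 1 := by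
      simp only [QpA, mul_assoc, d22, d11, one_mul, cuntzN.1]
    rw [h0, zero_mul, mul_zero, mul_zero] at h1
    exact one_ne_zero_BH h1.symm

/-- the second endomorphism of the first system -/
noncomputable def sgN : (ℂ × ℂ × A1 cuntzN) →⋆ₐ[ℂ] (ℂ × ℂ × A1 cuntzN) :=
  endo (pqu (dat cuntzN xi0_inner TS_one TS_two))

/-- the second endomorphism of the second system -/
noncomputable def taN : (ℂ × ℂ × A1 cuntzN) →⋆ₐ[ℂ] (ℂ × ℂ × A1 cuntzN) :=
  endo (pqu' (dat cuntzN xi0_inner TS_one TS_two))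

theorem assoc_S : Associated (sys sgN) (GA rhoN (sys sgN) (sys taN) cuntzN) :=
  assoc_main rhoN _ _ _ _ _ _ cuntzN rhoN_inj (endo_inj _) (endo_inj _)
      (dom_of_mv _ _ (mv (dat cuntzN xi0_inner TS_one TS_two)))

theorem assoc_T : Associated (sys taN) (GA rhoN (sys taN) (sys sgN) cuntzN) :=
  assoc_main rhoN _ _ _ _ _ _ cuntzN rhoN_inj (endo_inj _) (endo_inj _)
      (dom_of_mv _ _ (mv' (dat cuntzN xi0_inner TS_one TS_two)))

theorem main : ∃ (A : Type) (_ : CStarAlgebra A) (α β : Fin 2 → (A →⋆ₐ[ℂ] A))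
    (C : Type) (_ : CStarAlgebra C) (S T : Subalgebra ℂ C),
    (∀ i, Function.Injective (α i)) ∧ (∀ i, Function.Injective (β i)) ∧
    Associated α S ∧ Associated β T ∧
    (∃ Φ : C ≃⋆ₐ[ℂ] C, ∀ z, z ∈ S ↔ Φ z ∈ T) ∧
    (∃ φ : S ≃ₐ[ℂ] T, ∀ x, ‖φ x‖ = ‖x‖) ∧
    ¬ UnitarilyEquivalent α β :=
  ⟨ℂ × ℂ × A1 cuntzN, inferInstance, sys sgN, sys taN, CC HN, inferInstance,
    GA rhoN (sys sgN) (sys taN) cuntzN, GA rhoN (sys taN) (sys sgN) cuntzN,
    sys_inj _ (endo_inj _), sys_inj _ (endo_inj _), assoc_S, assoc_T,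
    ⟨swp, swp_mem rhoN _ _ cuntzN⟩, exists_iso rhoN _ _ cuntzN,
    not_equiv cuntzN xi0_inner TS_one TS_two⟩

end Pool.Agent.V1190.CI
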